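import Pool.Agent.helper32.FolG.N1

/-!
# FOL, G-N2: displacement of words near the identity
-/

open Set Filter Topology

namespace Pool.Agent.helper32.FolG

open Pool.Agent.helper35.FOL

/-- Growth of the displacement. -/
theorem disp_growth {g : ℝ ≃o ℝ} (hg : g ∈ Dd) {a b η : ℝ} (hη0 : 0 ≤ η) (hη1 : η ≤ 1)
    (hL : ∀ x, a ≤ x → x ≤ b → |LD g x| ≤ η) {x y : ℝ} (hx : a ≤ x) (hxb : x ≤ b) (hy : a ≤ y)
    (hyb : y ≤ b) : |(g x - x) - (g y - y)| ≤ 2 * η * |x - y| := by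
  have _ := hη0
  have hd : ∀ t ∈ Icc a b, HasDerivWithinAt (fun t => g t - t) (deriv g t - 1) (Icc a b) t :=
    fun t _ => ((hasDeriv hg t).sub (hasDerivAt_id t)).hasDerivWithinAt
  have hbd : ∀ t ∈ Icc a b, ‖deriv g t - 1‖ ≤ 2 * η := by
    intro t ht
    have h1 := hL t ht.1 ht.2
    rw [deriv_eq_exp hg t, Real.norm_eq_abs]
    exact (Real.abs_exp_sub_one_le (h1.trans hη1)).trans (by linarith)
  exact (convex_Icc a b).norm_image_sub_le_of_norm_hasDerivWithin_le hd hbd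
    (⟨hy, hyb⟩ : y ∈ Icc a b) (⟨hx, hxb⟩ : x ∈ Icc a b)

/-- One letter. -/
theorem N2_letter {g : ℝ ≃o ℝ} (hg : g ∈ Dd) {a b x₀ D η m n : ℝ} (hD : 0 < D) (hη : 0 ≤ η)
    (hm : 0 ≤ m) (hmn : m + 1 ≤ n)
    (hηn : 16 * (n + 1) * η ≤ 1) (hL : ∀ x, a ≤ x → x ≤ b → |LD g x| ≤ η)
    (hd : |g x₀ - x₀| ≤ D) (ha : a ≤ x₀ - 2 * (n + 1) * D) (hb : x₀ + 2 * (n + 1) * D ≤ b)
    {y : ℝ} (hy : |y - x₀| ≤ 2 * m * D) :
    (|g y - y| ≤ 2 * D ∧ |(g y - y) - (g x₀ - x₀)| ≤ 8 * (n + 1) * η * D) ∧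
      (|g⁻¹ y - y| ≤ 2 * D ∧ |(g⁻¹ y - y) + (g x₀ - x₀)| ≤ 8 * (n + 1) * η * D) := by
  have hη1 : η ≤ 1 := by nlinarith
  have hnη : 4 * n * η ≤ 1 / 4 := by nlinarith
  have hnηD : 4 * n * η * D ≤ 1 / 4 * D := mul_le_mul_of_nonneg_right hnη hD.le
  have hmD : 0 ≤ m * D := mul_nonneg hm hD.le
  have hmnD : (m + 1) * D ≤ n * D := mul_le_mul_of_nonneg_right hmn hD.le
  have key : ∀ t : ℝ, |t - x₀| ≤ 2 * (m + 1) * D →
      |(g t - t) - (g x₀ - x₀)| ≤ 4 * n * η * D := by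
    intro t ht
    have h0 := abs_le.1 ht
    have h1 := disp_growth hg hη hη1 hL (x := t) (y := x₀) (by linarith) (by linarith)
      (by linarith) (by linarith)
    refine h1.trans ?_
    have h2 : 2 * η * |t - x₀| ≤ 2 * η * (2 * (n * D)) :=
      mul_le_mul_of_nonneg_left (ht.trans (by linarith)) (by positivity)
    linarith
  have hle : 4 * n * η * D ≤ 8 * (n + 1) * η * D := by
    have h1 : 0 ≤ η * D := mul_nonneg hη hD.le
    have h2 : 0 ≤ n := by linarith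
    nlinarith [mul_nonneg h2 h1]
  have hd' := abs_le.1 hd
  refine ⟨⟨?_, ?_⟩, ?_⟩
  · have h1 := abs_le.1 (key y (hy.trans (by linarith)))
    rw [abs_le]
    constructor <;> linarith
  · exact (key y (hy.trans (by linarith))).trans hle
  · have hy' := abs_le.1 hy
    have hgz : g (g⁻¹ y) = y := g.apply_symm_apply y
    have h1 : g⁻¹ y ≤ y + 2 * D := by
      have h2 := abs_le.1 (key (y + 2 * D) (by rw [abs_le]; constructor <;> linarith))
      refine g.le_iff_le.1 ?_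
      rw [hgz]
      linarith
    have h1' : y - 2 * D ≤ g⁻¹ y := by
      have h2 := abs_le.1 (key (y - 2 * D) (by rw [abs_le]; constructor <;> linarith))
      refine g.le_iff_le.1 ?_
      rw [hgz]
      linarith
    refine ⟨by rw [abs_le]; constructor <;> linarith, ?_⟩
    have h3 := key (g⁻¹ y) (by rw [abs_le]; constructor <;> linarith)
    rw [hgz] at h3
    have h4 : (g⁻¹ y - y) + (g x₀ - x₀) = -((y - g⁻¹ y) - (g x₀ - x₀)) := by ring
    rw [h4, abs_neg]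
    exact h3.trans hle

/-- Displacement of a word at a base point. -/
theorem word_disp {q : Q4} (hq : InDd q) {a b x₀ D η : ℝ} {n : ℕ} (hD : 0 < D) (hη : 0 ≤ η)
    (hηn : 16 * (n + 1) * η ≤ 1) (hL : ∀ i x, a ≤ x → x ≤ b → |LD (q i) x| ≤ η)
    (hd : ∀ i, |q i x₀ - x₀| ≤ D) (ha : a ≤ x₀ - 2 * (n + 1) * D) (hb : x₀ + 2 * (n + 1) * D ≤ b)
    (L : List (Fin 4 × Bool)) (hLn : L.length ≤ n) :
    |evL q L x₀ - x₀| ≤ 2 * L.length * D ∧
      |evL q L x₀ - x₀ - linL (fun i => q i x₀ - x₀) L| ≤ 8 * (n + 1) * L.length * η * D := by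
  induction L with
  | nil =>
    rw [evL_nil, linL_nil]
    have h1 : (1 : ℝ ≃o ℝ) x₀ = x₀ := rfl
    rw [h1]
    simp
  | cons p L ih =>
    rw [List.length_cons] at hLn
    obtain ⟨h1, h2⟩ := ih (by omega)
    have hmn : (L.length : ℝ) + 1 ≤ n := by exact_mod_cast hLn
    obtain ⟨⟨h3, h4⟩, h5, h6⟩ := N2_letter (hq p.1) (m := L.length) (n := n) hD hη
      (Nat.cast_nonneg _) hmn hηn (hL p.1) (hd p.1) ha hb h1
    rw [evL_cons, linL_cons, List.length_cons]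
    push_cast
    rcases p with ⟨i, β⟩
    cases β
    · change |(q i)⁻¹ (evL q L x₀) - x₀| ≤ _ ∧
        |(q i)⁻¹ (evL q L x₀) - x₀ - (-(q i x₀ - x₀) + _)| ≤ _
      rw [abs_le] at h1 h2 h5 h6 ⊢
      rw [abs_le]
      refine ⟨⟨by linarith, by linarith⟩, by linarith, by linarith⟩
    · change |(q i) (evL q L x₀) - x₀| ≤ _ ∧
        |(q i) (evL q L x₀) - x₀ - ((q i x₀ - x₀) + _)| ≤ _
      rw [abs_le] at h1 h2 h3 h4 ⊢
      rw [abs_le]
      refine ⟨⟨by linarith, by linarith⟩, by linarith, by linarith⟩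

end Pool.Agent.helper32.FolG
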