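import Pool.Agent.helper32.FolG.N1

/-!
# FOL, G-N3: pulling a local modification back by a relabeling
-/

open Set Filter Topology

namespace Pool.Agent.helper32.FolG

open Pool.Agent.helper35.FOL

theorem N3_lt1_mem {q : Q4} (hq : InDd q) (p : Fin 4 × Bool) : lt1 q p ∈ Dd := by
  rcases p with ⟨i, b⟩
  cases b
  · exact Dd.inv_mem (hq i)
  · exact hq i

theorem N3_evL_mem {q : Q4} (hq : InDd q) (L : List (Fin 4 × Bool)) : evL q L ∈ Dd := by
  induction L with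
  | nil => exact Dd.one_mem
  | cons p L ih =>
    rw [evL_cons]
    exact Dd.mul_mem (N3_lt1_mem hq p) ih

theorem N3_evL_apply (q : Q4) (p : Fin 4 × Bool) (L : List (Fin 4 × Bool)) (x : ℝ) :
    evL q (p :: L) x = lt1 q p (evL q L x) := by
  rw [evL_cons]
  rfl

/-- `LD` of a word: if all intermediate points stay in `[s,t]`, where `|LD (q i)| ≤ ε`. -/
theorem LD_evL_le {q : Q4} (hq : InDd q) {s t ε x : ℝ} (L : List (Fin 4 × Bool))
    (hL : ∀ i y, s ≤ y → y ≤ t → |LD (q i) y| ≤ ε)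
    (hx : ∀ L', L' <:+ L → s ≤ evL q L' x ∧ evL q L' x ≤ t) :
    |LD (evL q L) x| ≤ L.length * ε := by
  induction L with
  | nil =>
    rw [evL_nil, LD_one]
    simp
  | cons p L ih =>
    have h1 := ih fun L' hL' => hx L' (hL'.trans (List.suffix_cons p L))
    rw [evL_cons, LD_mul (N3_lt1_mem hq p) (N3_evL_mem hq L)]
    have h2 : |LD (lt1 q p) (evL q L x)| ≤ ε := by
      have h3 := hx L (List.suffix_cons p L)
      have h4 := hx (p :: L) List.suffix_rfl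
      rw [N3_evL_apply] at h4
      rcases p with ⟨i, b⟩
      cases b
      · have e : lt1 q (i, false) = (q i)⁻¹ := rfl
        rw [e] at h4 ⊢
        rw [LD_inv (hq i), abs_neg]
        exact hL i _ h4.1 h4.2
      · exact hL i _ h3.1 h3.2
    refine (abs_add_le _ _).trans ?_
    rw [List.length_cons]
    push_cast
    linarith

/-- Comparison of the words of two quadruples. -/
theorem N3_evL_eq {P Q : Q4} {S : Set ℝ} (hPQ : ∀ i, ∀ y ∈ S, Q i y = P i y) {x : ℝ}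
    (L : List (Fin 4 × Bool)) (hx : ∀ L', L' <:+ L → evL P L' x ∈ S) :
    evL Q L x = evL P L x := by
  induction L with
  | nil => rfl
  | cons p L ih =>
    have h1 := ih fun L' hL' => hx L' (hL'.trans (List.suffix_cons p L))
    have h3 := hx L (List.suffix_cons p L)
    have h4 := hx (p :: L) List.suffix_rfl
    rw [N3_evL_apply] at h4
    rw [N3_evL_apply, N3_evL_apply, h1]
    rcases p with ⟨i, b⟩
    cases b
    · have e : lt1 P (i, false) = (P i)⁻¹ := rfl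
      have e' : lt1 Q (i, false) = (Q i)⁻¹ := rfl
      rw [e] at h4 ⊢
      rw [e']
      have h5 := hPQ i _ h4
      have h6 : P i ((P i)⁻¹ (evL P L x)) = evL P L x := (P i).apply_symm_apply _
      rw [h6] at h5
      have h7 : (Q i)⁻¹ (Q i ((P i)⁻¹ (evL P L x))) = (P i)⁻¹ (evL P L x) :=
        (Q i).symm_apply_apply _
      rw [h5] at h7
      exact h7
    · exact hPQ i _ h3

/-- Pulling back a modification of the relabeled quadruple `app σ q` by the inverse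
relabeling `τ`. -/
theorem relabel_N {σ τ : Fin 4 → FreeGroup (Fin 4)} (hτσ : ∀ q, app τ (app σ q) = q)
    (hστ : ∀ q, app σ (app τ q) = q) (hw : ∀ q, wrd (app σ q) = wrd q) {n : ℕ}
    (hn : ∀ i, (τ i).toWord.length ≤ n) {q Q : Q4} (hq : InDd q) (hQ : InDd Q)
    {s s₁ x₁ z₁ z₂ x₂ t₁ t ε ε₁ : ℝ} (hs : s ≤ s₁) (ht : t₁ ≤ t) (hx : x₁ < x₂) (hε : 0 < ε)
    (hε₁ : n * ε₁ ≤ ε) (hε₀ : 0 ≤ ε₁)
    (hQeq : ∀ i x, x ≤ z₁ ∨ z₂ ≤ x → Q i x = app σ q i x)
    (hQL : ∀ i x, s₁ ≤ x → x ≤ t₁ → |LD (Q i) x| ≤ ε₁) (hQw : wrd Q = wrd (app σ q))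
    (hQF : ∀ x, s₁ ≤ x → x ≤ t₁ → ¬ Fx Q x)
    (h1 : ∀ i L, L <:+ (τ i).toWord → s₁ ≤ evL (app σ q) L x₁ ∧ evL (app σ q) L x₁ ≤ z₁)
    (h2 : ∀ i L, L <:+ (τ i).toWord → z₂ ≤ evL (app σ q) L x₂ ∧ evL (app σ q) L x₂ ≤ t₁)
    (hL : ∀ i x, s ≤ x → x ≤ t → |LD (q i) x| ≤ ε)
    (hF : ∀ x, (s ≤ x ∧ x ≤ s₁) ∨ (t₁ ≤ x ∧ x ≤ t) → ¬ Fx q x) :
    ∃ q' : Q4, InDd q' ∧ (∀ i x, x ≤ x₁ ∨ x₂ ≤ x → q' i x = q i x) ∧
      (∀ i x, s ≤ x → x ≤ t → |LD (q' i) x| ≤ ε) ∧ wrd q' = wrd q ∧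
      ∀ x, s ≤ x → x ≤ t → ¬ Fx q' x := by
  set P := app σ q with hP
  -- the words agree
  have key : ∀ i L x, L <:+ (τ i).toWord → (x ≤ x₁ ∨ x₂ ≤ x) → evL Q L x = evL P L x := by
    intro i L x hLs hxx
    refine N3_evL_eq (S := {y | y ≤ z₁ ∨ z₂ ≤ y}) (fun j y hy => hQeq j y hy) L ?_
    intro L' hL'
    rcases hxx with hxx | hxx
    · left
      exact ((evL P L').monotone hxx).trans (h1 i L' (hL'.trans hLs)).2
    · right
      exact (h2 i L' (hL'.trans hLs)).1.trans ((evL P L').monotone hxx)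
  have hq' : ∀ i x, x ≤ x₁ ∨ x₂ ≤ x → app τ Q i x = q i x := by
    intro i x hxx
    have e1 : app τ Q i = evL Q (τ i).toWord := ev_eq_evL Q (τ i)
    have e2 : app τ P i = evL P (τ i).toWord := ev_eq_evL P (τ i)
    rw [e1, key i _ x List.suffix_rfl hxx, ← e2, hP, hτσ]
  have hsx : s₁ ≤ x₁ := (h1 0 [] (List.nil_suffix)).1
  have hxt : x₂ ≤ t₁ := (h2 0 [] (List.nil_suffix)).2
  refine ⟨app τ Q, app_mem hQ τ, hq', ?_, ?_, ?_⟩
  · intro i x hsx' hxt'
    by_cases c1 : x < x₁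
    · rw [LD_congr isOpen_Iio (fun y hy => hq' i y (Or.inl (le_of_lt hy))) c1]
      exact hL i x hsx' hxt'
    by_cases c2 : x₂ < x
    · rw [LD_congr isOpen_Ioi (fun y hy => hq' i y (Or.inr (le_of_lt hy))) c2]
      exact hL i x hsx' hxt'
    rw [not_lt] at c1 c2
    have e1 : app τ Q i = evL Q (τ i).toWord := ev_eq_evL Q (τ i)
    rw [e1]
    refine (LD_evL_le hQ (τ i).toWord hQL ?_).trans ?_
    · intro L' hL'
      constructor
      · refine le_trans ?_ ((evL Q L').monotone c1)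
        rw [key i L' x₁ hL' (Or.inl le_rfl)]
        exact (h1 i L' hL').1
      · refine le_trans ((evL Q L').monotone c2) ?_
        rw [key i L' x₂ hL' (Or.inr le_rfl)]
        exact (h2 i L' hL').2
    · refine le_trans (mul_le_mul_of_nonneg_right ?_ hε₀) hε₁
      exact_mod_cast hn i
  · rw [← hw (app τ Q), hστ, hQw, hP, hw]
  · intro x hsx' hxt' hfx
    by_cases c1 : x ≤ s₁
    · refine hF x (Or.inl ⟨hsx', c1⟩) fun i => ?_
      rw [← hq' i x (Or.inl (c1.trans hsx))]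
      exact hfx i
    by_cases c2 : t₁ ≤ x
    · refine hF x (Or.inr ⟨c2, hxt'⟩) fun i => ?_
      rw [← hq' i x (Or.inr (hxt.trans c2))]
      exact hfx i
    rw [not_le] at c1 c2
    have h3 := app_fix hfx σ
    rw [hστ] at h3
    exact hQF x c1.le c2.le h3

end Pool.Agent.helper32.FolG
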