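import Pool.Agent.helper32.FolG.N0
import Pool.Agent.helper32.FolG.N2
import Pool.Agent.helper32.FolG.N3

/-!
# FOL, G-N4: Lemma N from Lemma N'
-/

open Set Filter Topology
open scoped commutatorElement

namespace Pool.Agent.helper32.FolG

open Pool.Agent.helper35.FOL

/-- The composite relabeling. -/
noncomputable def sg (k l j : ℕ) : Fin 4 → FreeGroup (Fin 4) := fun i =>
  FreeGroup.lift (fun i' => FreeGroup.lift (sA1 k) (sB2 l i')) (sM j i)

/-- The inverse of the composite relabeling. -/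
noncomputable def ta (k l j : ℕ) : Fin 4 → FreeGroup (Fin 4) := fun i =>
  FreeGroup.lift (fun i' => FreeGroup.lift (sM (-j)) (sB2 (-l) i')) (sA1 (-k) i)

theorem app_sg (k l j : ℕ) (q : Q4) :
    app (sg k l j) q = app (sM j) (app (sB2 l) (app (sA1 k) q)) := by
  rw [app_app (sB2 l) (sA1 k), app_app]
  rfl

theorem app_ta (k l j : ℕ) (q : Q4) :
    app (ta k l j) q = app (sA1 (-k)) (app (sB2 (-l)) (app (sM (-j)) q)) := by
  rw [app_app (sB2 (-l)) (sM (-j)), app_app]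
  rfl

theorem ta_sg (k l j : ℕ) (q : Q4) : app (ta k l j) (app (sg k l j) q) = q := by
  rw [app_ta, app_sg, A3_sM _ j (-j) (by ring), A3_sB2 _ l (-l) (by ring),
    A3_sA1 _ k (-k) (by ring)]

theorem sg_ta (k l j : ℕ) (q : Q4) : app (sg k l j) (app (ta k l j) q) = q := by
  rw [app_ta, app_sg, A3_sA1 _ (-k) k (by ring), A3_sB2 _ (-l) l (by ring),
    A3_sM _ (-j) j (by ring)]

theorem wrd_sg (k l j : ℕ) (q : Q4) : wrd (app (sg k l j) q) = wrd q := by
  have h1 : ∀ (q : Q4) (k : ℤ), wrd (app (sA1 k) q) = wrd q := by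
    intro q k
    rw [app_sA1]
    show ⁅q 0 * q 1 ^ k, q 1⁆ * ⁅q 2, q 3⁆ = ⁅q 0, q 1⁆ * ⁅q 2, q 3⁆
    rw [commutatorElement_def, commutatorElement_def]
    group
  have h2 : ∀ (q : Q4) (k : ℤ), wrd (app (sB2 k) q) = wrd q := by
    intro q k
    rw [app_sB2]
    show ⁅q 0, q 1⁆ * ⁅q 2, q 3 * q 2 ^ k⁆ = ⁅q 0, q 1⁆ * ⁅q 2, q 3⁆
    rw [commutatorElement_def (q 2), commutatorElement_def (q 2)]
    group
  have h3 : ∀ (q : Q4) (k : ℤ), wrd (app (sM k) q) = wrd q := by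
    intro q k
    rw [app_sM]
    exact A3_wM (q 0) (q 1) (q 2) (q 3) _ k rfl
  rw [app_sg, h3, h2, h1]

theorem lin_sg0 (k l j : ℕ) (d : Fin 4 → ℝ) :
    linL d (sg k l j 0).toWord = newd k l j d := by
  rw [← lin1_eq]
  simp [sg, sM, sB2, sA1, cc, lin1, newd, X]
  ring

/-- All the words involved have bounded length. -/
theorem exists_len : ∃ n : ℕ, ∀ k l j : ℕ, k < 3 → l < 3 → j < 3 → ∀ i,
    (sg k l j i).toWord.length ≤ n ∧ (ta k l j i).toWord.length ≤ n := by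
  refine ⟨∑ k ∈ Finset.range 3, ∑ l ∈ Finset.range 3, ∑ j ∈ Finset.range 3, ∑ i : Fin 4,
    ((sg k l j i).toWord.length + (ta k l j i).toWord.length), ?_⟩
  intro k l j hk hl hj i
  have h1 : (sg k l j i).toWord.length + (ta k l j i).toWord.length ≤
      ∑ k ∈ Finset.range 3, ∑ l ∈ Finset.range 3, ∑ j ∈ Finset.range 3, ∑ i : Fin 4,
        ((sg k l j i).toWord.length + (ta k l j i).toWord.length) := by
    refine le_trans ?_ (Finset.single_le_sum (f := fun k => ∑ l ∈ Finset.range 3,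
      ∑ j ∈ Finset.range 3, ∑ i : Fin 4,
        ((sg k l j i).toWord.length + (ta k l j i).toWord.length)) (fun _ _ => Nat.zero_le _)
      (Finset.mem_range.2 hk))
    refine le_trans ?_ (Finset.single_le_sum (f := fun l => ∑ j ∈ Finset.range 3, ∑ i : Fin 4,
        ((sg k l j i).toWord.length + (ta k l j i).toWord.length)) (fun _ _ => Nat.zero_le _)
      (Finset.mem_range.2 hl))
    refine le_trans ?_ (Finset.single_le_sum (f := fun j => ∑ i : Fin 4,
        ((sg k l j i).toWord.length + (ta k l j i).toWord.length)) (fun _ _ => Nat.zero_le _)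
      (Finset.mem_range.2 hj))
    exact Finset.single_le_sum (f := fun i =>
        ((sg k l j i).toWord.length + (ta k l j i).toWord.length)) (fun _ _ => Nat.zero_le _)
      (Finset.mem_univ i)
  omega

/-- The relabeled displacements at a base point. -/
theorem base_point {n k l j : ℕ} (hlen : ∀ i, (sg k l j i).toWord.length ≤ n) {q : Q4}
    (hq : InDd q) {a b p D η : ℝ} (hD : 0 < D) (hη : 0 ≤ η) (hη1 : 64000 * (n + 1) ^ 2 * η ≤ 1)
    (hL : ∀ i x, a ≤ x → x ≤ b → |LD (q i) x| ≤ η) (hd : ∀ i, |q i p - p| ≤ 2 * D)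
    (hd0 : ∃ i, D / 2 ≤ |q i p - p|) (ha : a ≤ p - 4 * (n + 1) * D)
    (hb : p + 4 * (n + 1) * D ≤ b)
    (hch : ∀ i, |q i p - p| ≤ 1000 * |newd k l j (fun i => q i p - p)|) :
    (∀ i, |app (sg k l j) q i p - p| ≤ 4 * n * D) ∧ D / 4000 ≤ |app (sg k l j) q 0 p - p| ∧
      ∀ L, L.length ≤ n → |evL q L p - p| ≤ 4 * n * D := by
  have hn0 : (0 : ℝ) ≤ n := Nat.cast_nonneg n
  have hW := fun (L : List (Fin 4 × Bool)) (hLn : L.length ≤ n) =>
    word_disp hq (a := a) (b := b) (x₀ := p) (D := 2 * D) (η := η) (n := n) (by linarith) hη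
      (by nlinarith) hL hd (by linarith) (by linarith) L hLn
  have hW1 : ∀ L, L.length ≤ n → |evL q L p - p| ≤ 4 * n * D := by
    intro L hLn
    refine (hW L hLn).1.trans ?_
    have : (L.length : ℝ) ≤ n := by exact_mod_cast hLn
    nlinarith
  refine ⟨fun i => ?_, ?_, hW1⟩
  · have e : app (sg k l j) q i = evL q (sg k l j i).toWord := ev_eq_evL q _
    rw [e]
    exact hW1 _ (hlen i)
  · have e : app (sg k l j) q 0 = evL q (sg k l j 0).toWord := ev_eq_evL q _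
    rw [e]
    have h2 := (hW _ (hlen 0)).2
    rw [lin_sg0] at h2
    obtain ⟨i, hi⟩ := hd0
    have h3 := hch i
    have h4 : ((sg k l j 0).toWord.length : ℝ) ≤ n := by exact_mod_cast hlen 0
    have h5 : 8 * ((n : ℝ) + 1) * (sg k l j 0).toWord.length * η * (2 * D) ≤ D / 4000 := by
      have h6 : 8 * ((n : ℝ) + 1) * (sg k l j 0).toWord.length * η * (2 * D) ≤
          8 * ((n : ℝ) + 1) * (n + 1) * η * (2 * D) := by
        have : ((sg k l j 0).toWord.length : ℝ) ≤ n + 1 := by linarith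
        gcongr
      have h7 : 8 * ((n : ℝ) + 1) * (n + 1) * η * (2 * D) =
          (64000 * (n + 1) ^ 2 * η) * (D / 4000) := by ring
      rw [h7] at h6
      refine h6.trans ?_
      have : 0 < D / 4000 := by positivity
      nlinarith
    set A := evL q (sg k l j 0).toWord p - p with hA
    set B := newd k l j (fun i => q i p - p) with hB
    have h8 : |B| ≤ |A| + |A - B| := by
      calc |B| = |A - (A - B)| := by congr 1; ring
        _ ≤ |A| + |A - B| := abs_sub _ _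
    linarith

/-- **Lemma N** from Lemma N'. -/
theorem LemN_of_LemN' (hN' : LemN') : LemN := by
  intro ε hε
  obtain ⟨n, hlen⟩ := exists_len
  have hn0 : (0 : ℝ) ≤ n := Nat.cast_nonneg n
  -- constants
  set K : ℝ := 4 * (n + 1) with hK
  set R₀ : ℝ := 16 * (n + 1) ^ 2 with hR₀
  have hK0 : 4 ≤ K := by rw [hK]; linarith
  have hR0 : 16 ≤ R₀ := by rw [hR₀]; nlinarith
  obtain ⟨η', hη', hmain⟩ := hN' (1 / (16000 * (n + 1))) (by positivity) (8000 * R₀)
    (by positivity) (ε / (n + 1)) (by positivity)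
  set κ : ℝ := 1 / (16 * (K + R₀)) with hκ
  have hκ0 : 0 < κ := by positivity
  obtain ⟨η, hη, hη1, hη2, hη3, hη4, hη5⟩ : ∃ η : ℝ, 0 < η ∧ η ≤ ε ∧
      64000 * (n + 1) ^ 3 * η ≤ 1 ∧ (n + 1) * η ≤ η' ∧ 2 * η ≤ κ / 2 ∧ R₀ * η ≤ 1 := by
    refine ⟨min ε (min (1 / (64000 * (n + 1) ^ 3)) (min (η' / (n + 1)) (min (κ / 4) (1 / R₀)))),
      by positivity, min_le_left _ _, ?_, ?_, ?_, ?_⟩
    · calc _ ≤ 64000 * ((n : ℝ) + 1) ^ 3 * (1 / (64000 * (n + 1) ^ 3)) := by
            gcongr; exact (min_le_right _ _).trans (min_le_left _ _)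
        _ = 1 := by field_simp
    · calc _ ≤ ((n : ℝ) + 1) * (η' / (n + 1)) := by
            gcongr
            exact (min_le_right _ _).trans ((min_le_right _ _).trans (min_le_left _ _))
        _ = η' := by field_simp
    · calc _ ≤ 2 * (κ / 4) := by
            gcongr
            exact (min_le_right _ _).trans ((min_le_right _ _).trans ((min_le_right _ _).trans
              (min_le_left _ _)))
        _ = κ / 2 := by ring
    · calc _ ≤ R₀ * (1 / R₀) := by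
            gcongr
            exact (min_le_right _ _).trans ((min_le_right _ _).trans ((min_le_right _ _).trans
              (min_le_right _ _)))
        _ = 1 := by field_simp
  refine ⟨η, hη, ?_⟩
  intro q hq s t hst hs ht hL
  have h3 : (1 : ℝ) ≤ ((n : ℝ) + 1) ^ 3 := one_le_pow₀ (by linarith)
  have hηle : η ≤ 1 := by nlinarith
  -- maximal displacements at the ends
  have hmax : ∀ p, ∃ i, ∀ i', |q i' p - p| ≤ |q i p - p| := by
    intro p
    obtain ⟨i, hi⟩ := Finite.exists_max (fun i => |q i p - p|)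
    exact ⟨i, hi⟩
  obtain ⟨i₁, hi₁⟩ := hmax s
  obtain ⟨i₂, hi₂⟩ := hmax t
  set Ds := |q i₁ s - s| with hDs
  set Dt := |q i₂ t - t| with hDt
  have hDs0 : 0 < Ds := by
    by_contra hc
    push Not at hc
    apply hs
    intro i
    have := abs_nonpos_iff.1 ((hi₁ i).trans hc)
    linarith
  have hDt0 : 0 < Dt := by
    by_contra hc
    push Not at hc
    apply ht
    intro i
    have := abs_nonpos_iff.1 ((hi₂ i).trans hc)
    linarith
  have hgr : ∀ i x y, s ≤ x → x ≤ t → s ≤ y → y ≤ t →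
      |(q i x - x) - (q i y - y)| ≤ 2 * η * |x - y| := fun i x y h1 h2 h3 h4 =>
    disp_growth (hq i) hη.le hηle (hL i) h1 h2 h3 h4
  -- nothing to do if a displacement is large
  have hbig : ∀ p i, s ≤ p → p ≤ t → κ * (t - s) < |q i p - p| → ∀ x, s ≤ x → x ≤ t →
      ¬ Fx q x := by
    intro p i hp1 hp2 hbig x hx1 hx2 hF
    have h1 := hgr i x p hx1 hx2 hp1 hp2
    rw [hF i] at h1
    have h2 : |x - p| ≤ t - s := abs_le.2 ⟨by linarith, by linarith⟩
    have h3 : |q i p - p| ≤ 2 * η * |x - p| := by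
      calc |q i p - p| = |(x - x) - (q i p - p)| := by rw [sub_self, zero_sub, abs_neg]
        _ ≤ _ := h1
    have h4 : 2 * η * |x - p| ≤ κ * (t - s) := by
      calc 2 * η * |x - p| ≤ (κ / 2) * (t - s) := by
            apply mul_le_mul hη4 h2 (abs_nonneg _) (by positivity)
        _ ≤ κ * (t - s) := by nlinarith
    linarith
  by_cases hcase : κ * (t - s) < Ds ∨ κ * (t - s) < Dt
  · have hno : ∀ x, s ≤ x → x ≤ t → ¬ Fx q x := by
      rcases hcase with h | h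
      · exact hbig s i₁ le_rfl hst.le h
      · exact hbig t i₂ hst.le le_rfl h
    exact ⟨q, hq, fun _ _ _ => rfl, fun i x h1 h2 => (hL i x h1 h2).trans hη1, rfl, hno⟩
  push Not at hcase
  obtain ⟨hcs, hct⟩ := hcase
  have hκe : κ * (16 * (K + R₀)) = 1 := by rw [hκ]; field_simp
  have hKRs : (K + R₀) * Ds ≤ (t - s) / 16 := by
    calc (K + R₀) * Ds ≤ (K + R₀) * (κ * (t - s)) := by gcongr
      _ = (κ * (16 * (K + R₀))) * ((t - s) / 16) := by ring
      _ = (t - s) / 16 := by rw [hκe, one_mul]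
  have hKRt : (K + R₀) * Dt ≤ (t - s) / 16 := by
    calc (K + R₀) * Dt ≤ (K + R₀) * (κ * (t - s)) := by gcongr
      _ = (κ * (16 * (K + R₀))) * ((t - s) / 16) := by ring
      _ = (t - s) / 16 := by rw [hκe, one_mul]
  have hts : 0 < t - s := by linarith
  have hKs : 0 < K * Ds := by positivity
  have hRs : 0 < R₀ * Ds := by positivity
  have hKt : 0 < K * Dt := by positivity
  have hRt : 0 < R₀ * Dt := by positivity
  set s₁ := s + K * Ds with hs₁
  set t₁ := t - K * Dt with ht₁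
  have hηK : 2 * η * K ≤ 1 / 2 := by
    have h1 : K ≤ R₀ := by rw [hK, hR₀]; nlinarith
    have h2 : 4 * (2 * η) ≤ 1 := by
      have : κ ≤ 1 / 16 := by nlinarith
      linarith
    have h3 : 2 * η * (K + R₀) ≤ 1 / 32 := by
      calc 2 * η * (K + R₀) ≤ κ / 2 * (K + R₀) := by gcongr
        _ = (κ * (16 * (K + R₀))) / 32 := by ring
        _ = 1 / 32 := by rw [hκe]
    nlinarith
  -- displacements at `s₁` and `t₁`
  have hds : ∀ i, |(q i s₁ - s₁) - (q i s - s)| ≤ Ds / 2 := by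
    intro i
    refine (hgr i s₁ s (by linarith) (by linarith) le_rfl hst.le).trans ?_
    rw [hs₁, add_sub_cancel_left, abs_of_pos hKs]
    nlinarith
  have hdt : ∀ i, |(q i t₁ - t₁) - (q i t - t)| ≤ Dt / 2 := by
    intro i
    refine (hgr i t₁ t (by linarith) (by linarith) hst.le le_rfl).trans ?_
    rw [ht₁, sub_sub_cancel_left, abs_neg, abs_of_pos hKt]
    nlinarith
  have up : ∀ {A B C : ℝ}, |A - B| ≤ C / 2 → |B| ≤ C → |A| ≤ 2 * C := by
    intro A B C h1 h2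
    have h3 : |A| ≤ |A - B| + |B| := by
      calc |A| = |(A - B) + B| := by congr 1; ring
        _ ≤ _ := abs_add_le _ _
    have := abs_nonneg B
    linarith
  have low : ∀ {A B C : ℝ}, |A - B| ≤ C / 2 → |B| = C → C / 2 ≤ |A| := by
    intro A B C h1 h2
    have h3 : |B| ≤ |A| + |A - B| := by
      calc |B| = |A - (A - B)| := by congr 1; ring
        _ ≤ _ := abs_sub _ _
    linarith
  obtain ⟨k, l, j, hk, hl, hj, hcd, hce⟩ := choice (fun i => q i s₁ - s₁) (fun i => q i t₁ - t₁)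
  have hlen1 : ∀ i, (sg k l j i).toWord.length ≤ n := fun i => (hlen k l j hk hl hj i).1
  have hlen2 : ∀ i, (ta k l j i).toWord.length ≤ n := fun i => (hlen k l j hk hl hj i).2
  have hη64 : 64000 * ((n : ℝ) + 1) ^ 2 * η ≤ 1 := by
    refine le_trans ?_ hη2
    have : ((n : ℝ) + 1) ^ 2 ≤ (n + 1) ^ 3 := pow_le_pow_right₀ (by linarith) (by norm_num)
    gcongr
  obtain ⟨bs1, bs2, bs3⟩ := base_point hlen1 hq (a := s) (b := t) (p := s₁) (D := Ds) (η := η) hDs0
    hη.le hη64 hL (fun i => up (hds i) (hi₁ i)) ⟨i₁, low (hds i₁) rfl⟩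
    (by rw [hs₁, hK]; linarith) (by rw [← hK]; linarith) hcd
  obtain ⟨bt1, bt2, bt3⟩ := base_point hlen1 hq (a := s) (b := t) (p := t₁) (D := Dt) (η := η) hDt0
    hη.le hη64 hL (fun i => up (hdt i) (hi₂ i)) ⟨i₂, low (hdt i₂) rfl⟩
    (by rw [← hK]; linarith) (by rw [ht₁, hK]; linarith) hce
  set q₁ := app (sg k l j) q with hq₁
  have hq₁m : InDd q₁ := app_mem hq _
  have hnKs : 4 * n * Ds ≤ K * Ds := by rw [hK]; nlinarith
  have hnKt : 4 * n * Dt ≤ K * Dt := by rw [hK]; nlinarith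
  -- `LD` of the relabeled maps on `[s₁,t₁]`
  have hL₁ : ∀ i x, s₁ ≤ x → x ≤ t₁ → |LD (q₁ i) x| ≤ (n + 1) * η := by
    intro i x hx1 hx2
    have e : q₁ i = evL q (sg k l j i).toWord := ev_eq_evL q _
    rw [e]
    have hlr : ((sg k l j i).toWord.length : ℝ) ≤ n + 1 := by
      have : ((sg k l j i).toWord.length : ℝ) ≤ n := by exact_mod_cast hlen1 i
      linarith
    refine (LD_evL_le hq (s := s) (t := t) (ε := η) _ hL ?_).trans (by gcongr)
    intro L' hL'
    have hl' : L'.length ≤ n := hL'.length_le.trans (hlen1 i)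
    constructor
    · have h1 := (abs_le.1 (bs3 L' hl')).1
      have h2 : evL q L' s₁ ≤ evL q L' x := (evL q L').monotone hx1
      linarith
    · have h1 := (abs_le.1 (bt3 L' hl')).2
      have h2 : evL q L' x ≤ evL q L' t₁ := (evL q L').monotone hx2
      linarith
  -- comparability
  have hcomp : ∀ {A B D : ℝ}, 0 < D → |A| ≤ 4 * n * D → D / 4000 ≤ |B| →
      1 / (16000 * (n + 1)) * |A| ≤ |B| := by
    intro A B D hD h1 h2
    refine le_trans ?_ h2
    calc 1 / (16000 * ((n : ℝ) + 1)) * |A| ≤ 1 / (16000 * (n + 1)) * (4 * (n + 1) * D) := by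
          gcongr; nlinarith
      _ = D / 4000 := by field_simp; ring
  have hs₁t₁ : s₁ < t₁ := by rw [hs₁, ht₁]; linarith
  obtain ⟨Q, hQ, hQeq, hQL, hQw, hQF⟩ := hmain q₁ hq₁m s₁ t₁ hs₁t₁
    (lt_of_lt_of_le (by positivity) bs2) (lt_of_lt_of_le (by positivity) bt2)
    (fun i => hcomp hDs0 (bs1 i) bs2) (fun i => hcomp hDt0 (bt1 i) bt2)
    (fun i x h1 h2 => (hL₁ i x h1 h2).trans hη3)
  have hMs : 2 * R₀ * Ds ≤ 8000 * R₀ * |q₁ 0 s₁ - s₁| := by
    calc 2 * R₀ * Ds = 8000 * R₀ * (Ds / 4000) := by ring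
      _ ≤ _ := by gcongr
  have hMt : 2 * R₀ * Dt ≤ 8000 * R₀ * |q₁ 0 t₁ - t₁| := by
    calc 2 * R₀ * Dt = 8000 * R₀ * (Dt / 4000) := by ring
      _ ≤ _ := by gcongr
  set x₁ := s₁ + R₀ * Ds with hx₁
  set x₂ := t₁ - R₀ * Dt with hx₂
  have hx₁₂ : x₁ < x₂ := by rw [hx₁, hx₂, hs₁, ht₁]; linarith
  have hηn1 : (n + 1) * η ≤ 1 := by
    refine le_trans ?_ hη2
    have : ((n : ℝ) + 1) ≤ 64000 * (n + 1) ^ 3 := by
      have h5 : ((n : ℝ) + 1) ^ 1 ≤ (n + 1) ^ 3 :=
        pow_le_pow_right₀ (by linarith) (by norm_num)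
      rw [pow_one] at h5
      linarith
    gcongr
  -- displacements of the relabeled maps at `x₁`, `x₂`
  have hgr₁ : ∀ i x y, s₁ ≤ x → x ≤ t₁ → s₁ ≤ y → y ≤ t₁ →
      |(q₁ i x - x) - (q₁ i y - y)| ≤ 2 * ((n + 1) * η) * |x - y| := fun i x y h1 h2 h3 h4 =>
    disp_growth (hq₁m i) (by positivity) hηn1 (hL₁ i) h1 h2 h3 h4
  have hdx : ∀ i, |q₁ i x₁ - x₁| ≤ 8 * (n + 1) * Ds := by
    intro i
    have h1 := hgr₁ i x₁ s₁ (by linarith) (by linarith) le_rfl hs₁t₁.le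
    rw [hx₁, add_sub_cancel_left, abs_of_pos hRs, ← hx₁] at h1
    have h2 : 2 * ((n + 1) * η) * (R₀ * Ds) ≤ 2 * (n + 1) * Ds := by
      calc 2 * (((n : ℝ) + 1) * η) * (R₀ * Ds) = 2 * (n + 1) * (R₀ * η) * Ds := by ring
        _ ≤ 2 * (n + 1) * 1 * Ds := by gcongr
        _ = _ := by ring
    have h3 : |q₁ i x₁ - x₁| ≤ |(q₁ i x₁ - x₁) - (q₁ i s₁ - s₁)| + |q₁ i s₁ - s₁| := by
      calc |q₁ i x₁ - x₁| = |((q₁ i x₁ - x₁) - (q₁ i s₁ - s₁)) + (q₁ i s₁ - s₁)| := by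
            congr 1; ring
        _ ≤ _ := abs_add_le _ _
    have h4 := bs1 i
    nlinarith
  have hdx2 : ∀ i, |q₁ i x₂ - x₂| ≤ 8 * (n + 1) * Dt := by
    intro i
    have h1 := hgr₁ i x₂ t₁ (by linarith) (by linarith) hs₁t₁.le le_rfl
    rw [hx₂, sub_sub_cancel_left, abs_neg, abs_of_pos hRt, ← hx₂] at h1
    have h2 : 2 * ((n + 1) * η) * (R₀ * Dt) ≤ 2 * (n + 1) * Dt := by
      calc 2 * (((n : ℝ) + 1) * η) * (R₀ * Dt) = 2 * (n + 1) * (R₀ * η) * Dt := by ring
        _ ≤ 2 * (n + 1) * 1 * Dt := by gcongr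
        _ = _ := by ring
    have h3 : |q₁ i x₂ - x₂| ≤ |(q₁ i x₂ - x₂) - (q₁ i t₁ - t₁)| + |q₁ i t₁ - t₁| := by
      calc |q₁ i x₂ - x₂| = |((q₁ i x₂ - x₂) - (q₁ i t₁ - t₁)) + (q₁ i t₁ - t₁)| := by
            congr 1; ring
        _ ≤ _ := abs_add_le _ _
    have h4 := bt1 i
    nlinarith
  have hη16 : 16 * ((n : ℝ) + 1) * ((n + 1) * η) ≤ 1 := by
    refine le_trans ?_ hη64
    have : 0 ≤ ((n : ℝ) + 1) ^ 2 * η := by positivity
    nlinarith
  have hR2 : 2 * ((n : ℝ) + 1) * (8 * (n + 1) * Ds) = R₀ * Ds := by rw [hR₀]; ring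
  have hR2t : 2 * ((n : ℝ) + 1) * (8 * (n + 1) * Dt) = R₀ * Dt := by rw [hR₀]; ring
  have hwx : ∀ L : List (Fin 4 × Bool), L.length ≤ n → |evL q₁ L x₁ - x₁| ≤ R₀ * Ds := by
    intro L hLn
    have h1 := (word_disp hq₁m (a := s₁) (b := t₁) (x₀ := x₁) (D := 8 * (n + 1) * Ds)
      (η := (n + 1) * η) (n := n) (by positivity) (by positivity) hη16 hL₁ hdx
      (by rw [hR2]; linarith) (by rw [hR2]; linarith) L hLn).1
    refine h1.trans ?_
    rw [← hR2]
    have : (L.length : ℝ) ≤ n + 1 := by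
      have : (L.length : ℝ) ≤ n := by exact_mod_cast hLn
      linarith
    gcongr
  have hwx2 : ∀ L : List (Fin 4 × Bool), L.length ≤ n → |evL q₁ L x₂ - x₂| ≤ R₀ * Dt := by
    intro L hLn
    have h1 := (word_disp hq₁m (a := s₁) (b := t₁) (x₀ := x₂) (D := 8 * (n + 1) * Dt)
      (η := (n + 1) * η) (n := n) (by positivity) (by positivity) hη16 hL₁ hdx2
      (by rw [hR2t]; linarith) (by rw [hR2t]; linarith) L hLn).1
    refine h1.trans ?_
    rw [← hR2t]
    have : (L.length : ℝ) ≤ n + 1 := by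
      have : (L.length : ℝ) ≤ n := by exact_mod_cast hLn
      linarith
    gcongr
  have e1 : ∀ i L, L <:+ (ta k l j i).toWord → s₁ ≤ evL q₁ L x₁ ∧
      evL q₁ L x₁ ≤ s₁ + 8000 * R₀ * |q₁ 0 s₁ - s₁| := by
    intro i L hLs
    have h1 := abs_le.1 (hwx L (hLs.length_le.trans (hlen2 i)))
    constructor
    · linarith [h1.1]
    · linarith [h1.2]
  have e2 : ∀ i L, L <:+ (ta k l j i).toWord → t₁ - 8000 * R₀ * |q₁ 0 t₁ - t₁| ≤ evL q₁ L x₂ ∧
      evL q₁ L x₂ ≤ t₁ := by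
    intro i L hLs
    have h1 := abs_le.1 (hwx2 L (hLs.length_le.trans (hlen2 i)))
    constructor
    · linarith [h1.1]
    · linarith [h1.2]
  have e3 : ∀ x, (s ≤ x ∧ x ≤ s₁) ∨ (t₁ ≤ x ∧ x ≤ t) → ¬ Fx q x := by
    rintro x (⟨hx1, hx2⟩ | ⟨hx1, hx2⟩) hF
    · have h1 := hgr i₁ x s hx1 (by linarith) le_rfl hst.le
      rw [hF i₁, sub_self, zero_sub, abs_neg, ← hDs, abs_of_nonneg (by linarith)] at h1
      nlinarith
    · have h1 := hgr i₂ x t (by linarith) hx2 hst.le le_rfl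
      rw [hF i₂, sub_self, zero_sub, abs_neg, ← hDt, abs_of_nonpos (by linarith)] at h1
      nlinarith
  have e4 : (n : ℝ) * (ε / (n + 1)) ≤ ε := by
    rw [mul_div_assoc', div_le_iff₀ (by linarith)]
    nlinarith
  obtain ⟨q', hq', hq'eq, hq'L, hq'w, hq'F⟩ := relabel_N (σ := sg k l j) (τ := ta k l j)
    (ta_sg k l j) (sg_ta k l j) (wrd_sg k l j) (n := n) hlen2 hq hQ (s := s) (s₁ := s₁) (x₁ := x₁)
    (z₁ := s₁ + 8000 * R₀ * |q₁ 0 s₁ - s₁|) (z₂ := t₁ - 8000 * R₀ * |q₁ 0 t₁ - t₁|) (x₂ := x₂)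
    (t₁ := t₁) (t := t) (ε := ε) (ε₁ := ε / (n + 1)) (by linarith) (by linarith) hx₁₂ hε
    e4 (by positivity) hQeq hQL hQw hQF e1 e2 (fun i x h1 h2 => (hL i x h1 h2).trans hη1) e3
  exact ⟨q', hq', fun i x hx => hq'eq i x (hx.imp (fun h => by linarith) (fun h => by linarith)),
      hq'L, hq'w, hq'F⟩

end Pool.Agent.helper32.FolG
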