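import Pool.Agent.helper32.FolG.Base

/-!
# FOL, group level: elementary bounds from the logarithm of the derivative
-/

open Set Filter Topology

namespace Pool.Agent.helper32.FolG

open Pool.Agent.helper35.FOL

theorem abs_sub_le_of_LD {g : ℝ ≃o ℝ} (hg : g ∈ Dd) {c : ℝ} (h : ∀ x, LD g x ≤ c) (x y : ℝ) :
    |g x - g y| ≤ Real.exp c * |x - y| := by
  have := Convex.norm_image_sub_le_of_norm_deriv_le (f := g) (s := univ) (C := Real.exp c)
    (x := y) (y := x) (fun z _ => diffAt hg z) (fun z _ => ?_) convex_univ trivial trivial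
  · simpa [Real.norm_eq_abs] using this
  · rw [Real.norm_eq_abs, abs_of_pos (hg.2 z), deriv_eq_exp hg]
    exact Real.exp_le_exp.2 (h z)

theorem abs_le_of_LD {g : ℝ ≃o ℝ} (hg : g ∈ Dd) (h0 : g 0 = 0) {c : ℝ} (h : ∀ x, LD g x ≤ c)
    (x : ℝ) : |g x| ≤ Real.exp c * |x| := by
  simpa [h0] using abs_sub_le_of_LD hg h x 0

theorem inv_zero {g : ℝ ≃o ℝ} (h0 : g 0 = 0) : g⁻¹ 0 = 0 := by
  have : g⁻¹ (g 0) = 0 := g.symm_apply_apply 0
  rwa [h0] at this

theorem inv_apply_self' (g : ℝ ≃o ℝ) (x : ℝ) : g⁻¹ (g x) = x := g.symm_apply_apply x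

theorem apply_inv_self' (g : ℝ ≃o ℝ) (x : ℝ) : g (g⁻¹ x) = x := g.apply_symm_apply x

theorem le_abs_of_LD {g : ℝ ≃o ℝ} (hg : g ∈ Dd) (h0 : g 0 = 0) {c : ℝ} (h : ∀ x, c ≤ LD g x)
    (x : ℝ) : Real.exp c * |x| ≤ |g x| := by
  have h1 := abs_le_of_LD (Dd.inv_mem hg) (inv_zero h0) (c := -c)
    (fun y => by rw [LD_inv hg]; linarith [h (g⁻¹ y)]) (g x)
  rw [inv_apply_self', Real.exp_neg] at h1
  have h2 : 0 < Real.exp c := Real.exp_pos c
  calc Real.exp c * |x| ≤ Real.exp c * ((Real.exp c)⁻¹ * |g x|) := by gcongr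
    _ = |g x| := by field_simp

end Pool.Agent.helper32.FolG
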