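import Pool.Agent.helper32.FolG.N2
import Pool.Agent.helper97.FG.N3

/-!
# FOL, G-U3: displacement of the maps and of the word on `[s,t]`

`disp_on` : from `disp_growth` (N2) and `low`.  `wrd_disp` : `wrd q x = ⁅q 0, q 1⁆ (⁅q 2, q 3⁆ x)`, two
applications of `FG.comm_disp` (FG/N3), `LD_mul`.
-/

open Set Filter Topology
open scoped commutatorElement

namespace Pool.Agent.helper32.FolG

open Pool.Agent.helper35.FOL

theorem disp_on {q : Q4} (hq : InDd q) {s t ls lt C₀ δ η : ℝ} {l : ℝ → ℝ} (hst : s ≤ t)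
    (hls : 0 < ls) (hlt : 0 < lt) (hC : 1 ≤ C₀) (hδ : 0 < δ) (hη : 0 ≤ η) (hη1 : η ≤ 1)
    (hηδ : 80 * η ≤ δ) (h1 : ∀ i, |q i s - s| ≤ C₀ * δ * ls) (h2 : ∀ i, |q i t - t| ≤ C₀ * δ * lt)
    (hL : ∀ i x, s ≤ x → x ≤ t → |LD (q i) x| ≤ η)
    (low : ∀ x, (ls ≤ l x ∧ x - s ≤ 40 * l x) ∨ (lt ≤ l x ∧ t - x ≤ 40 * l x)) :
    ∀ i x, s ≤ x → x ≤ t → |q i x - x| ≤ 2 * C₀ * δ * l x := by
  intro i x hx1 hx2
  have tri : ∀ A B : ℝ, |A| ≤ |A - B| + |B| := by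
    intro A B
    calc |A| = |(A - B) + B| := by congr 1; ring
      _ ≤ _ := abs_add_le _ _
  have hCd : 0 < C₀ * δ := by nlinarith
  rcases low x with ⟨h3, h4⟩ | ⟨h3, h4⟩
  · have h5 := disp_growth (hq i) hη hη1 (hL i) hx1 hx2 le_rfl hst
    rw [abs_of_nonneg (by linarith : 0 ≤ x - s)] at h5
    have h6 := tri (q i x - x) (q i s - s)
    have h7 := h1 i
    have h8 : 2 * η * (x - s) ≤ 2 * η * (40 * l x) := by gcongr
    have h9 : C₀ * δ * ls ≤ C₀ * δ * l x := by gcongr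
    have h10 : 0 < l x := by linarith
    have h11 : 80 * η * l x ≤ C₀ * δ * l x :=
      mul_le_mul_of_nonneg_right (hηδ.trans (le_mul_of_one_le_left hδ.le hC)) h10.le
    linarith
  · have h5 := disp_growth (hq i) hη hη1 (hL i) hx1 hx2 hst le_rfl
    rw [abs_of_nonpos (by linarith : x - t ≤ 0)] at h5
    have h6 := tri (q i x - x) (q i t - t)
    have h7 := h2 i
    have h8 : 2 * η * (t - x) ≤ 2 * η * (40 * l x) := by gcongr
    have h9 : C₀ * δ * lt ≤ C₀ * δ * l x := by gcongr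
    have h10 : 0 < l x := by linarith
    have h11 : 80 * η * l x ≤ C₀ * δ * l x :=
      mul_le_mul_of_nonneg_right (hηδ.trans (le_mul_of_one_le_left hδ.le hC)) h10.le
    linarith

theorem wrd_disp {q : Q4} (hq : InDd q) {K S s t x : ℝ} (hK : 0 ≤ K) (hS : 0 ≤ S)
    (hS1 : S ≤ 1 / 16) (hs : s ≤ x - 4 * K) (ht : x + 4 * K ≤ t)
    (h1 : ∀ i, ∀ y ∈ Icc s t, |LD (q i) y| ≤ S)
    (h2 : ∀ i, ∀ y ∈ Icc (x - 3 * K) (x + 3 * K), |q i y - y| ≤ K) :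
    |wrd q x - x| ≤ 8 * S * K ∧ |LD (wrd q) x| ≤ 8 * S := by
  have c1 := FG.comm_disp (K := K) (S := S) (s := s) (t := t) (x := x) (hq 2) (hq 3) hK hS
    (by linarith) (by linarith) (by linarith) (h1 2) (h1 3)
    (fun y hy => ⟨h2 2 y ⟨by linarith [hy.1], by linarith [hy.2]⟩,
      h2 3 y ⟨by linarith [hy.1], by linarith [hy.2]⟩⟩)
  set x' := ⁅q 2, q 3⁆ x with hx'
  have h3 : |x' - x| ≤ K / 4 := by nlinarith [c1.1]
  have h4 := abs_le.1 h3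
  have c2 := FG.comm_disp (K := K) (S := S) (s := s) (t := t) (x := x') (hq 0) (hq 1) hK hS
    (by linarith) (by linarith [h4.1]) (by linarith [h4.2]) (h1 0) (h1 1)
    (fun y hy => ⟨h2 0 y ⟨by linarith [hy.1, h4.1], by linarith [hy.2, h4.2]⟩,
      h2 1 y ⟨by linarith [hy.1, h4.1], by linarith [hy.2, h4.2]⟩⟩)
  have cm : ∀ {u v : ℝ ≃o ℝ}, u ∈ Dd → v ∈ Dd → ⁅u, v⁆ ∈ Dd := by
    intro u v hu hv
    rw [commutatorElement_def]
    exact Dd.mul_mem (Dd.mul_mem (Dd.mul_mem hu hv) (Dd.inv_mem hu)) (Dd.inv_mem hv)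
  constructor
  · have e1 : wrd q x = ⁅q 0, q 1⁆ x' := rfl
    rw [e1]
    have h5 : |⁅q 0, q 1⁆ x' - x| ≤ |⁅q 0, q 1⁆ x' - x'| + |x' - x| := abs_sub_le _ _ _
    linarith [c1.1, c2.1]
  · have e1 : LD (wrd q) x = LD ⁅q 0, q 1⁆ x' + LD ⁅q 2, q 3⁆ x :=
      LD_mul (cm (hq 0) (hq 1)) (cm (hq 2) (hq 3)) x
    rw [e1]
    have h5 := abs_add_le (LD ⁅q 0, q 1⁆ x') (LD ⁅q 2, q 3⁆ x)
    linarith [c1.2, c2.2]

end Pool.Agent.helper32.FolG
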