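import Pool.Agent.helper32.FolG.U1
import Pool.Agent.helper32.FolG.U3
import Pool.Agent.helper97.FG.U0
import Pool.Agent.helper32.FolG.Bd

/-!
# FOL, G-U5: Lemma N' from Lemma N in the unit coordinate
-/

open Set Filter Topology
open scoped commutatorElement

namespace Pool.Agent.helper32.FolG

open Pool.Agent.helper35.FOL

theorem LD_conj' {g h : ℝ ≃o ℝ} (hg : g ∈ Dd) (hh : h ∈ Dd) (x : ℝ) :
    LD (h * g * h⁻¹) (h x) = LD h (g x) + LD g x - LD h x := by
  rw [LD_mul (Dd.mul_mem hh hg) (Dd.inv_mem hh), LD_inv' hh, inv_apply_self', LD_mul hh hg]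
  ring

theorem wrd_conj' (c : ℝ ≃o ℝ) (q : Q4) : wrd (fun i => c * q i * c⁻¹) = c * wrd q * c⁻¹ := by
  unfold wrd
  simp only [commutatorElement_def]
  group

/-- **Lemma N'** from Lemma N in the unit coordinate. -/
theorem LemN'_of_UnitN (hU : FG.UnitN) : LemN' := by
  intro c₀ hc₀ M hM ε hε
  set C₀ : ℝ := max 1 (1 / c₀) with hC₀
  have hC1 : 1 ≤ C₀ := le_max_left _ _
  have hC0 : 0 < C₀ := by linarith
  obtain ⟨A, δ₀, hA, hδ₀, hU⟩ := hU C₀ hC1
  have hA0 : 0 < A := by linarith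
  obtain ⟨δ, hδ, hδδ₀, hδM, hδε, hδC, hδA⟩ : ∃ δ : ℝ, 0 < δ ∧ δ ≤ δ₀ ∧ M * δ ≤ 1 ∧
      8 * A * δ ≤ ε ∧ 100 * C₀ * δ ≤ 1 ∧ A * δ ≤ 1 / 8 := by
    refine ⟨min δ₀ (min (1 / M) (min (ε / (8 * A)) (min (1 / (100 * C₀)) (1 / (8 * A))))),
      by positivity, min_le_left _ _, ?_, ?_, ?_, ?_⟩
    · calc _ ≤ M * (1 / M) := by
            gcongr; exact (min_le_right _ _).trans (min_le_left _ _)
        _ = 1 := by field_simp
    · calc _ ≤ 8 * A * (ε / (8 * A)) := by
            gcongr
            exact (min_le_right _ _).trans ((min_le_right _ _).trans (min_le_left _ _))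
        _ = ε := by field_simp
    · calc _ ≤ 100 * C₀ * (1 / (100 * C₀)) := by
            gcongr
            exact (min_le_right _ _).trans ((min_le_right _ _).trans ((min_le_right _ _).trans
              (min_le_left _ _)))
        _ = 1 := by field_simp
    · calc _ ≤ A * (1 / (8 * A)) := by
            gcongr
            exact (min_le_right _ _).trans ((min_le_right _ _).trans ((min_le_right _ _).trans
              (min_le_right _ _)))
        _ = 1 / 8 := by field_simp
  obtain ⟨η₁, hη₁, hU⟩ := hU δ hδ hδδ₀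
  have hδ1 : δ ≤ 1 / 100 := by nlinarith
  obtain ⟨η, hη, hηδ, hη9, hηε⟩ : ∃ η : ℝ, 0 < η ∧ 4000 * η ≤ δ ∧ 9 * η ≤ η₁ ∧ η ≤ ε := by
    refine ⟨min (δ / 4000) (min (η₁ / 9) ε), by positivity, ?_, ?_, ?_⟩
    · calc _ ≤ 4000 * (δ / 4000) := by gcongr; exact min_le_left _ _
        _ = δ := by ring
    · calc _ ≤ 9 * (η₁ / 9) := by
            gcongr; exact (min_le_right _ _).trans (min_le_left _ _)
        _ = η₁ := by ring
    · exact (min_le_right _ _).trans (min_le_right _ _)
  refine ⟨η, hη, ?_⟩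
  intro q hq s t hst hs ht hcs hct hL
  have hη1 : η ≤ 1 := by linarith
  have hgr : ∀ i x y, s ≤ x → x ≤ t → s ≤ y → y ≤ t →
      |(q i x - x) - (q i y - y)| ≤ 2 * η * |x - y| := fun i x y h1 h2 h3 h4 =>
    disp_growth (hq i) hη.le hη1 (hL i) h1 h2 h3 h4
  set ls := |q 0 s - s| / δ with hls
  set lt := |q 0 t - t| / δ with hlt
  have hls0 : 0 < ls := div_pos hs hδ
  have hlt0 : 0 < lt := div_pos ht hδ
  have els : |q 0 s - s| = δ * ls := by rw [hls]; field_simp
  have elt : |q 0 t - t| = δ * lt := by rw [hlt]; field_simp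
  -- nothing to do if the interval is short
  have hshort : ∀ p, s ≤ p → p ≤ t → δ * (t - s) < 1000 * |q 0 p - p| → ∀ x, s ≤ x → x ≤ t →
      ¬ Fx q x := by
    intro p hp1 hp2 hp x hx1 hx2 hF
    have h1 := hgr 0 x p hx1 hx2 hp1 hp2
    rw [hF 0, sub_self, zero_sub, abs_neg] at h1
    have h2 : |x - p| ≤ t - s := abs_le.2 ⟨by linarith, by linarith⟩
    have h3 : 2 * η * |x - p| ≤ 2 * η * (t - s) := by gcongr
    nlinarith
  by_cases hcase : t - s < 1000 * ls ∨ t - s < 1000 * lt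
  · have hno : ∀ x, s ≤ x → x ≤ t → ¬ Fx q x := by
      rcases hcase with h | h
      · refine hshort s le_rfl hst.le ?_
        rw [els]
        nlinarith
      · refine hshort t hst.le le_rfl ?_
        rw [elt]
        nlinarith
    exact ⟨q, hq, fun _ _ _ => rfl, fun i x h1 h2 => (hL i x h1 h2).trans hηε, rfl, hno⟩
  push Not at hcase
  obtain ⟨h1000s, h1000t⟩ := hcase
  obtain ⟨h, l, H⟩ := exists_coord hls0 hlt0 h1000s h1000t
  have hh := H.mem
  have hCi : ∀ i, |q i s - s| ≤ C₀ * δ * ls := by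
    intro i
    have h1 : |q i s - s| ≤ 1 / c₀ * |q 0 s - s| := by
      rw [one_div, ← div_eq_inv_mul, le_div_iff₀ hc₀]
      linarith [hcs i]
    refine h1.trans ?_
    rw [els, mul_assoc]
    have := le_max_right 1 (1 / c₀)
    gcongr
  have hCt : ∀ i, |q i t - t| ≤ C₀ * δ * lt := by
    intro i
    have h1 : |q i t - t| ≤ 1 / c₀ * |q 0 t - t| := by
      rw [one_div, ← div_eq_inv_mul, le_div_iff₀ hc₀]
      linarith [hct i]
    refine h1.trans ?_
    rw [elt, mul_assoc]
    have := le_max_right 1 (1 / c₀)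
    gcongr
  have hdis : ∀ i x, s ≤ x → x ≤ t → |q i x - x| ≤ 2 * C₀ * δ * l x :=
    disp_on hq hst.le hls0 hlt0 hC1 hδ hη.le hη1 (by linarith) hCi hCt hL H.low
  have hw : ∀ x, s + ls ≤ x → x ≤ t - lt →
      |wrd q x - x| ≤ 32 * C₀ * δ * η * l x ∧ |LD (wrd q) x| ≤ 8 * η := by
    intro x hx1 hx2
    have hp := H.pos x
    have hCd : 0 < C₀ * δ := by positivity
    have hK : 16 * (C₀ * δ) * l x ≤ l x := by nlinarith
    have h1 := H.upl x hx1
    have h2 := H.upr x hx2
    have h3 := wrd_disp hq (K := 4 * C₀ * δ * l x) (S := η) (s := s) (t := t) (x := x)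
      (by positivity) hη.le (by linarith) (by nlinarith) (by nlinarith)
      (fun i y hy => hL i y hy.1 hy.2) ?_
    · refine ⟨h3.1.trans (le_of_eq (by ring)), h3.2⟩
    · intro i y hy
      have hy1 : s ≤ y := by nlinarith [hy.1]
      have hy2 : y ≤ t := by nlinarith [hy.2]
      refine (hdis i y hy1 hy2).trans ?_
      have h4 : |y - x| ≤ l x := by
        rw [abs_le]
        constructor
        · nlinarith [hy.1]
        · nlinarith [hy.2]
      have h5 : l y ≤ 2 * l x := by linarith [(abs_le.1 (H.lip y x)).2]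
      calc 2 * C₀ * δ * l y ≤ 2 * C₀ * δ * (2 * l x) := by gcongr
        _ = 4 * C₀ * δ * l x := by ring
  -- the conjugated quadruple
  set n := h t with hn
  have hhs : h s = 0 := by rw [(H.left s (by linarith)).2, sub_self, zero_div]
  have hs30 : h (s + 30 * ls) = 30 := by
    rw [(H.left _ (by linarith)).2, add_sub_cancel_left, mul_div_assoc, div_self hls0.ne', mul_one]
  have hs1 : h (s + ls) = 1 := by
    rw [(H.left _ (by linarith)).2, add_sub_cancel_left, div_self hls0.ne']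
  have ht30 : h (t - 30 * lt) = n - 30 := by
    rw [(H.right _ (by linarith)).2, sub_sub_cancel_left, neg_div, mul_div_assoc,
      div_self hlt0.ne', mul_one]
    rfl
  have ht1 : h (t - lt) = n - 1 := by
    rw [(H.right _ (by linarith)).2, sub_sub_cancel_left, neg_div, div_self hlt0.ne']
    rfl
  set qt : Q4 := fun i => h * q i * h⁻¹ with hqt
  have hqtm : InDd qt := fun i => Dd.mul_mem (Dd.mul_mem hh (hq i)) (Dd.inv_mem hh)
  have hqt1 : ∀ i x, qt i (h x) = h (q i x) := by
    intro i x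
    show h (q i (h⁻¹ (h x))) = _
    rw [inv_apply_self']
  have hsm : ∀ i x, s ≤ x → x ≤ s + 30 * ls → q i x ≤ s + 40 * ls := by
    intro i x hx1 hx2
    have h1 := hdis i x hx1 (by linarith)
    rw [(H.left x (by linarith)).1] at h1
    have h2 : 2 * C₀ * δ * ls ≤ ls := by nlinarith
    linarith [(abs_le.1 h1).2]
  have hsm' : ∀ i x, t - 30 * lt ≤ x → x ≤ t → t - 40 * lt ≤ q i x := by
    intro i x hx1 hx2
    have h1 := hdis i x (by linarith) hx2
    rw [(H.right x (by linarith)).1] at h1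
    have h2 : 2 * C₀ * δ * lt ≤ lt := by nlinarith
    linarith [(abs_le.1 h1).1]
  have hq0 : ∀ i, |qt i 0| = |q i s - s| / ls := by
    intro i
    rw [← hhs, hqt1, (H.left _ (hsm i s le_rfl (by linarith))).2, abs_div, abs_of_pos hls0]
  have hqn : ∀ i, |qt i n - n| = |q i t - t| / lt := by
    intro i
    rw [hn, hqt1, (H.right _ (hsm' i t (by linarith) le_rfl)).2, add_sub_cancel_left, abs_div,
      abs_of_pos hlt0]
  have hLDq : ∀ i x, LD (qt i) (h x) = Real.log (l x) - Real.log (l (q i x)) + LD (q i) x := by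
    intro i x
    rw [hqt]
    simp only
    rw [LD_conj' (hq i) hh, H.LD_eq, H.LD_eq]
    ring
  have hwqt : wrd qt = h * wrd q * h⁻¹ := wrd_conj' h q
  have hwm : wrd q ∈ Dd := by
    unfold wrd
    simp only [commutatorElement_def]
    have m := fun i => hq i
    have m' := fun i => Dd.inv_mem (hq i)
    exact Dd.mul_mem (Dd.mul_mem (Dd.mul_mem (Dd.mul_mem (m 0) (m 1)) (m' 0)) (m' 1))
      (Dd.mul_mem (Dd.mul_mem (Dd.mul_mem (m 2) (m 3)) (m' 2)) (m' 3))
  have c1 : |qt 0 0| = δ := by rw [hq0, els]; field_simp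
  have c2 : |qt 0 n - n| = δ := by rw [hqn, elt]; field_simp
  have c3 : ∀ i, |qt i 0| ≤ C₀ * δ := by
    intro i
    rw [hq0, div_le_iff₀ hls0]
    exact hCi i
  have c4 : ∀ i, |qt i n - n| ≤ C₀ * δ := by
    intro i
    rw [hqn, div_le_iff₀ hlt0]
    exact hCt i
  have c5 : ∀ i x, 0 ≤ x → x ≤ 30 → |LD (qt i) x| ≤ η₁ := by
    intro i y hy0 hy1
    obtain ⟨x, rfl⟩ := h.surjective y
    rw [← hhs, h.le_iff_le] at hy0
    rw [← hs30, h.le_iff_le] at hy1
    rw [hLDq, (H.left x (by linarith)).1, (H.left _ (hsm i x hy0 hy1)).1, sub_self, zero_add]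
    exact (hL i x hy0 (by linarith)).trans (by linarith)
  have c6 : ∀ i x, n - 30 ≤ x → x ≤ n → |LD (qt i) x| ≤ η₁ := by
    intro i y hy0 hy1
    obtain ⟨x, rfl⟩ := h.surjective y
    rw [← ht30, h.le_iff_le] at hy0
    rw [hn, h.le_iff_le] at hy1
    rw [hLDq, (H.right x (by linarith)).1, (H.right _ (hsm' i x hy0 hy1)).1, sub_self, zero_add]
    exact (hL i x (by linarith) hy1).trans (by linarith)
  have c7 : ∀ x, 1 ≤ x → x ≤ n - 1 → |wrd qt x - x| ≤ η₁ ∧ |LD (wrd qt) x| ≤ η₁ := by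
    intro y hy0 hy1
    obtain ⟨x, rfl⟩ := h.surjective y
    rw [← hs1, h.le_iff_le] at hy0
    rw [← ht1, h.le_iff_le] at hy1
    obtain ⟨w1, w2⟩ := hw x hy0 hy1
    have hp := H.pos x
    have hsmall : 32 * C₀ * δ * η * l x ≤ η * (l x / 2) := by
      calc 32 * C₀ * δ * η * l x = (64 * (C₀ * δ)) * (η * (l x / 2)) := by ring
        _ ≤ 1 * (η * (l x / 2)) := by
          have : 64 * (C₀ * δ) ≤ 1 := by nlinarith [mul_pos hC0 hδ]
          gcongr
        _ = _ := one_mul _
    have w3 : |wrd q x - x| ≤ l x / 2 := by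
      refine (w1.trans hsmall).trans ?_
      nlinarith
    have w4 : 2 * |wrd q x - x| / l x ≤ η := by
      rw [div_le_iff₀ hp]
      linarith [w1.trans hsmall]
    have w5 := (H.dist_h w3).trans w4
    have w6 := (H.dist_log w3).trans w4
    rw [hwqt]
    constructor
    · have : (h * wrd q * h⁻¹) (h x) = h (wrd q x) := by
        show h (wrd q (h⁻¹ (h x))) = _
        rw [inv_apply_self']
      rw [this]
      linarith
    · rw [LD_conj' hwm hh, H.LD_eq, H.LD_eq]
      rw [abs_le] at w6 w2 ⊢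
      constructor
      · linarith [w6.2, w2.1]
      · linarith [w6.1, w2.2]
  obtain ⟨Q, hQ, hQeq, hQb, hQw, hQF⟩ := hU n qt H.big hqtm c1 c2 c3 c4 c5 c6 c7
  refine ⟨fun i => h⁻¹ * Q i * h, fun i => Dd.mul_mem (Dd.mul_mem (Dd.inv_mem hh) (hQ i)) hh,
    ?_, ?_, ?_, ?_⟩
  · intro i x hx
    show h⁻¹ (Q i (h x)) = q i x
    have hx' : h x ≤ 1 ∨ n - 1 ≤ h x := by
      rcases hx with hx | hx
      · left
        rw [← hs1, h.le_iff_le]
        have : M * |q 0 s - s| ≤ ls := by
          rw [els]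
          calc M * (δ * ls) = (M * δ) * ls := by ring
            _ ≤ 1 * ls := by gcongr
            _ = ls := one_mul _
        linarith
      · right
        rw [← ht1, h.le_iff_le]
        have : M * |q 0 t - t| ≤ lt := by
          rw [elt]
          calc M * (δ * lt) = (M * δ) * lt := by ring
            _ ≤ 1 * lt := by gcongr
            _ = lt := one_mul _
        linarith
    rw [hQeq i _ hx', hqt1, inv_apply_self']
  · intro i x hx1 hx2
    have hp := H.pos x
    have k1 : 0 ≤ h x := by rw [← hhs, h.le_iff_le]; exact hx1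
    have k2 : h x ≤ n := by rw [hn, h.le_iff_le]; exact hx2
    obtain ⟨b1, b2⟩ := hQb i (h x) k1 k2
    obtain ⟨x', hx'⟩ := h.surjective (Q i (h x))
    have e1 : LD (h⁻¹ * Q i * h) x = Real.log (l x') - Real.log (l x) + LD (Q i) (h x) := by
      rw [LD_mul (Dd.mul_mem (Dd.inv_mem hh) (hQ i)) hh, LD_mul (Dd.inv_mem hh) (hQ i), ← hx',
        LD_inv' hh, H.LD_eq, H.LD_eq]
      ring
    show |LD (h⁻¹ * Q i * h) x| ≤ ε
    rw [e1]
    rw [← hx'] at b1
    have b3 := H.dist_inv (b1.trans (by linarith))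
    have b4 : |x' - x| ≤ 2 * (A * δ) * l x := by
      refine b3.trans ?_
      gcongr
    have b5 : |x' - x| ≤ l x / 2 := by
      refine b4.trans ?_
      nlinarith
    have b6 := H.dist_log b5
    have b7 : 2 * |x' - x| / l x ≤ 4 * (A * δ) := by
      rw [div_le_iff₀ hp]
      linarith
    have b8 := abs_add_le (Real.log (l x') - Real.log (l x)) (LD (Q i) (h x))
    have b9 : 0 ≤ A * δ := by positivity
    linarith
  · have e1 : wrd (fun i => h⁻¹ * Q i * h) = h⁻¹ * wrd Q * h := by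
      have := wrd_conj' h⁻¹ Q
      rwa [inv_inv] at this
    rw [e1, hQw, hwqt]
    group
  · intro x hx1 hx2 hF
    have k1 : 0 ≤ h x := by rw [← hhs, h.le_iff_le]; exact hx1
    have k2 : h x ≤ n := by rw [hn, h.le_iff_le]; exact hx2
    refine hQF (h x) k1 k2 fun i => ?_
    have h1 : h⁻¹ (Q i (h x)) = x := hF i
    calc Q i (h x) = h (h⁻¹ (Q i (h x))) := (apply_inv_self' _ _).symm
      _ = h x := by rw [h1]

end Pool.Agent.helper32.FolG
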