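import Pool.Agent.helper32.FolG.Final
import Pool.Agent.helper32.FolG.N4
import Pool.Agent.helper32.FolG.U5

/-!
# FOL: Theorem G from Lemma N in the unit coordinate
-/

namespace Pool.Agent.helper32.FolG

open Pool.Agent.helper35.FOL

theorem lemN_of_UnitN (hU : FG.UnitN) : LemN := LemN_of_LemN' (LemN'_of_UnitN hU)

theorem theoremG_of_UnitN (hU : FG.UnitN) : TheoremG := theoremG_of_N (lemN_of_UnitN hU)

end Pool.Agent.helper32.FolG
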