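import Pool.Agent.helper32.FolG.Base

/-!
# FOL, G-A1: products and inverses are continuous for the neighbourhoods `Nb`
-/

open Set Filter Topology

namespace Pool.Agent.helper32.FolG

open Pool.Agent.helper35.FOL

/-- Uniform closeness from closeness of the logarithms of the derivatives. -/
theorem A1_unif {h : ℝ ≃o ℝ} (hh : h ∈ Dd) {r δ : ℝ} (hr : 0 < r) (hδ : 0 < δ) :
    ∃ ε₁ : ℝ, 0 < ε₁ ∧ ∀ h' : ℝ ≃o ℝ, h' ∈ Dd → (∀ x, r ≤ |x| → h' x = h x) →
      (∀ x, |LD h' x - LD h x| ≤ ε₁) → ∀ x, |h' x - h x| < δ := by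
  obtain ⟨M, hM⟩ := (isCompact_Icc (a := -r) (b := r)).exists_bound_of_continuousOn
    (continuous_deriv hh).continuousOn
  have hM0 : 0 ≤ M := (norm_nonneg _).trans (hM r ⟨by linarith, le_refl r⟩)
  have hcont : Continuous fun t : ℝ => M * (Real.exp t - 1) * (2 * r) := by fun_prop
  have h0 : (fun t : ℝ => M * (Real.exp t - 1) * (2 * r)) 0 < δ := by simpa using hδ
  obtain ⟨η, hη, hball⟩ := Metric.eventually_nhds_iff.1
    (hcont.continuousAt.eventually (gt_mem_nhds h0))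
  refine ⟨η / 2, by positivity, ?_⟩
  intro h' hh' hout hLD x
  by_cases hx : r ≤ |x|
  · rw [hout x hx, sub_self, abs_zero]
    exact hδ
  · rw [not_le, abs_lt] at hx
    have hb := hball (y := η / 2) (by rw [Real.dist_eq, sub_zero, abs_of_pos (by positivity)]; linarith)
    have hd : ∀ y ∈ Icc (-r) r, HasDerivWithinAt (fun y => h' y - h y) (deriv h' y - deriv h y)
        (Icc (-r) r) y := fun y _ => ((hasDeriv hh' y).sub (hasDeriv hh y)).hasDerivWithinAt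
    have hbd : ∀ y ∈ Icc (-r) r, ‖deriv h' y - deriv h y‖ ≤ M * (Real.exp (η / 2) - 1) := by
      intro y hy
      have e1 : deriv h' y - deriv h y = deriv h y * (Real.exp (LD h' y - LD h y) - 1) := by
        rw [deriv_eq_exp hh' y, deriv_eq_exp hh y, mul_sub, ← Real.exp_add, mul_one]
        congr 2
        ring
      have e2 : |Real.exp (LD h' y - LD h y) - 1| ≤ Real.exp (η / 2) - 1 := by
        have h1 := abs_le.1 (hLD y)
        rw [abs_le]
        constructor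
        · have h2 : Real.exp (-(η / 2)) ≤ Real.exp (LD h' y - LD h y) := Real.exp_le_exp.2 h1.1
          have h3 : 2 ≤ Real.exp (η / 2) + Real.exp (-(η / 2)) := by
            have h4 := Real.add_one_le_exp (η / 2)
            have h5 := Real.add_one_le_exp (-(η / 2))
            linarith
          linarith
        · have h2 : Real.exp (LD h' y - LD h y) ≤ Real.exp (η / 2) := Real.exp_le_exp.2 h1.2
          linarith
      rw [e1, norm_mul]
      have e3 : (0 : ℝ) ≤ Real.exp (η / 2) - 1 := (abs_nonneg _).trans e2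
      exact mul_le_mul (hM y hy) e2 (abs_nonneg _) hM0
    have hmv := (convex_Icc (-r) r).norm_image_sub_le_of_norm_hasDerivWithin_le hd hbd
      (⟨le_refl _, by linarith⟩ : -r ∈ Icc (-r) r) (⟨hx.1.le, hx.2.le⟩ : x ∈ Icc (-r) r)
    have hr0 : h' (-r) = h (-r) := hout (-r) (by rw [abs_neg, abs_of_pos hr])
    simp only [hr0, sub_self, sub_zero] at hmv
    rw [Real.norm_eq_abs, Real.norm_eq_abs] at hmv
    refine lt_of_le_of_lt hmv (lt_of_le_of_lt ?_ hb)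
    have e3 : (0 : ℝ) ≤ Real.exp (η / 2) - 1 := by
      have := Real.add_one_le_exp (η / 2)
      linarith
    refine mul_le_mul_of_nonneg_left ?_ (mul_nonneg hM0 e3)
    rw [abs_le]
    constructor <;> linarith [hx.1, hx.2]

/-- Uniform continuity on an interval. -/
theorem A1_uc {f : ℝ → ℝ} (hf : Continuous f) (a b : ℝ) {ε : ℝ} (hε : 0 < ε) :
    ∃ δ : ℝ, 0 < δ ∧ ∀ x ∈ Icc a b, ∀ y ∈ Icc a b, |x - y| < δ → |f x - f y| < ε := by
  have h := (isCompact_Icc (a := a) (b := b)).uniformContinuousOn_of_continuous hf.continuousOn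
  rw [Metric.uniformContinuousOn_iff] at h
  obtain ⟨δ, hδ, h1⟩ := h ε hε
  exact ⟨δ, hδ, fun x hx y hy hxy => h1 x hx y hy hxy⟩

/-- If `g` fixes `0`, then `|g x|` is bounded below for `r ≤ |x|`. -/
theorem A1_low {g : ℝ ≃o ℝ} (h0 : g 0 = 0) {r : ℝ} (hr : 0 < r) :
    0 < min (g r) (-g (-r)) ∧ ∀ x, r ≤ |x| → min (g r) (-g (-r)) ≤ |g x| := by
  have h1 : 0 < g r := by
    have := g.strictMono hr
    rwa [h0] at this
  have h2 : g (-r) < 0 := by
    have := g.strictMono (neg_lt_zero.2 hr)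
    rwa [h0] at this
  refine ⟨lt_min h1 (by linarith), ?_⟩
  intro x hx
  rcases le_abs.1 hx with h | h
  · exact (min_le_left _ _).trans ((g.monotone h).trans (le_abs_self _))
  · refine (min_le_right _ _).trans (le_trans ?_ (neg_le_abs _))
    exact neg_le_neg (g.monotone (by linarith))

theorem nb_mul {g h : ℝ ≃o ℝ} (hg : g ∈ Dd) (hh : h ∈ Dd) (h0 : h 0 = 0) {ε r : ℝ} (hε : 0 < ε)
    (hr : 0 < r) : ∃ ε' : ℝ, 0 < ε' ∧ ∃ r' : ℝ, 0 < r' ∧ ∀ g' h' : ℝ ≃o ℝ,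
      Nb g ε' r' g' → Nb h ε' r' h' → Nb (g * h) ε r (g' * h') := by
  obtain ⟨hlow, hlow'⟩ := A1_low h0 hr
  obtain ⟨δ, hδ, huc⟩ := A1_uc (continuous_LD hg) (h (-r)) (h r) (ε := ε / 3) (by positivity)
  obtain ⟨ε₁, hε₁, hun⟩ := A1_unif hh hr hδ
  refine ⟨min (ε / 3) ε₁, lt_min (by positivity) hε₁, min r (min (h r) (-h (-r))),
    lt_min hr hlow, ?_⟩
  intro g' h' hg' hh'
  have hout : ∀ x, r ≤ |x| → h' x = h x := fun x hx => hh'.2.1 x ((min_le_left _ _).trans hx)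
  refine ⟨Dd.mul_mem hg'.1 hh'.1, ?_, ?_⟩
  · intro x hx
    change g' (h' x) = g (h x)
    rw [hout x hx]
    exact hg'.2.1 _ ((min_le_right _ _).trans (hlow' x hx))
  · intro x
    rw [LD_mul hg'.1 hh'.1, LD_mul hg hh]
    have e1 : |LD g' (h' x) - LD g (h' x)| ≤ ε / 3 := (hg'.2.2 _).trans (min_le_left _ _)
    have e3 : |LD h' x - LD h x| ≤ ε / 3 := (hh'.2.2 _).trans (min_le_left _ _)
    have e2 : |LD g (h' x) - LD g (h x)| ≤ ε / 3 := by
      by_cases hx : r ≤ |x|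
      · rw [hout x hx, sub_self, abs_zero]
        positivity
      · rw [not_le, abs_lt] at hx
        refine (huc _ ?_ _ ⟨h.monotone hx.1.le, h.monotone hx.2.le⟩
          (hun h' hh'.1 hout (fun y => (hh'.2.2 y).trans (min_le_right _ _)) x)).le
        have a1 : h' (-r) = h (-r) := hout (-r) (by rw [abs_neg, abs_of_pos hr])
        have a2 : h' r = h r := hout r (by rw [abs_of_pos hr])
        rw [← a1, ← a2]
        exact ⟨h'.monotone hx.1.le, h'.monotone hx.2.le⟩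
    have e4 : LD g' (h' x) + LD h' x - (LD g (h x) + LD h x) =
        (LD g' (h' x) - LD g (h' x)) + (LD g (h' x) - LD g (h x)) + (LD h' x - LD h x) := by ring
    rw [e4]
    refine (abs_add_le _ _).trans ?_
    have e5 := abs_add_le (LD g' (h' x) - LD g (h' x)) (LD g (h' x) - LD g (h x))
    linarith

theorem nb_inv {g : ℝ ≃o ℝ} (hg : g ∈ Dd) (h0 : g 0 = 0) {ε r : ℝ} (hε : 0 < ε)
    (hr : 0 < r) : ∃ ε' : ℝ, 0 < ε' ∧ ∃ r' : ℝ, 0 < r' ∧ ∀ g' : ℝ ≃o ℝ,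
      Nb g ε' r' g' → Nb g⁻¹ ε r g'⁻¹ := by
  have h0' : g⁻¹ 0 = 0 := by
    have h1 : g.symm (g 0) = 0 := g.symm_apply_apply 0
    rw [h0] at h1
    exact h1
  obtain ⟨hlow, hlow'⟩ := A1_low h0' hr
  set r₁ : ℝ := min (g⁻¹ r) (-g⁻¹ (-r)) with hr₁
  obtain ⟨δ, hδ, huc⟩ := A1_uc (continuous_LD hg) (g⁻¹ (-r)) (g⁻¹ r) (ε := ε / 2) (by positivity)
  obtain ⟨δ₂, hδ₂, huc₂⟩ := A1_uc (OrderIso.continuous g⁻¹) (-r) r hδ
  obtain ⟨ε₁, hε₁, hun⟩ := A1_unif hg hlow hδ₂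
  refine ⟨min (ε / 2) ε₁, lt_min (by positivity) hε₁, r₁, hlow, ?_⟩
  intro g' hg'
  have hout : ∀ x, r ≤ |x| → g'⁻¹ x = g⁻¹ x := by
    intro x hx
    have h1 := hg'.2.1 (g⁻¹ x) (hlow' x hx)
    have h2 : g (g⁻¹ x) = x := g.apply_symm_apply x
    rw [h2] at h1
    have h3 : g'.symm (g' (g⁻¹ x)) = g⁻¹ x := g'.symm_apply_apply _
    rw [h1] at h3
    exact h3
  refine ⟨Dd.inv_mem hg'.1, hout, ?_⟩
  intro x
  rw [LD_inv hg'.1, LD_inv hg]
  have e1 : |LD g' (g'⁻¹ x) - LD g (g'⁻¹ x)| ≤ ε / 2 := (hg'.2.2 _).trans (min_le_left _ _)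
  have e2 : |LD g (g'⁻¹ x) - LD g (g⁻¹ x)| ≤ ε / 2 := by
    by_cases hx : r ≤ |x|
    · rw [hout x hx, sub_self, abs_zero]
      positivity
    · rw [not_le, abs_lt] at hx
      have a1 : g'⁻¹ (-r) = g⁻¹ (-r) := hout (-r) (by rw [abs_neg, abs_of_pos hr])
      have a2 : g'⁻¹ r = g⁻¹ r := hout r (by rw [abs_of_pos hr])
      have hy : g'⁻¹ x ∈ Icc (g⁻¹ (-r)) (g⁻¹ r) := by
        rw [← a1, ← a2]
        exact ⟨g'⁻¹.monotone hx.1.le, g'⁻¹.monotone hx.2.le⟩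
      have hy' : g⁻¹ x ∈ Icc (g⁻¹ (-r)) (g⁻¹ r) :=
        ⟨g⁻¹.monotone hx.1.le, g⁻¹.monotone hx.2.le⟩
      refine (huc _ hy _ hy' ?_).le
      have b1 : g⁻¹ (g (g'⁻¹ x)) = g'⁻¹ x := g.symm_apply_apply _
      have b2 : g' (g'⁻¹ x) = x := g'.apply_symm_apply x
      have b3 := hun g' hg'.1 hg'.2.1 (fun y => (hg'.2.2 y).trans (min_le_right _ _)) (g'⁻¹ x)
      rw [b2, abs_sub_comm] at b3
      have b4 : g (g'⁻¹ x) ∈ Icc (-r) r := by
        have c1 : g (g⁻¹ (-r)) = -r := g.apply_symm_apply _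
        have c2 : g (g⁻¹ r) = r := g.apply_symm_apply _
        have d1 := g.monotone hy.1
        have d2 := g.monotone hy.2
        rw [c1] at d1
        rw [c2] at d2
        exact ⟨d1, d2⟩
      have b5 := huc₂ _ b4 x ⟨hx.1.le, hx.2.le⟩ b3
      rwa [b1] at b5
  have e4 : -LD g' (g'⁻¹ x) - -LD g (g⁻¹ x) =
      -((LD g' (g'⁻¹ x) - LD g (g'⁻¹ x)) + (LD g (g'⁻¹ x) - LD g (g⁻¹ x))) := by ring
  rw [e4, abs_neg]
  have e5 := abs_add_le (LD g' (g'⁻¹ x) - LD g (g'⁻¹ x)) (LD g (g'⁻¹ x) - LD g (g⁻¹ x))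
  linarith

theorem nb_mono {g g' : ℝ ≃o ℝ} {ε ε' r r' : ℝ} (h : Nb g ε r g') (he : ε ≤ ε') (hr : r ≤ r') :
    Nb g ε' r' g' :=
  ⟨h.1, fun x hx => h.2.1 x (hr.trans hx), fun x => (h.2.2 x).trans he⟩

end Pool.Agent.helper32.FolG
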