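import Pool.Agent.helper32.FolG.A1

/-!
# FOL, G-A2: words in a quadruple, relabelings of quadruples
-/

open Set Filter Topology

namespace Pool.Agent.helper32.FolG

open Pool.Agent.helper35.FOL

/-- The value of a word in the four maps. -/
noncomputable def ev (q : Q4) : FreeGroup (Fin 4) →* (ℝ ≃o ℝ) := FreeGroup.lift q

/-- The quadruple of the values of four words. -/
noncomputable def app (s : Fin 4 → FreeGroup (Fin 4)) (q : Q4) : Q4 := fun i => ev q (s i)

theorem ev_pure (q : Q4) (i : Fin 4) : ev q (FreeGroup.of i) = q i := by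
  unfold ev
  exact FreeGroup.lift_apply_of

theorem ev_mem {q : Q4} (hq : InDd q) (w : FreeGroup (Fin 4)) : ev q w ∈ Dd := by
  induction w using FreeGroup.induction_on with
  | C1 => rw [map_one]; exact Dd.one_mem
  | of i => rw [ev_pure]; exact hq i
  | inv_of i h => rw [map_inv]; exact Dd.inv_mem h
  | mul x y hx hy => rw [map_mul]; exact Dd.mul_mem hx hy

theorem ev_fix {q : Q4} {x : ℝ} (hx : Fx q x) (w : FreeGroup (Fin 4)) : ev q w x = x := by
  induction w using FreeGroup.induction_on with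
  | C1 => rw [map_one]; rfl
  | of i => rw [ev_pure]; exact hx i
  | inv_of i h =>
    rw [map_inv]
    have h2 : (ev q (FreeGroup.of i))⁻¹ (ev q (FreeGroup.of i) x) = x := (ev q (FreeGroup.of i)).symm_apply_apply x
    rwa [h] at h2
  | mul y z hy hz =>
    rw [map_mul]
    show ev q y (ev q z x) = x
    rw [hz, hy]

theorem nb_ev (w : FreeGroup (Fin 4)) {q : Q4} (hq : InDd q) (h0 : Fx q 0) {ε r : ℝ} (hε : 0 < ε)
    (hr : 0 < r) : ∃ ε' : ℝ, 0 < ε' ∧ ∃ r' : ℝ, 0 < r' ∧ ∀ q' : Q4,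
      (∀ i, Nb (q i) ε' r' (q' i)) → Nb (ev q w) ε r (ev q' w) := by
  induction w using FreeGroup.induction_on generalizing ε r with
  | C1 =>
    refine ⟨1, one_pos, 1, one_pos, fun q' _ => ?_⟩
    rw [map_one, map_one]
    refine ⟨Dd.one_mem, fun x _ => rfl, fun x => ?_⟩
    rw [sub_self, abs_zero]
    exact hε.le
  | of i =>
    refine ⟨ε, hε, r, hr, fun q' h => ?_⟩
    rw [ev_pure, ev_pure]
    exact h i
  | inv_of i ih =>
    obtain ⟨ε₁, hε₁, r₁, hr₁, h1⟩ := nb_inv (ev_mem hq (FreeGroup.of i)) (ev_fix h0 (FreeGroup.of i)) hε hr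
    obtain ⟨ε₂, hε₂, r₂, hr₂, h2⟩ := ih hε₁ hr₁
    refine ⟨ε₂, hε₂, r₂, hr₂, fun q' h => ?_⟩
    rw [map_inv, map_inv]
    exact h1 _ (h2 q' h)
  | mul y z ihy ihz =>
    obtain ⟨ε₁, hε₁, r₁, hr₁, h1⟩ := nb_mul (ev_mem hq y) (ev_mem hq z) (ev_fix h0 z) hε hr
    obtain ⟨ε₂, hε₂, r₂, hr₂, h2⟩ := ihy hε₁ hr₁
    obtain ⟨ε₃, hε₃, r₃, hr₃, h3⟩ := ihz hε₁ hr₁
    refine ⟨min ε₂ ε₃, lt_min hε₂ hε₃, min r₂ r₃, lt_min hr₂ hr₃, fun q' h => ?_⟩
    rw [map_mul, map_mul]
    exact h1 _ _ (h2 q' fun i => nb_mono (h i) (min_le_left _ _) (min_le_left _ _))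
      (h3 q' fun i => nb_mono (h i) (min_le_right _ _) (min_le_right _ _))

/-- The conclusion of Lemma H is invariant under relabelings by automorphisms of the free group
preserving the product of the two commutators. -/
theorem HC_app (s t : Fin 4 → FreeGroup (Fin 4)) (hts : ∀ q, app t (app s q) = q)
    (hst : ∀ q, app s (app t q) = q) (hw : ∀ q, wrd (app s q) = wrd q) {q : Q4} (hq : InDd q)
    (h0 : Fx q 0) (h : HC (app s q)) : HC q := by
  intro ε hε r hr
  have hq1 : InDd (app s q) := fun i => ev_mem hq (s i)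
  have h01 : Fx (app s q) 0 := fun i => ev_fix h0 (s i)
  have key : ∀ i, ∃ ε' : ℝ, 0 < ε' ∧ ∃ r' : ℝ, 0 < r' ∧ ∀ q' : Q4,
      (∀ j, Nb (app s q j) ε' r' (q' j)) → Nb (ev (app s q) (t i)) ε r (ev q' (t i)) :=
    fun i => nb_ev (t i) hq1 h01 hε hr
  choose e he ρ hρ hk using key
  obtain ⟨i₀, -, hi₀⟩ := Finset.exists_min_image Finset.univ e ⟨0, Finset.mem_univ _⟩
  obtain ⟨i₁, -, hi₁⟩ := Finset.exists_min_image Finset.univ ρ ⟨0, Finset.mem_univ _⟩
  obtain ⟨q'', h1, h2, h3⟩ := h (e i₀) (he i₀) (ρ i₁) (hρ i₁)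
  refine ⟨app t q'', fun i => ?_, ?_, fun x hx => ?_⟩
  · have h4 := hk i q'' fun j => nb_mono (h1 j) (hi₀ i (Finset.mem_univ _)) (hi₁ i (Finset.mem_univ _))
    have h5 : ev (app s q) (t i) = q i := congrFun (hts q) i
    rw [h5] at h4
    exact h4
  · rw [← hw (app t q''), hst, h2, hw]
  · have h4 : Fx q'' x := by
      have h5 : Fx (app s (app t q'')) x := fun i => ev_fix hx (s i)
      rwa [hst] at h5
    obtain ⟨h5, h6⟩ := h3 x h4
    refine ⟨?_, h6⟩
    have h7 : Fx (app t (app s q)) x := fun i => ev_fix h5 (t i)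
    rwa [hts] at h7

end Pool.Agent.helper32.FolG
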