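import Pool.Agent.helper32.FolG.A2

/-!
# FOL, G-A3: the elementary relabelings and the normalisation of the multipliers
-/

open Set Filter Topology
open scoped commutatorElement

namespace Pool.Agent.helper32.FolG

open Pool.Agent.helper35.FOL

/-- The letters. -/
abbrev X (i : Fin 4) : FreeGroup (Fin 4) := FreeGroup.of i

/-- `a₁ ↦ a₁ b₁ᵏ`. -/
def sA1 (k : ℤ) : Fin 4 → FreeGroup (Fin 4) := ![X 0 * X 1 ^ k, X 1, X 2, X 3]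

/-- `b₂ ↦ b₂ a₂ᵏ`. -/
def sB2 (k : ℤ) : Fin 4 → FreeGroup (Fin 4) := ![X 0, X 1, X 2, X 3 * X 2 ^ k]

/-- `a₂ ↦ a₂ b₂ᵏ`. -/
def sA2 (k : ℤ) : Fin 4 → FreeGroup (Fin 4) := ![X 0, X 1, X 2 * X 3 ^ k, X 3]

/-- `c = b₁⁻¹ a₂ b₂ a₂⁻¹`. -/
def cc : FreeGroup (Fin 4) := (X 1)⁻¹ * X 2 * X 3 * (X 2)⁻¹

/-- `a₁ ↦ a₁ cᵏ, b₁ ↦ c⁻ᵏ b₁ cᵏ, a₂ ↦ c⁻ᵏ a₂`. -/
def sM (k : ℤ) : Fin 4 → FreeGroup (Fin 4) :=
  ![X 0 * cc ^ k, cc ^ (-k) * X 1 * cc ^ k, cc ^ (-k) * X 2, X 3]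

/-- `(a₁, b₁) ↦ ([a₁,b₁] a₁⁻¹, a₁ b₁⁻¹ a₁⁻¹)`. -/
def sR : Fin 4 → FreeGroup (Fin 4) :=
  ![⁅X 0, X 1⁆ * (X 0)⁻¹, X 0 * (X 1)⁻¹ * (X 0)⁻¹, X 2, X 3]

/-- The inverse of `sR`. -/
def sR' : Fin 4 → FreeGroup (Fin 4) :=
  ![X 1 * (X 0)⁻¹ * (X 1)⁻¹, ⁅X 1, X 0⁆ * (X 1)⁻¹, X 2, X 3]

theorem app_sA1 (q : Q4) (k : ℤ) : app (sA1 k) q = ![q 0 * q 1 ^ k, q 1, q 2, q 3] := by
  funext i
  fin_cases i <;> simp [app, ev, sA1, X]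

theorem app_sB2 (q : Q4) (k : ℤ) : app (sB2 k) q = ![q 0, q 1, q 2, q 3 * q 2 ^ k] := by
  funext i
  fin_cases i <;> simp [app, ev, sB2, X]

theorem app_sA2 (q : Q4) (k : ℤ) : app (sA2 k) q = ![q 0, q 1, q 2 * q 3 ^ k, q 3] := by
  funext i
  fin_cases i <;> simp [app, ev, sA2, X]

theorem app_sM (q : Q4) (k : ℤ) : app (sM k) q =
    ![q 0 * ((q 1)⁻¹ * q 2 * q 3 * (q 2)⁻¹) ^ k,
      ((q 1)⁻¹ * q 2 * q 3 * (q 2)⁻¹) ^ (-k) * q 1 * ((q 1)⁻¹ * q 2 * q 3 * (q 2)⁻¹) ^ k,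
      ((q 1)⁻¹ * q 2 * q 3 * (q 2)⁻¹) ^ (-k) * q 2, q 3] := by
  funext i
  fin_cases i <;> simp [app, ev, sM, cc, X]

theorem app_sR (q : Q4) : app sR q =
    ![⁅q 0, q 1⁆ * (q 0)⁻¹, q 0 * (q 1)⁻¹ * (q 0)⁻¹, q 2, q 3] := by
  funext i
  fin_cases i <;> simp [app, ev, sR, X, commutatorElement_def]

theorem app_sR' (q : Q4) : app sR' q =
    ![q 1 * (q 0)⁻¹ * (q 1)⁻¹, ⁅q 1, q 0⁆ * (q 1)⁻¹, q 2, q 3] := by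
  funext i
  fin_cases i <;> simp [app, ev, sR', X, commutatorElement_def]

theorem A3_vec (q : Q4) : ![q 0, q 1, q 2, q 3] = q := by
  funext i
  fin_cases i <;> rfl

theorem A3_sA1 (q : Q4) (k l : ℤ) (h : k + l = 0) : app (sA1 l) (app (sA1 k) q) = q := by
  rw [app_sA1, app_sA1]
  funext i
  fin_cases i
  · show q 0 * q 1 ^ k * q 1 ^ l = q 0
    rw [mul_assoc, ← zpow_add, h, zpow_zero, mul_one]
  all_goals rfl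

theorem A3_sB2 (q : Q4) (k l : ℤ) (h : k + l = 0) : app (sB2 l) (app (sB2 k) q) = q := by
  rw [app_sB2, app_sB2]
  funext i
  fin_cases i
  · rfl
  · rfl
  · rfl
  · show q 3 * q 2 ^ k * q 2 ^ l = q 3
    rw [mul_assoc, ← zpow_add, h, zpow_zero, mul_one]

theorem A3_sA2 (q : Q4) (k l : ℤ) (h : k + l = 0) : app (sA2 l) (app (sA2 k) q) = q := by
  rw [app_sA2, app_sA2]
  funext i
  fin_cases i
  · rfl
  · rfl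
  · show q 2 * q 3 ^ k * q 3 ^ l = q 2
    rw [mul_assoc, ← zpow_add, h, zpow_zero, mul_one]
  · rfl

/-- `c` is invariant under the relabeling. -/
theorem A3_cc {G : Type} [Group G] (b a₂ b₂ c : G) (k : ℤ) (hc : c = b⁻¹ * a₂ * b₂ * a₂⁻¹) :
    (c ^ (-k) * b * c ^ k)⁻¹ * (c ^ (-k) * a₂) * b₂ * (c ^ (-k) * a₂)⁻¹ = c := by
  have h1 : (c ^ (-k) * b * c ^ k)⁻¹ * (c ^ (-k) * a₂) * b₂ * (c ^ (-k) * a₂)⁻¹ =
      c ^ (-k) * (b⁻¹ * a₂ * b₂ * a₂⁻¹) * c ^ k := by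
    rw [zpow_neg]
    group
  rw [h1, ← hc, ← zpow_add_one, ← zpow_add]
  simp

theorem A3_sM (q : Q4) (k l : ℤ) (h : k + l = 0) : app (sM l) (app (sM k) q) = q := by
  have hl : l = -k := by omega
  subst hl
  rw [app_sM, app_sM]
  set c : ℝ ≃o ℝ := (q 1)⁻¹ * q 2 * q 3 * (q 2)⁻¹ with hc
  have h2 : (c ^ (-k) * q 1 * c ^ k)⁻¹ * (c ^ (-k) * q 2) * q 3 * (c ^ (-k) * q 2)⁻¹ = c :=
    A3_cc (q 1) (q 2) (q 3) c k hc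
  funext i
  fin_cases i
  · show q 0 * c ^ k *
      ((c ^ (-k) * q 1 * c ^ k)⁻¹ * (c ^ (-k) * q 2) * q 3 * (c ^ (-k) * q 2)⁻¹) ^ (-k) = q 0
    rw [h2, mul_assoc, ← zpow_add]
    simp
  · show ((c ^ (-k) * q 1 * c ^ k)⁻¹ * (c ^ (-k) * q 2) * q 3 * (c ^ (-k) * q 2)⁻¹) ^ (- -k) *
      (c ^ (-k) * q 1 * c ^ k) *
      ((c ^ (-k) * q 1 * c ^ k)⁻¹ * (c ^ (-k) * q 2) * q 3 * (c ^ (-k) * q 2)⁻¹) ^ (-k) = q 1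
    rw [h2, neg_neg, zpow_neg]
    group
  · show ((c ^ (-k) * q 1 * c ^ k)⁻¹ * (c ^ (-k) * q 2) * q 3 * (c ^ (-k) * q 2)⁻¹) ^ (- -k) *
      (c ^ (-k) * q 2) = q 2
    rw [h2, neg_neg, zpow_neg]
    group
  · rfl

theorem A3_sR (q : Q4) : app sR' (app sR q) = q := by
  rw [app_sR, app_sR']
  funext i
  fin_cases i
  · show q 0 * (q 1)⁻¹ * (q 0)⁻¹ * (⁅q 0, q 1⁆ * (q 0)⁻¹)⁻¹ * (q 0 * (q 1)⁻¹ * (q 0)⁻¹)⁻¹ = q 0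
    rw [commutatorElement_def]
    group
  · show ⁅q 0 * (q 1)⁻¹ * (q 0)⁻¹, ⁅q 0, q 1⁆ * (q 0)⁻¹⁆ * (q 0 * (q 1)⁻¹ * (q 0)⁻¹)⁻¹ = q 1
    rw [commutatorElement_def, commutatorElement_def]
    group
  all_goals rfl

theorem A3_sR' (q : Q4) : app sR (app sR' q) = q := by
  rw [app_sR, app_sR']
  funext i
  fin_cases i
  · show ⁅q 1 * (q 0)⁻¹ * (q 1)⁻¹, ⁅q 1, q 0⁆ * (q 1)⁻¹⁆ * (q 1 * (q 0)⁻¹ * (q 1)⁻¹)⁻¹ = q 0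
    rw [commutatorElement_def, commutatorElement_def]
    group
  · show q 1 * (q 0)⁻¹ * (q 1)⁻¹ * (⁅q 1, q 0⁆ * (q 1)⁻¹)⁻¹ * (q 1 * (q 0)⁻¹ * (q 1)⁻¹)⁻¹ = q 1
    rw [commutatorElement_def]
    group
  all_goals rfl

theorem HC_sA1 {q : Q4} (hq : InDd q) (h0 : Fx q 0) (k : ℤ) (h : HC (app (sA1 k) q)) : HC q := by
  refine HC_app (sA1 k) (sA1 (-k)) (fun q => A3_sA1 q k (-k) (by ring))
    (fun q => A3_sA1 q (-k) k (by ring)) (fun q => ?_) hq h0 h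
  rw [app_sA1]
  show ⁅q 0 * q 1 ^ k, q 1⁆ * ⁅q 2, q 3⁆ = ⁅q 0, q 1⁆ * ⁅q 2, q 3⁆
  rw [commutatorElement_def, commutatorElement_def]
  group

theorem HC_sB2 {q : Q4} (hq : InDd q) (h0 : Fx q 0) (k : ℤ) (h : HC (app (sB2 k) q)) : HC q := by
  refine HC_app (sB2 k) (sB2 (-k)) (fun q => A3_sB2 q k (-k) (by ring))
    (fun q => A3_sB2 q (-k) k (by ring)) (fun q => ?_) hq h0 h
  rw [app_sB2]
  show ⁅q 0, q 1⁆ * ⁅q 2, q 3 * q 2 ^ k⁆ = ⁅q 0, q 1⁆ * ⁅q 2, q 3⁆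
  rw [commutatorElement_def (q 2), commutatorElement_def (q 2)]
  group

theorem HC_sA2 {q : Q4} (hq : InDd q) (h0 : Fx q 0) (k : ℤ) (h : HC (app (sA2 k) q)) : HC q := by
  refine HC_app (sA2 k) (sA2 (-k)) (fun q => A3_sA2 q k (-k) (by ring))
    (fun q => A3_sA2 q (-k) k (by ring)) (fun q => ?_) hq h0 h
  rw [app_sA2]
  show ⁅q 0, q 1⁆ * ⁅q 2 * q 3 ^ k, q 3⁆ = ⁅q 0, q 1⁆ * ⁅q 2, q 3⁆
  rw [commutatorElement_def _ (q 3), commutatorElement_def _ (q 3)]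
  group

theorem A3_wM {G : Type} [Group G] (a b a₂ b₂ c : G) (k : ℤ) (hc : c = b⁻¹ * a₂ * b₂ * a₂⁻¹) :
    ⁅a * c ^ k, c ^ (-k) * b * c ^ k⁆ * ⁅c ^ (-k) * a₂, b₂⁆ = ⁅a, b⁆ * ⁅a₂, b₂⁆ := by
  have h1 : ⁅a * c ^ k, c ^ (-k) * b * c ^ k⁆ * ⁅c ^ (-k) * a₂, b₂⁆ =
      a * b * a⁻¹ * (c ^ (-k) * (b⁻¹ * a₂ * b₂ * a₂⁻¹) * c ^ k) * b₂⁻¹ := by
    rw [commutatorElement_def, commutatorElement_def, zpow_neg]
    group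
  rw [h1, ← hc, ← zpow_add_one, ← zpow_add, commutatorElement_def, commutatorElement_def]
  have h2 : -k + 1 + k = 1 := by ring
  rw [h2, zpow_one, hc]
  group

theorem HC_sM {q : Q4} (hq : InDd q) (h0 : Fx q 0) (k : ℤ) (h : HC (app (sM k) q)) : HC q := by
  refine HC_app (sM k) (sM (-k)) (fun q => A3_sM q k (-k) (by ring))
    (fun q => A3_sM q (-k) k (by ring)) (fun q => ?_) hq h0 h
  rw [app_sM]
  exact A3_wM (q 0) (q 1) (q 2) (q 3) _ k rfl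

theorem HC_sR {q : Q4} (hq : InDd q) (h0 : Fx q 0) (h : HC (app sR q)) : HC q := by
  refine HC_app sR sR' A3_sR A3_sR' (fun q => ?_) hq h0 h
  rw [app_sR]
  show ⁅⁅q 0, q 1⁆ * (q 0)⁻¹, q 0 * (q 1)⁻¹ * (q 0)⁻¹⁆ * ⁅q 2, q 3⁆ = ⁅q 0, q 1⁆ * ⁅q 2, q 3⁆
  congr 1
  rw [commutatorElement_def, commutatorElement_def (q 0)]
  group

theorem app_mem {q : Q4} (hq : InDd q) (s : Fin 4 → FreeGroup (Fin 4)) : InDd (app s q) :=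
  fun i => ev_mem hq (s i)

theorem app_fix {q : Q4} {x : ℝ} (hx : Fx q x) (s : Fin 4 → FreeGroup (Fin 4)) : Fx (app s q) x :=
  fun i => ev_fix hx (s i)

/-- `g` fixes `0` and the logarithm of its multiplier there is `v`. -/
def A3Mu (g : ℝ ≃o ℝ) (v : ℝ) : Prop := g ∈ Dd ∧ g 0 = 0 ∧ LD g 0 = v

theorem A3Mu_mul {g h : ℝ ≃o ℝ} {v w : ℝ} (hg : A3Mu g v) (hh : A3Mu h w) :
    A3Mu (g * h) (v + w) := by
  refine ⟨Dd.mul_mem hg.1 hh.1, ?_, ?_⟩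
  · show g (h 0) = 0
    rw [hh.2.1, hg.2.1]
  · rw [LD_mul hg.1 hh.1, hh.2.1, hg.2.2, hh.2.2]

theorem A3Mu_inv {g : ℝ ≃o ℝ} {v : ℝ} (hg : A3Mu g v) : A3Mu g⁻¹ (-v) := by
  have h0 : g⁻¹ 0 = 0 := by
    have h1 : g⁻¹ (g 0) = 0 := g.symm_apply_apply 0
    rwa [hg.2.1] at h1
  refine ⟨Dd.inv_mem hg.1, h0, ?_⟩
  rw [LD_inv hg.1, h0, hg.2.2]

theorem A3Mu_one : A3Mu 1 0 := ⟨Dd.one_mem, rfl, LD_one 0⟩

theorem A3Mu_pow {g : ℝ ≃o ℝ} {v : ℝ} (hg : A3Mu g v) (n : ℕ) : A3Mu (g ^ n) (n * v) := by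
  induction n with
  | zero =>
    rw [pow_zero, Nat.cast_zero, zero_mul]
    exact A3Mu_one
  | succ n ih =>
    rw [pow_succ, Nat.cast_succ, add_mul, one_mul]
    exact A3Mu_mul ih hg

theorem A3Mu_zpow {g : ℝ ≃o ℝ} {v : ℝ} (hg : A3Mu g v) (k : ℤ) : A3Mu (g ^ k) (k * v) := by
  obtain ⟨n, hn | hn⟩ := k.eq_nat_or_neg
  · subst hn
    rw [zpow_natCast, Int.cast_natCast]
    exact A3Mu_pow hg n
  · subst hn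
    rw [zpow_neg, zpow_natCast, Int.cast_neg, Int.cast_natCast, neg_mul]
    exact A3Mu_inv (A3Mu_pow hg n)

theorem A3_pos (h : LemH0) {q : Q4} (hq : InDd q) (h0 : Fx q 0) (hl : 0 < LD (q 0) 0) :
    HC q := by
  by_cases h2 : LD (q 2) 0 = 0
  · by_cases h3 : LD (q 3) 0 = 0
    · exact h q hq h0 hl (Or.inr ⟨h2, h3⟩)
    · refine HC_sA2 hq h0 1 (h _ (app_mem hq _) (app_fix h0 _) ?_ (Or.inl ?_))
      · rw [app_sA2]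
        exact hl
      · rw [app_sA2]
        show LD (q 2 * q 3 ^ (1 : ℤ)) 0 ≠ 0
        have h4 : A3Mu (q 2 * q 3 ^ (1 : ℤ)) (LD (q 2) 0 + ((1 : ℤ) : ℝ) * LD (q 3) 0) :=
          A3Mu_mul ⟨hq 2, h0 2, rfl⟩ (A3Mu_zpow ⟨hq 3, h0 3, rfl⟩ 1)
        rw [h4.2.2, h2]
        push_cast
        rw [zero_add, one_mul]
        exact h3
  · exact h q hq h0 hl (Or.inl h2)

theorem A3_ne (h : LemH0) {q : Q4} (hq : InDd q) (h0 : Fx q 0) (hl : LD (q 0) 0 ≠ 0) :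
    HC q := by
  rcases lt_or_gt_of_ne hl with h1 | h1
  · refine HC_sR hq h0 (A3_pos h (app_mem hq _) (app_fix h0 _) ?_)
    rw [app_sR]
    show 0 < LD (⁅q 0, q 1⁆ * (q 0)⁻¹) 0
    have e0 : A3Mu (q 0) (LD (q 0) 0) := ⟨hq 0, h0 0, rfl⟩
    have e1 : A3Mu (q 1) (LD (q 1) 0) := ⟨hq 1, h0 1, rfl⟩
    have e2 := A3Mu_mul (A3Mu_mul (A3Mu_mul (A3Mu_mul e0 e1) (A3Mu_inv e0)) (A3Mu_inv e1))
      (A3Mu_inv e0)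
    rw [commutatorElement_def, e2.2.2]
    linarith
  · exact A3_pos h hq h0 h1

/-- Lemma H follows from the normalised case. -/
theorem LemH_of_LemH0 (h : LemH0) : LemH := by
  intro q hq h0 hi
  set v0 := LD (q 0) 0 with hv0
  set v1 := LD (q 1) 0 with hv1
  set v2 := LD (q 2) 0 with hv2
  set v3 := LD (q 3) 0 with hv3
  have e0 : A3Mu (q 0) v0 := ⟨hq 0, h0 0, rfl⟩
  have e1 : A3Mu (q 1) v1 := ⟨hq 1, h0 1, rfl⟩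
  have e2 : A3Mu (q 2) v2 := ⟨hq 2, h0 2, rfl⟩
  have e3 : A3Mu (q 3) v3 := ⟨hq 3, h0 3, rfl⟩
  obtain ⟨t, ht⟩ : ∃ t : ℤ, v0 + t * (v3 - v1) + (t : ℝ) ^ 2 * v2 + (t : ℝ) ^ 3 * v1 ≠ 0 := by
    by_contra hno
    push Not at hno
    have t0 := hno 0
    have t1 := hno 1
    have t2 := hno 2
    have t3 := hno 3
    push_cast at t0 t1 t2 t3
    have z0 : v0 = 0 := by linarith
    have z1 : v1 = 0 := by linarith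
    have z2 : v2 = 0 := by linarith
    have z3 : v3 = 0 := by linarith
    obtain ⟨i, hi⟩ := hi
    fin_cases i
    · exact hi z0
    · exact hi z1
    · exact hi z2
    · exact hi z3
  refine HC_sB2 hq h0 t ?_
  refine HC_sM (app_mem hq _) (app_fix h0 _) t ?_
  refine HC_sA1 (app_mem (app_mem hq _) _) (app_fix (app_fix h0 _) _) (t ^ 3) ?_
  refine A3_ne h (app_mem (app_mem (app_mem hq _) _) _)
    (app_fix (app_fix (app_fix h0 _) _) _) ?_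
  rw [app_sB2, app_sM, app_sA1]
  show LD (q 0 * ((q 1)⁻¹ * q 2 * (q 3 * q 2 ^ t) * (q 2)⁻¹) ^ t *
    (((q 1)⁻¹ * q 2 * (q 3 * q 2 ^ t) * (q 2)⁻¹) ^ (-t) * q 1 *
      ((q 1)⁻¹ * q 2 * (q 3 * q 2 ^ t) * (q 2)⁻¹) ^ t) ^ (t ^ 3)) 0 ≠ 0
  have c0 := A3Mu_mul (A3Mu_mul (A3Mu_mul (A3Mu_inv e1) e2) (A3Mu_mul e3 (A3Mu_zpow e2 t)))
    (A3Mu_inv e2)
  have c1 := A3Mu_mul (A3Mu_mul e0 (A3Mu_zpow c0 t))
    (A3Mu_zpow (A3Mu_mul (A3Mu_mul (A3Mu_zpow c0 (-t)) e1) (A3Mu_zpow c0 t)) (t ^ 3))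
  rw [c1.2.2]
  intro h1
  apply ht
  push_cast at h1
  linear_combination h1

end Pool.Agent.helper32.FolG
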