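import Pool.Agent.helper32.FolG.Base

/-!
# FOL, G-B1: an interval of common fixed points
-/

open Set Filter Topology

namespace Pool.Agent.helper32.FolG

open Pool.Agent.helper35.FOL

/-- A bump diffeomorphism: identity outside `(c,d)`, without fixed point in `(c,d)`, `C¹`-small. -/
theorem exists_bump {c d : ℝ} (hcd : c < d) {ε : ℝ} (hε : 0 < ε) :
    ∃ g : ℝ ≃o ℝ, g ∈ Dd ∧ (∀ x, x ≤ c ∨ d ≤ x → g x = x) ∧ (∀ x, c < x → x < d → x < g x) ∧
      ∀ x, |LD g x| ≤ ε := by
  obtain ⟨φ, hφc, hφ0, hφpos, hφ⟩ : ∃ φ : ℝ → ℝ, ContDiff ℝ 1 φ ∧ (∀ x, x ≤ c ∨ d ≤ x → φ x = 0) ∧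
      (∀ x, c < x → x < d → 0 < φ x) ∧ ∃ M : ℝ, 0 < M ∧ ∀ x, |deriv φ x| ≤ M := by
    let f : ContDiffBump ((c + d) / 2) := ⟨(d - c) / 4, (d - c) / 2, by linarith, by linarith⟩
    have hc : ContDiff ℝ 1 (fun x => f x) := f.contDiff
    refine ⟨fun x => f x, hc, ?_, ?_, ?_⟩
    · intro x hx
      refine f.zero_of_le_dist ?_
      change (d - c) / 2 ≤ dist x ((c + d) / 2)
      rw [Real.dist_eq]
      rcases hx with hx | hx
      · rw [abs_of_nonpos (by linarith)]
        linarith
      · rw [abs_of_nonneg (by linarith)]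
        linarith
    · intro x h1 h2
      refine f.pos_of_mem_ball ?_
      rw [Metric.mem_ball, Real.dist_eq]
      change |x - (c + d) / 2| < (d - c) / 2
      rw [abs_lt]
      constructor <;> linarith
    · have hcs : HasCompactSupport (deriv fun x => f x) := f.hasCompactSupport.deriv
      obtain ⟨M, hM⟩ := hcs.exists_bound_of_continuous (hc.continuous_deriv le_rfl)
      refine ⟨|M| + 1, by positivity, fun x => ?_⟩
      have h1 := hM x
      rw [Real.norm_eq_abs] at h1
      have h2 := le_abs_self M
      linarith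
  obtain ⟨M, hM0, hM⟩ := hφ
  have hκ0 : Real.exp (-ε) < 1 := by
    rw [Real.exp_lt_one_iff]
    linarith
  set κ : ℝ := 1 - Real.exp (-ε) with hκ
  have hκpos : 0 < κ := by linarith
  have hκ1 : κ < 1 := by
    have := Real.exp_pos (-ε)
    linarith
  set t : ℝ := κ / M with ht
  have ht0 : 0 < t := div_pos hκpos hM0
  have hder : ∀ x, HasDerivAt (fun x => x + t * φ x) (1 + t * deriv φ x) x := fun x =>
    (hasDerivAt_id x).add (((hφc.differentiable one_ne_zero x).hasDerivAt).const_mul t)
  have hdd : ∀ x, deriv (fun x => x + t * φ x) x = 1 + t * deriv φ x := fun x => (hder x).deriv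
  have hbd : ∀ x, |t * deriv φ x| ≤ κ := by
    intro x
    rw [abs_mul, abs_of_pos ht0]
    calc t * |deriv φ x| ≤ t * M := mul_le_mul_of_nonneg_left (hM x) ht0.le
      _ = κ := by rw [ht]; field_simp
  have hpos : ∀ x, 0 < 1 + t * deriv φ x := by
    intro x
    have := (abs_le.1 (hbd x)).1
    linarith
  have hmono : StrictMono fun x => x + t * φ x :=
    strictMono_of_deriv_pos fun x => by rw [hdd]; exact hpos x
  have hφnn : ∀ x, 0 ≤ φ x := by
    intro x
    by_cases h1 : c < x
    · by_cases h2 : x < d
      · exact (hφpos x h1 h2).le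
      · exact (hφ0 x (Or.inr (not_lt.1 h2))).ge
    · exact (hφ0 x (Or.inl (not_lt.1 h1))).ge
  have hcd1 : ContDiff ℝ 1 fun x => x + t * φ x := contDiff_id.add (contDiff_const.mul hφc)
  have hsurj : Function.Surjective fun x => x + t * φ x := by
    refine hcd1.continuous.surjective ?_ ?_
    · refine tendsto_atTop_mono (fun x => ?_) tendsto_id
      have := mul_nonneg ht0.le (hφnn x)
      change x ≤ x + t * φ x
      linarith
    · refine Tendsto.congr' ?_ tendsto_id
      filter_upwards [eventually_le_atBot c] with x hx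
      rw [hφ0 x (Or.inl hx), mul_zero, add_zero]
      rfl
  have hcoe : ∀ x, (StrictMono.orderIsoOfSurjective _ hmono hsurj) x = x + t * φ x := fun _ => rfl
  have hcoe' : ⇑(StrictMono.orderIsoOfSurjective _ hmono hsurj) = fun x => x + t * φ x := rfl
  refine ⟨StrictMono.orderIsoOfSurjective _ hmono hsurj, ⟨?_, ?_⟩, ?_, ?_, ?_⟩
  · rw [hcoe']
    exact hcd1
  · intro x
    rw [hcoe', hdd]
    exact hpos x
  · intro x hx
    rw [hcoe, hφ0 x hx, mul_zero, add_zero]
  · intro x h1 h2
    rw [hcoe]
    have := mul_pos ht0 (hφpos x h1 h2)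
    linarith
  · intro x
    unfold LD
    rw [hcoe', hdd]
    have h1 := abs_le.1 (hbd x)
    rw [abs_le]
    constructor
    · rw [Real.le_log_iff_exp_le (hpos x)]
      linarith
    · rw [Real.log_le_iff_le_exp (hpos x)]
      have h3 : 2 ≤ Real.exp ε + Real.exp (-ε) := by
        have h4 := Real.add_one_le_exp ε
        have h5 := Real.add_one_le_exp (-ε)
        linarith
      linarith

/-- If `[c,d]` consists of common fixed points then a small change of `a₁` inside `(c,d)`
removes all of them and does not change the product of the commutators. -/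
theorem caseO {q : Q4} (hq : InDd q) {c d : ℝ} (hcd : c < d) (hf : ∀ x, c ≤ x → x ≤ d → Fx q x)
    {ε : ℝ} (hε : 0 < ε) : ∃ q' : Q4, InDd q' ∧ (∀ i x, x ≤ c ∨ d ≤ x → q' i x = q i x) ∧
      (∀ i x, |LD (q' i) x - LD (q i) x| ≤ ε) ∧ wrd q' = wrd q ∧
      ∀ x, c < x → x < d → ¬ Fx q' x := by
  classical
  obtain ⟨g, hg, hout, hin, hLD⟩ := exists_bump hcd hε
  have hgc : g c = c := hout c (Or.inl le_rfl)
  have hgd : g d = d := hout d (Or.inr le_rfl)
  have hqid : ∀ i x, c ≤ x → x ≤ d → q i x = x := fun i x h1 h2 => hf x h1 h2 i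
  have hcomm : g * q 1 = q 1 * g := by
    ext x
    change g (q 1 x) = q 1 (g x)
    rcases lt_or_ge x c with h | h
    · have h1 : q 1 x < c := by
        have := (q 1).strictMono h
        rwa [hqid 1 c le_rfl hcd.le] at this
      rw [hout _ (Or.inl h1.le), hout _ (Or.inl h.le)]
    · rcases lt_or_ge d x with h' | h'
      · have h1 : d < q 1 x := by
          have := (q 1).strictMono h'
          rwa [hqid 1 d hcd.le le_rfl] at this
        rw [hout _ (Or.inr h1.le), hout _ (Or.inr h'.le)]
      · rw [hqid 1 x h h', hqid 1 (g x)]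
        · rw [← hgc]
          exact g.monotone h
        · rw [← hgd]
          exact g.monotone h'
  refine ⟨Function.update q 0 (q 0 * g), ?_, ?_, ?_, ?_, ?_⟩
  · intro i
    by_cases hi : i = 0
    · subst hi
      rw [Function.update_self]
      exact Dd.mul_mem (hq 0) hg
    · rw [Function.update_of_ne hi]
      exact hq i
  · intro i x hx
    by_cases hi : i = 0
    · subst hi
      rw [Function.update_self]
      change q 0 (g x) = q 0 x
      rw [hout x hx]
    · rw [Function.update_of_ne hi]
  · intro i x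
    by_cases hi : i = 0
    · subst hi
      rw [Function.update_self, LD_mul (hq 0) hg]
      by_cases hx : c < x ∧ x < d
      · have e1 : ∀ y, c < y → y < d → LD (q 0) y = 0 := by
          intro y h1 h2
          rw [LD_congr (g := q 0) (h := 1) isOpen_Ioo (fun z hz => hqid 0 z hz.1.le hz.2.le)
            (⟨h1, h2⟩ : y ∈ Ioo c d), LD_one]
        rw [e1 x hx.1 hx.2, e1 (g x)]
        · rw [zero_add, sub_zero]
          exact hLD x
        · rw [← hgc]
          exact g.strictMono hx.1
        · rw [← hgd]
          exact g.strictMono hx.2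
      · have hx' : x ≤ c ∨ d ≤ x := by
          by_contra hcon
          push Not at hcon
          exact hx hcon
        rw [hout x hx']
        have : LD (q 0) x + LD g x - LD (q 0) x = LD g x := by ring
        rw [this]
        exact hLD x
    · rw [Function.update_of_ne hi, sub_self, abs_zero]
      exact hε.le
  · unfold wrd
    rw [Function.update_self, Function.update_of_ne (by decide), Function.update_of_ne (by decide),
      Function.update_of_ne (by decide)]
    congr 1
    rw [commutatorElement_def, commutatorElement_def, mul_assoc (q 0) g (q 1), hcomm, mul_inv_rev]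
    group
  · intro x h1 h2 hfx
    have h3 := hfx 0
    rw [Function.update_self] at h3
    have h4 : q 0 (g x) = x := h3
    rw [hqid 0 (g x)] at h4
    · exact (hin x h1 h2).ne' h4
    · rw [← hgc]
      exact g.monotone h1.le
    · rw [← hgd]
      exact g.monotone h2.le

end Pool.Agent.helper32.FolG
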