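import Pool.Agent.helper32.FolG.Base

/-!
# FOL, G-B2: Lemma H at a point `p`
-/

open Set Filter Topology
open scoped commutatorElement

namespace Pool.Agent.helper32.FolG

open Pool.Agent.helper35.FOL

/-- A common fixed point with a multiplier different from one is isolated. -/
theorem isolated {q : Q4} (hq : InDd q) {p : ℝ} (hp : Fx q p) (hi : ∃ i, LD (q i) p ≠ 0) :
    ∃ ρ : ℝ, 0 < ρ ∧ ∀ x, |x - p| < ρ → x ≠ p → ¬ Fx q x := by
  obtain ⟨i, hi⟩ := hi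
  have hne : deriv (q i) p ≠ 1 := by
    intro h
    apply hi
    unfold LD
    rw [h, Real.log_one]
  have h1 : Tendsto (slope (q i) p) (𝓝[≠] p) (𝓝 (deriv (q i) p)) :=
    hasDerivAt_iff_tendsto_slope.mp (hasDeriv (hq i) p)
  have h2 := h1.eventually_ne hne
  rw [eventually_nhdsWithin_iff, Metric.eventually_nhds_iff] at h2
  obtain ⟨ρ, hρ, h3⟩ := h2
  refine ⟨ρ, hρ, fun x hx hxp hF => ?_⟩
  have h4 := h3 (y := x) (by rwa [Real.dist_eq]) hxp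
  apply h4
  rw [slope_def_field, hF i, hp i]
  exact div_self (sub_ne_zero.mpr hxp)

/-- The translation by `p`. -/
def B2_tr (p : ℝ) : ℝ ≃o ℝ := OrderIso.addRight p

theorem B2_tr_apply (p x : ℝ) : B2_tr p x = x + p := rfl

theorem B2_tr_inv_apply (p x : ℝ) : (B2_tr p)⁻¹ x = x - p := by
  have h1 : (B2_tr p)⁻¹ (B2_tr p (x - p)) = x - p := (B2_tr p).symm_apply_apply _
  rw [B2_tr_apply, sub_add_cancel] at h1
  exact h1

theorem B2_tr_deriv (p x : ℝ) : deriv (B2_tr p) x = 1 := by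
  have h1 : (⇑(B2_tr p)) = fun x => x + p := rfl
  rw [h1]
  simp

theorem B2_tr_mem (p : ℝ) : B2_tr p ∈ Dd := by
  refine ⟨?_, fun x => ?_⟩
  · have h1 : (⇑(B2_tr p)) = fun x => x + p := rfl
    rw [h1]
    exact contDiff_id.add contDiff_const
  · rw [B2_tr_deriv]
    exact one_pos

theorem B2_tr_LD (p x : ℝ) : LD (B2_tr p) x = 0 := by
  unfold LD
  rw [B2_tr_deriv, Real.log_one]

/-- The conjugate by the translation. -/
def B2_dn (p : ℝ) (g : ℝ ≃o ℝ) : ℝ ≃o ℝ := (B2_tr p)⁻¹ * g * B2_tr p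

/-- The conjugate by the inverse translation. -/
def B2_up (p : ℝ) (g : ℝ ≃o ℝ) : ℝ ≃o ℝ := B2_tr p * g * (B2_tr p)⁻¹

theorem B2_dn_apply (p : ℝ) (g : ℝ ≃o ℝ) (x : ℝ) : B2_dn p g x = g (x + p) - p :=
  B2_tr_inv_apply p _

theorem B2_up_apply (p : ℝ) (g : ℝ ≃o ℝ) (x : ℝ) : B2_up p g x = g (x - p) + p := by
  have h1 : B2_up p g x = g ((B2_tr p)⁻¹ x) + p := rfl
  rw [h1, B2_tr_inv_apply]

theorem B2_dn_mem {p : ℝ} {g : ℝ ≃o ℝ} (hg : g ∈ Dd) : B2_dn p g ∈ Dd :=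
  Dd.mul_mem (Dd.mul_mem (Dd.inv_mem (B2_tr_mem p)) hg) (B2_tr_mem p)

theorem B2_up_mem {p : ℝ} {g : ℝ ≃o ℝ} (hg : g ∈ Dd) : B2_up p g ∈ Dd :=
  Dd.mul_mem (Dd.mul_mem (B2_tr_mem p) hg) (Dd.inv_mem (B2_tr_mem p))

theorem B2_dn_LD {p : ℝ} {g : ℝ ≃o ℝ} (hg : g ∈ Dd) (x : ℝ) : LD (B2_dn p g) x = LD g (x + p) := by
  unfold B2_dn
  rw [LD_mul (Dd.mul_mem (Dd.inv_mem (B2_tr_mem p)) hg) (B2_tr_mem p),
    LD_mul (Dd.inv_mem (B2_tr_mem p)) hg, B2_tr_LD, LD_inv (B2_tr_mem p), B2_tr_LD, B2_tr_apply]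
  ring

theorem B2_up_LD {p : ℝ} {g : ℝ ≃o ℝ} (hg : g ∈ Dd) (x : ℝ) : LD (B2_up p g) x = LD g (x - p) := by
  unfold B2_up
  rw [LD_mul (Dd.mul_mem (B2_tr_mem p) hg) (Dd.inv_mem (B2_tr_mem p)), LD_mul (B2_tr_mem p) hg,
    B2_tr_LD, LD_inv (B2_tr_mem p), B2_tr_LD, B2_tr_inv_apply]
  ring

theorem B2_wrd_dn (p : ℝ) (q : Q4) :
    wrd (fun i => B2_dn p (q i)) = (B2_tr p)⁻¹ * wrd q * B2_tr p := by
  simp only [wrd, B2_dn, commutatorElement_def]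
  group

theorem B2_wrd_up (p : ℝ) (q : Q4) :
    wrd (fun i => B2_up p (q i)) = B2_tr p * wrd q * (B2_tr p)⁻¹ := by
  simp only [wrd, B2_up, commutatorElement_def]
  group

/-- Lemma H at the point `p`. -/
theorem lemH_at (hH : LemH) {q : Q4} (hq : InDd q) {p : ℝ} (hp : Fx q p)
    (hi : ∃ i, LD (q i) p ≠ 0) {ε r : ℝ} (hε : 0 < ε) (hr : 0 < r) :
    ∃ q' : Q4, InDd q' ∧ (∀ i x, r ≤ |x - p| → q' i x = q i x) ∧
      (∀ i x, |LD (q' i) x - LD (q i) x| ≤ ε) ∧ wrd q' = wrd q ∧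
      ∀ x, Fx q' x → Fx q x ∧ x ≠ p := by
  set q0 : Q4 := fun i => B2_dn p (q i) with hq0
  have h0 : InDd q0 := fun i => B2_dn_mem (hq i)
  have hF0 : Fx q0 0 := by
    intro i
    rw [hq0]
    simp only
    rw [B2_dn_apply, zero_add, hp i, sub_self]
  have hi0 : ∃ i, LD (q0 i) 0 ≠ 0 := by
    obtain ⟨i, hi⟩ := hi
    refine ⟨i, ?_⟩
    rw [hq0]
    simp only
    rw [B2_dn_LD (hq i), zero_add]
    exact hi
  obtain ⟨q0', hN, hw, hfx⟩ := hH q0 h0 hF0 hi0 ε hε r hr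
  refine ⟨fun i => B2_up p (q0' i), fun i => B2_up_mem (hN i).1, fun i x hx => ?_,
    fun i x => ?_, ?_, fun x hx => ?_⟩
  · simp only
    rw [B2_up_apply, (hN i).2.1 _ hx, hq0]
    simp only
    rw [B2_dn_apply, sub_add_cancel, sub_add_cancel]
  · simp only
    rw [B2_up_LD (hN i).1]
    have h1 := (hN i).2.2 (x - p)
    rw [hq0] at h1
    simp only at h1
    rwa [B2_dn_LD (hq i), sub_add_cancel] at h1
  · rw [B2_wrd_up, hw, hq0, B2_wrd_dn]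
    group
  · have h1 : Fx q0' (x - p) := by
      intro i
      have h2 := hx i
      simp only at h2
      rw [B2_up_apply] at h2
      linarith
    obtain ⟨h2, h3⟩ := hfx _ h1
    refine ⟨fun i => ?_, fun h4 => h3 (by rw [h4, sub_self])⟩
    have h4 := h2 i
    rw [hq0] at h4
    simp only at h4
    rw [B2_dn_apply, sub_add_cancel] at h4
    linarith

end Pool.Agent.helper32.FolG
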