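import Pool.Agent.helper97.FG.B2
import Pool.Agent.helper97.FG.B1b

set_option linter.unusedVariables false

open Set Filter Topology
open scoped commutatorElement
open Pool.Agent.helper35.FOL

namespace FGbot

open FG

variable {g h : ℝ ≃o ℝ} {w w₁ w₂ φ : ℝ → ℝ}

/-- composition -/
theorem Mod.LD_mul (hg : g ∈ Dd) (hh : h ∈ Dd) (hw : IsMod w₁) (h₁ : Mod (LD g) w₁)
    (h₂ : Mod (LD h) w₂) {c : ℝ} (hc : ∀ x, LD h x ≤ c) :
    Mod (LD (g * h)) (fun r => w₁ (Real.exp c * r) + w₂ r) := by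
  intro x y
  rw [FG.LD_mul hg hh, FG.LD_mul hg hh]
  have e1 : LD g (h x) + LD h x - (LD g (h y) + LD h y) =
      (LD g (h x) - LD g (h y)) + (LD h x - LD h y) := by ring
  rw [e1]
  refine (abs_add_le _ _).trans (add_le_add ?_ (h₂ x y))
  exact (h₁ _ _).trans (hw.mono (abs_sub_le_exp hh fun z _ => hc z))

/-- inverse -/
theorem Mod.LD_inv (hg : g ∈ Dd) (hw : IsMod w) (h : Mod (LD g) w) {c : ℝ} (hc : ∀ x, -c ≤ LD g x) :
    Mod (LD g⁻¹) (fun r => w (Real.exp c * r)) := by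
  intro x y
  rw [FG.LD_inv hg, FG.LD_inv hg]
  have e1 : -LD g (g⁻¹ x) - -LD g (g⁻¹ y) = -(LD g (g⁻¹ x) - LD g (g⁻¹ y)) := by ring
  rw [e1, abs_neg]
  refine (h _ _).trans (hw.mono (abs_sub_le_exp (Dd.inv_mem hg) fun z _ => ?_))
  rw [FG.LD_inv hg]
  linarith [hc (g⁻¹ z)]

/-- conjugation by a fixed diffeomorphism does not increase the coefficient: if `LD g` has modulus `w` then
`LD (a g b)` has modulus `w₀ + w (c ·)` with `w₀` depending only on `a, b` and a bound of `LD g` -/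
theorem exists_Mod_conj {a b : ℝ ≃o ℝ} (ha : a ∈ Dd) (hb : b ∈ Dd) (hau : ∃ w, IsMod w ∧ Mod (LD a) w)
    (hbu : ∃ w, IsMod w ∧ Mod (LD b) w) (B : ℝ) : ∃ w₀ c, IsMod w₀ ∧ 0 ≤ c ∧ ∀ g ∈ Dd,
      (∀ x, |LD g x| ≤ B) → ∀ w, IsMod w → Mod (LD g) w →
        Mod (LD (a * g * b)) (fun r => w₀ r + w (c * r)) := by
  obtain ⟨wa, hwa, hma⟩ := hau
  obtain ⟨wb, hwb, hmb⟩ := hbu
  obtain ⟨Bb, hBb⟩ := hwb.bdd
  have hcb : ∀ x, LD b x ≤ LD b 0 + Bb := by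
    intro x
    have h1 := (abs_le.1 ((hmb x 0).trans (hBb _))).2
    linarith
  refine ⟨fun r => wa (Real.exp (B + (LD b 0 + Bb)) * r) + wb r, Real.exp (LD b 0 + Bb),
    (hwa.comp_mul (Real.exp_pos _).le).add hwb, (Real.exp_pos _).le, ?_⟩
  intro g hg hgB w hw hgw
  have h1 := Mod.LD_mul hg hb hw hgw hmb hcb
  have h2 : ∀ x, LD (g * b) x ≤ B + (LD b 0 + Bb) := by
    intro x
    rw [FG.LD_mul hg hb]
    linarith [(abs_le.1 (hgB (b x))).2, hcb x]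
  have h3 := Mod.LD_mul ha (Dd.mul_mem hg hb) hwa hma h1 h2
  rw [mul_assoc]
  exact h3.mono fun x _ => by linarith

end FGbot
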