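import Pool.Agent.helper32.FolG.Base

/-!
# FOL, G-B3: the parabolic case from Lemma N
-/

open Set Filter Topology

namespace Pool.Agent.helper32.FolG

open Pool.Agent.helper35.FOL

/-- A fine subdivision of `[α,β]` by points which are not common fixed points. -/
theorem exists_subdivision {q : Q4} (hq : InDd q) {α β : ℝ} (hαβ : α < β) (hα : ¬ Fx q α)
    (hβ : ¬ Fx q β) (he : ∀ c d, α < c → c < d → d < β → ∃ x, c < x ∧ x < d ∧ ¬ Fx q x)
    {δ : ℝ} (hδ : 0 < δ) : ∃ (m : ℕ) (s : ℕ → ℝ), s 0 = α ∧ s m = β ∧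
      (∀ j, j < m → s j < s (j + 1) ∧ s (j + 1) - s j ≤ δ) ∧ ∀ j, j ≤ m → ¬ Fx q (s j) := by
  have _ := hq
  obtain ⟨n, hn⟩ := exists_nat_gt (2 * (β - α) / δ)
  have hn0 : (0 : ℝ) < n := lt_trans (by have := sub_pos.2 hαβ; positivity) hn
  have hnpos : 0 < n := by exact_mod_cast hn0
  set h : ℝ := (β - α) / n with hh
  have hh0 : 0 < h := div_pos (sub_pos.2 hαβ) hn0
  have hhδ : 2 * h ≤ δ := by
    rw [div_lt_iff₀ hδ] at hn
    rw [hh, ← mul_div_assoc, div_le_iff₀ hn0]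
    linarith [mul_comm (n : ℝ) δ]
  have hnh : α + n * h = β := by
    rw [hh]; field_simp; ring
  have key : ∀ j : ℕ, 0 < j → j < n → ∃ x, α + j * h < x ∧ x < α + j * h + h / 2 ∧ ¬ Fx q x := by
    intro j hj hjn
    have h1 : (0 : ℝ) < j * h := mul_pos (by exact_mod_cast hj) hh0
    have h2 : ((j : ℝ) + 1) * h ≤ n * h :=
      mul_le_mul_of_nonneg_right (by exact_mod_cast hjn) hh0.le
    refine he _ _ (by linarith) (by linarith) (by linarith)
  choose! f hf using key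
  obtain ⟨F, hF⟩ : ∃ F : ℕ → ℝ, ∀ j, F j = if j = 0 then α else if j < n then f j else β :=
    ⟨_, fun _ => rfl⟩
  have lo : ∀ j : ℕ, j ≤ n → α + j * h ≤ F j ∧ F j ≤ α + j * h + h / 2 := by
    intro j hj
    rw [hF]
    by_cases h0 : j = 0
    · subst h0; simp; positivity
    · rw [if_neg h0]
      by_cases h1 : j < n
      · rw [if_pos h1]
        have := hf j (Nat.pos_of_ne_zero h0) h1
        exact ⟨this.1.le, this.2.1.le⟩
      · rw [if_neg h1]
        have : j = n := by omega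
        subst this
        rw [hnh]
        exact ⟨le_rfl, by linarith⟩
  refine ⟨n, F, by simp [hF], by simp [hF, hnpos.ne'], ?_, ?_⟩
  · intro j hj
    have h1 := lo j hj.le
    have h2 := lo (j + 1) hj
    push_cast at h2
    constructor
    · nlinarith [h1.2, h2.1]
    · nlinarith [h1.1, h2.2]
  · intro j hj
    rw [hF]
    by_cases h0 : j = 0
    · simpa [h0] using hα
    · rw [if_neg h0]
      by_cases h1 : j < n
      · rw [if_pos h1]
        exact (hf j (Nat.pos_of_ne_zero h0) h1).2.2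
      · rwa [if_neg h1]

/-- One step of the induction in `caseN`. -/
theorem caseN_step {q : Q4} {α β : ℝ}
    (hm : ∀ p, α < p → p < β → Fx q p → ∀ i, LD (q i) p = 0) {ε η δ : ℝ} (hηε : η ≤ ε / 2)
    (hN : ∀ q : Q4, InDd q → ∀ s t : ℝ, s < t →
      ¬ Fx q s → ¬ Fx q t → (∀ i x, s ≤ x → x ≤ t → |LD (q i) x| ≤ η) →
      ∃ q' : Q4, InDd q' ∧ (∀ i x, x ≤ s ∨ t ≤ x → q' i x = q i x) ∧
        (∀ i x, s ≤ x → x ≤ t → |LD (q' i) x| ≤ ε / 2) ∧ wrd q' = wrd q ∧
        ∀ x, s ≤ x → x ≤ t → ¬ Fx q' x)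
    (hδ : ∀ i x y, α ≤ x → x ≤ β → α ≤ y → y ≤ β → |x - y| ≤ δ →
      |LD (q i) x - LD (q i) y| ≤ η) {s t : ℝ} (hs : α ≤ s) (hst : s < t) (ht : t ≤ β)
    (hd : t - s ≤ δ) (hqs : ¬ Fx q s) (hqt : ¬ Fx q t) (hq : InDd q) {Q : Q4} (hQ : InDd Q)
    (hQq : ∀ i x, x ≤ α ∨ s ≤ x → Q i x = q i x)
    (hQL : ∀ i x, |LD (Q i) x - LD (q i) x| ≤ ε) (hQw : wrd Q = wrd q)
    (hQf : ∀ x, α ≤ x → x ≤ s → ¬ Fx Q x) :
    ∃ q' : Q4, InDd q' ∧ (∀ i x, x ≤ α ∨ t ≤ x → q' i x = q i x) ∧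
      (∀ i x, |LD (q' i) x - LD (q i) x| ≤ ε) ∧ wrd q' = wrd q ∧
      ∀ x, α ≤ x → x ≤ t → ¬ Fx q' x := by
  by_cases hp : ∃ p, s ≤ p ∧ p ≤ t ∧ Fx q p
  · obtain ⟨p, hp1, hp2, hp3⟩ := hp
    have hps : s < p := lt_of_le_of_ne hp1 (by rintro rfl; exact hqs hp3)
    have hpt : p < t := lt_of_le_of_ne hp2 (by rintro rfl; exact hqt hp3)
    have hL0 : ∀ i, LD (q i) p = 0 := hm p (by linarith) (by linarith) hp3
    have hsmall : ∀ i x, s ≤ x → x ≤ t → |LD (q i) x| ≤ η := by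
      intro i x hx1 hx2
      have := hδ i x p (by linarith) (by linarith) (by linarith) (by linarith)
        (by rw [abs_le]; constructor <;> linarith)
      rwa [hL0, sub_zero] at this
    have hLQ : ∀ i x, s ≤ x → LD (Q i) x = LD (q i) x := by
      intro i x hx
      refine LD_congr_closure (hQ i) (hq i) (s := Ioi s) isOpen_Ioi
        (fun y hy => hQq i y (Or.inr (le_of_lt hy))) ?_
      rw [closure_Ioi]; exact hx
    have hfx : ∀ x, s ≤ x → (Fx Q x ↔ Fx q x) := fun x hx =>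
      forall_congr' fun i => by rw [hQq i x (Or.inr hx)]
    obtain ⟨q', h1, h2, h3, h4, h5⟩ := hN Q hQ s t hst (by rw [hfx s le_rfl]; exact hqs)
      (by rw [hfx t hst.le]; exact hqt)
      (fun i x hx1 hx2 => by rw [hLQ i x hx1]; exact hsmall i x hx1 hx2)
    refine ⟨q', h1, ?_, ?_, h4.trans hQw, ?_⟩
    · rintro i x (hx | hx)
      · rw [h2 i x (Or.inl (hx.trans hs)), hQq i x (Or.inl hx)]
      · rw [h2 i x (Or.inr hx), hQq i x (Or.inr (hst.le.trans hx))]
    · intro i x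
      rcases le_total x s with hx | hx
      · have : LD (q' i) x = LD (Q i) x := by
          refine LD_congr_closure (h1 i) (hQ i) (s := Iio s) isOpen_Iio
            (fun y hy => h2 i y (Or.inl (le_of_lt hy))) ?_
          rw [closure_Iio]; exact hx
        rw [this]; exact hQL i x
      · rcases le_total t x with hx' | hx'
        · have : LD (q' i) x = LD (Q i) x := by
            refine LD_congr_closure (h1 i) (hQ i) (s := Ioi t) isOpen_Ioi
              (fun y hy => h2 i y (Or.inr (le_of_lt hy))) ?_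
            rw [closure_Ioi]; exact hx'
          rw [this]; exact hQL i x
        · have e1 := h3 i x hx hx'
          have e2 := hsmall i x hx hx'
          calc |LD (q' i) x - LD (q i) x| ≤ |LD (q' i) x| + |LD (q i) x| := abs_sub _ _
            _ ≤ ε := by linarith
    · intro x hx1 hx2
      rcases le_total x s with hx | hx
      · intro hF
        refine hQf x hx1 hx fun i => ?_
        rw [← h2 i x (Or.inl hx)]; exact hF i
      · exact h5 x hx hx2
  · push Not at hp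
    refine ⟨Q, hQ, ?_, hQL, hQw, ?_⟩
    · rintro i x (hx | hx)
      · exact hQq i x (Or.inl hx)
      · exact hQq i x (Or.inr (hst.le.trans hx))
    · intro x hx1 hx2
      rcases le_total x s with hx | hx
      · exact hQf x hx1 hx
      · intro hF
        exact hp x hx hx2 fun i => by rw [← hQq i x (Or.inr hx)]; exact hF i

/-- If all common fixed points in `(α,β)` have trivial multipliers and do not fill an interval
then they can be removed. -/
theorem caseN (hN : LemN) {q : Q4} (hq : InDd q) {α β : ℝ} (hαβ : α < β) (hα : ¬ Fx q α)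
    (hβ : ¬ Fx q β) (hm : ∀ p, α < p → p < β → Fx q p → ∀ i, LD (q i) p = 0)
    (he : ∀ c d, α < c → c < d → d < β → ∃ x, c < x ∧ x < d ∧ ¬ Fx q x) {ε : ℝ} (hε : 0 < ε) :
    ∃ q' : Q4, InDd q' ∧ (∀ i x, x ≤ α ∨ β ≤ x → q' i x = q i x) ∧
      (∀ i x, |LD (q' i) x - LD (q i) x| ≤ ε) ∧ wrd q' = wrd q ∧
      ∀ x, α ≤ x → x ≤ β → ¬ Fx q' x := by
  obtain ⟨η₀, hη₀, hN₀⟩ := hN (ε / 2) (half_pos hε)
  set η : ℝ := min η₀ (ε / 2) with hη
  have hη0 : 0 < η := lt_min hη₀ (half_pos hε)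
  have hN' : ∀ q : Q4, InDd q → ∀ s t : ℝ, s < t →
      ¬ Fx q s → ¬ Fx q t → (∀ i x, s ≤ x → x ≤ t → |LD (q i) x| ≤ η) →
      ∃ q' : Q4, InDd q' ∧ (∀ i x, x ≤ s ∨ t ≤ x → q' i x = q i x) ∧
        (∀ i x, s ≤ x → x ≤ t → |LD (q' i) x| ≤ ε / 2) ∧ wrd q' = wrd q ∧
        ∀ x, s ≤ x → x ≤ t → ¬ Fx q' x :=
    fun q h1 s t h2 h3 h4 h5 => hN₀ q h1 s t h2 h3 h4
      fun i x a b => (h5 i x a b).trans (min_le_left _ _)
  -- uniform continuity
  have huc : ∀ i, ∃ δ > 0, ∀ x y, α ≤ x → x ≤ β → α ≤ y → y ≤ β → |x - y| ≤ δ →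
      |LD (q i) x - LD (q i) y| ≤ η := by
    intro i
    have h1 : UniformContinuousOn (LD (q i)) (Icc α β) :=
      isCompact_Icc.uniformContinuousOn_of_continuous (continuous_LD (hq i)).continuousOn
    rw [Metric.uniformContinuousOn_iff] at h1
    obtain ⟨δ, hδ, h2⟩ := h1 η hη0
    refine ⟨δ / 2, half_pos hδ, fun x y a b c d e => ?_⟩
    have := h2 x ⟨a, b⟩ y ⟨c, d⟩ (by rw [Real.dist_eq]; linarith)
    rw [Real.dist_eq] at this
    exact this.le
  choose δ hδ0 hδ using huc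
  set D : ℝ := min (min (δ 0) (δ 1)) (min (δ 2) (δ 3)) with hD
  have hD0 : 0 < D := lt_min (lt_min (hδ0 0) (hδ0 1)) (lt_min (hδ0 2) (hδ0 3))
  have hDle : ∀ i, D ≤ δ i := by
    intro i
    fin_cases i
    · exact (min_le_left _ _).trans (min_le_left _ _)
    · exact (min_le_left _ _).trans (min_le_right _ _)
    · exact (min_le_right _ _).trans (min_le_left _ _)
    · exact (min_le_right _ _).trans (min_le_right _ _)
  obtain ⟨m, s, hs0, hsm, hss, hsf⟩ := exists_subdivision hq hαβ hα hβ he hD0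
  have hmono : ∀ k j, j + k ≤ m → s j ≤ s (j + k) := by
    intro k
    induction k with
    | zero => intro j _; exact le_rfl
    | succ k ih =>
      intro j hj
      have := (hss (j + k) (by omega)).1
      exact (ih j (by omega)).trans this.le
  have hsα : ∀ j, j ≤ m → α ≤ s j := by
    intro j hj
    have := hmono j 0 (by omega)
    rwa [hs0, zero_add] at this
  have hsβ : ∀ j, j ≤ m → s j ≤ β := by
    intro j hj
    have := hmono (m - j) j (by omega)
    rwa [Nat.add_sub_cancel' hj, hsm] at this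
  have main : ∀ j, j ≤ m → ∃ q' : Q4, InDd q' ∧ (∀ i x, x ≤ α ∨ s j ≤ x → q' i x = q i x) ∧
      (∀ i x, |LD (q' i) x - LD (q i) x| ≤ ε) ∧ wrd q' = wrd q ∧
      ∀ x, α ≤ x → x ≤ s j → ¬ Fx q' x := by
    intro j
    induction j with
    | zero =>
      intro _
      refine ⟨q, hq, fun _ _ _ => rfl, fun i x => by simpa using hε.le, rfl, ?_⟩
      intro x h1 h2
      rw [hs0] at h2
      rw [le_antisymm h2 h1]; exact hα
    | succ j ih =>
      intro hj
      obtain ⟨Q, hQ, hQq, hQL, hQw, hQf⟩ := ih (by omega)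
      obtain ⟨h1, h2⟩ := hss j (by omega)
      exact caseN_step hm (min_le_right _ _) hN'
        (fun i x y a b c d e => hδ i x y a b c d (e.trans (hDle i)))
        (hsα j (by omega)) h1 (hsβ (j + 1) hj) h2 (hsf j (by omega)) (hsf (j + 1) hj) hq
        hQ hQq hQL hQw hQf
  obtain ⟨q', h1, h2, h3, h4, h5⟩ := main m le_rfl
  rw [hsm] at h2 h5
  exact ⟨q', h1, h2, h3, h4, h5⟩

end Pool.Agent.helper32.FolG
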