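import Pool.Agent.helper32.FolG.B1
import Pool.Agent.helper32.FolG.B2
import Pool.Agent.helper32.FolG.B3

/-!
# FOL, G-B4: Theorem G from Lemma H and Lemma N
-/

open Set Filter Topology
open scoped commutatorElement

namespace Pool.Agent.helper32.FolG

open Pool.Agent.helper35.FOL

theorem B4_exp_close {a b e : ℝ} (h : |a - b| ≤ e) :
    |Real.exp a - Real.exp b| ≤ Real.exp b * (Real.exp e - 1) := by
  have h1 : Real.exp a - Real.exp b = Real.exp b * (Real.exp (a - b) - 1) := by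
    rw [mul_sub, ← Real.exp_add]
    congr 1
    · congr 1; ring
    · ring
  rw [h1, abs_mul, abs_of_pos (Real.exp_pos b)]
  refine mul_le_mul_of_nonneg_left ?_ (Real.exp_pos b).le
  rw [abs_le] at h ⊢
  constructor
  · have h2 : 1 - e ≤ Real.exp (-e) := by
      have := Real.add_one_le_exp (-e)
      linarith
    have h3 : Real.exp (-e) ≤ Real.exp (a - b) := Real.exp_le_exp.2 h.1
    have h4 : 1 + e ≤ Real.exp e := by
      have := Real.add_one_le_exp e
      linarith
    linarith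
  · have := Real.exp_le_exp.2 h.2
    linarith

/-- Closeness of the logarithms of the derivatives gives `C¹`-closeness. -/
theorem c1_close {g : ℝ ≃o ℝ} (hg : g ∈ Dd) {r ε : ℝ} (hr : 0 < r) (hε : 0 < ε) :
    ∃ ε' : ℝ, 0 < ε' ∧ ∀ g' : ℝ ≃o ℝ, g' ∈ Dd → (∀ x, r ≤ |x| → g' x = g x) →
      (∀ x, |LD g' x - LD g x| ≤ ε') →
      (∀ x, |g' x - g x| ≤ ε) ∧ ∀ x, |deriv g' x - deriv g x| ≤ ε := by
  obtain ⟨x₀, -, hx₀⟩ := (isCompact_Icc (a := -r) (b := r)).exists_isMaxOn
    (nonempty_Icc.2 (by linarith)) (continuous_deriv hg).continuousOn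
  set M := deriv g x₀ with hM
  have hM0 : 0 < M := deriv_pos hg x₀
  set δ := min ε (ε / (2 * r)) with hδ
  have hδ0 : 0 < δ := lt_min hε (by positivity)
  have hlt : 1 < 1 + δ / M := by
    have : 0 < δ / M := by positivity
    linarith
  refine ⟨Real.log (1 + δ / M), Real.log_pos hlt, fun g' hg' heq hLD => ?_⟩
  have hexp : Real.exp (Real.log (1 + δ / M)) = 1 + δ / M := Real.exp_log (by linarith)
  have hd : ∀ x, |deriv g' x - deriv g x| ≤ δ := by
    intro x
    rcases le_or_gt r |x| with hx | hx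
    · have : LD g' x = LD g x := by
        rcases le_abs'.1 hx with h1 | h1
        · refine LD_congr_closure hg' hg (s := Iio (-r)) isOpen_Iio (fun y hy => heq y ?_) ?_
          · have : y < -r := hy
            rw [abs_of_neg (by linarith)]
            linarith
          · rw [closure_Iio]
            exact h1
        · refine LD_congr_closure hg' hg (s := Ioi r) isOpen_Ioi (fun y hy => heq y ?_) ?_
          · have : r < y := hy
            rw [abs_of_pos (by linarith)]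
            linarith
          · rw [closure_Ioi]
            exact h1
      rw [deriv_eq_exp hg', deriv_eq_exp hg, this, sub_self, abs_zero]
      exact hδ0.le
    · rw [deriv_eq_exp hg', deriv_eq_exp hg]
      refine (B4_exp_close (hLD x)).trans ?_
      rw [hexp, ← deriv_eq_exp hg]
      have h1 : deriv g x ≤ M := hx₀ ⟨(abs_lt.1 hx).1.le, (abs_lt.1 hx).2.le⟩
      calc deriv g x * (1 + δ / M - 1) ≤ M * (1 + δ / M - 1) :=
            mul_le_mul_of_nonneg_right h1 (by linarith)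
        _ = δ := by field_simp; ring
  refine ⟨fun x => ?_, fun x => (hd x).trans (min_le_left _ _)⟩
  rcases le_or_gt r |x| with hx | hx
  · rw [heq x hx, sub_self, abs_zero]
    exact hε.le
  · have h1 := Convex.norm_image_sub_le_of_norm_deriv_le (f := fun y => g' y - g y) (C := δ)
      (s := univ) (x := -r) (y := x)
      (fun y _ => (diffAt hg' y).sub (diffAt hg y))
      (fun y _ => by
        have : deriv (fun y => g' y - g y) y = deriv g' y - deriv g y :=
          deriv_fun_sub (diffAt hg' y) (diffAt hg y)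
        rw [this]
        exact hd y) convex_univ (mem_univ _) (mem_univ _)
    have h2 : g' (-r) = g (-r) := heq (-r) (by rw [abs_neg]; exact le_abs_self r)
    simp only [h2, sub_self, sub_zero, Real.norm_eq_abs] at h1
    refine h1.trans ?_
    have hx' := abs_lt.1 hx
    have h3 : |x - -r| ≤ 2 * r := by
      rw [abs_of_nonneg (by linarith)]
      linarith
    calc δ * |x - -r| ≤ (ε / (2 * r)) * (2 * r) :=
          mul_le_mul (min_le_right _ _) h3 (abs_nonneg _) (by positivity)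
      _ = ε := by field_simp

/-- The choice of the interval. -/
theorem core_G (hH : LemH) (hN : LemN) {q : Q4} (hq : InDd q) (h0 : Fx q 0) {r : ℝ} (hr : 0 < r) :
    ∃ α β : ℝ, -r < α ∧ α < β ∧ β < r ∧ (∃ p, α < p ∧ p < β ∧ Fx q p) ∧
      ∀ ε : ℝ, 0 < ε → ∃ q' : Q4, InDd q' ∧ (∀ i x, r ≤ |x| → q' i x = q i x) ∧
        (∀ i x, |LD (q' i) x - LD (q i) x| ≤ ε) ∧ wrd q' = wrd q ∧
        ∀ x, α ≤ x → x ≤ β → ¬ Fx q' x := by
  by_cases hO : ∃ c d, -r < c ∧ c < d ∧ d < r ∧ ∀ x, c ≤ x → x ≤ d → Fx q x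
  · obtain ⟨c, d, h1, h2, h3, h4⟩ := hO
    refine ⟨(3 * c + d) / 4, (c + 3 * d) / 4, by linarith, by linarith, by linarith,
      ⟨(c + d) / 2, by linarith, by linarith, h4 _ (by linarith) (by linarith)⟩, fun ε hε => ?_⟩
    obtain ⟨q', k1, k2, k3, k4, k5⟩ := caseO hq h2 h4 hε
    refine ⟨q', k1, fun i x hx => k2 i x ?_, k3, k4, fun x hx1 hx2 => k5 x (by linarith) (by linarith)⟩
    rcases le_abs'.1 hx with h | h
    · left; linarith
    · right; linarith
  by_cases hh : ∃ p, -r < p ∧ p < r ∧ Fx q p ∧ ∃ i, LD (q i) p ≠ 0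
  · obtain ⟨p, h1, h2, h3, h4⟩ := hh
    obtain ⟨ρ, hρ, hiso⟩ := isolated hq h3 h4
    have hrp : 0 < r - |p| := by
      have := abs_lt.2 ⟨h1, h2⟩
      linarith
    obtain ⟨ρ', hρ', hlt1, hlt2⟩ : ∃ ρ' : ℝ, 0 < ρ' ∧ ρ' < ρ ∧ ρ' < r - |p| := by
      refine ⟨min ρ (r - |p|) / 2, by positivity, ?_, ?_⟩
      · have := min_le_left ρ (r - |p|)
        linarith
      · have := min_le_right ρ (r - |p|)
        linarith
    have e1 := le_abs_self p
    have e2 := neg_abs_le p
    refine ⟨p - ρ', p + ρ', by linarith, by linarith, by linarith,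
      ⟨p, by linarith, by linarith, h3⟩, fun ε hε => ?_⟩
    obtain ⟨q', k1, k2, k3, k4, k5⟩ := lemH_at hH hq h3 h4 hε hρ'
    refine ⟨q', k1, fun i x hx => k2 i x ?_, k3, k4, fun x hx1 hx2 hf => ?_⟩
    · have := abs_sub_abs_le_abs_sub x p
      linarith
    · obtain ⟨k6, k7⟩ := k5 x hf
      refine hiso x ?_ k7 k6
      rw [abs_lt]
      constructor <;> linarith
  · push Not at hO hh
    obtain ⟨α, a1, a2, a3⟩ := hO (-r / 2) (-r / 4) (by linarith) (by linarith) (by linarith)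
    obtain ⟨β, b1, b2, b3⟩ := hO (r / 4) (r / 2) (by linarith) (by linarith) (by linarith)
    refine ⟨α, β, by linarith, by linarith, by linarith, ⟨0, by linarith, by linarith, h0⟩,
      fun ε hε => ?_⟩
    obtain ⟨q', k1, k2, k3, k4, k5⟩ := caseN hN hq (α := α) (β := β) (by linarith) a3 b3
      (fun p hp1 hp2 hf i => hh p (by linarith) (by linarith) hf i)
      (fun c d hc hcd hd => by
        obtain ⟨x, x1, x2, x3⟩ := hO ((2 * c + d) / 3) ((c + 2 * d) / 3) (by linarith) (by linarith)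
          (by linarith)
        exact ⟨x, by linarith, by linarith, x3⟩) hε
    refine ⟨q', k1, fun i x hx => k2 i x ?_, k3, k4, k5⟩
    rcases le_abs'.1 hx with h | h
    · left; linarith
    · right; linarith

/-- **Theorem G** from the two lemmas. -/
theorem theoremG_of (hH : LemH) (hN : LemN) : TheoremG := by
  intro a₁ ha₁ b₁ hb₁ a₂ ha₂ b₂ hb₂ h0 r hr
  have hq : InDd ![a₁, b₁, a₂, b₂] := by
    intro i
    fin_cases i
    · exact ha₁
    · exact hb₁
    · exact ha₂
    · exact hb₂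
  have hfx : ∀ x, CFix a₁ b₁ a₂ b₂ x ↔ Fx ![a₁, b₁, a₂, b₂] x := by
    intro x
    constructor
    · rintro ⟨h1, h2, h3, h4⟩ i
      fin_cases i
      · exact h1
      · exact h2
      · exact h3
      · exact h4
    · intro h
      exact ⟨h 0, h 1, h 2, h 3⟩
  obtain ⟨α, β, h1, h2, h3, ⟨p, p1, p2, p3⟩, h4⟩ := core_G hH hN hq ((hfx 0).1 h0) hr
  refine ⟨α, β, h1, h2, h3, ⟨p, p1, p2, (hfx p).2 p3⟩, fun ε hε => ?_⟩
  have key : ∀ i : Fin 4, ∃ ε' : ℝ, 0 < ε' ∧ ∀ g' : ℝ ≃o ℝ, g' ∈ Dd →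
      (∀ x, r ≤ |x| → g' x = (![a₁, b₁, a₂, b₂] : Q4) i x) →
      (∀ x, |LD g' x - LD ((![a₁, b₁, a₂, b₂] : Q4) i) x| ≤ ε') →
      (∀ x, |g' x - (![a₁, b₁, a₂, b₂] : Q4) i x| ≤ ε) ∧
        ∀ x, |deriv g' x - deriv ((![a₁, b₁, a₂, b₂] : Q4) i) x| ≤ ε :=
    fun i => c1_close (hq i) hr hε
  choose e he hk using key
  obtain ⟨i₀, -, hi₀⟩ := Finset.exists_min_image Finset.univ e ⟨0, Finset.mem_univ _⟩
  obtain ⟨q', k1, k2, k3, k4, k5⟩ := h4 (e i₀) (he i₀)
  have hc := fun i => hk i (q' i) (k1 i) (k2 i) (fun x => (k3 i x).trans (hi₀ i (Finset.mem_univ _)))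
  refine ⟨q' 0, k1 0, q' 1, k1 1, q' 2, k1 2, q' 3, k1 3,
    fun x hx => ⟨k2 0 x hx, k2 1 x hx, k2 2 x hx, k2 3 x hx⟩,
    fun x => ⟨(hc 0).1 x, (hc 1).1 x, (hc 2).1 x, (hc 3).1 x⟩,
    fun x => ⟨(hc 0).2 x, (hc 1).2 x, (hc 2).2 x, (hc 3).2 x⟩, k4, fun x hx1 hx2 hf => ?_⟩
  refine k5 x hx1 hx2 fun i => ?_
  obtain ⟨f1, f2, f3, f4⟩ := hf
  fin_cases i
  · exact f1
  · exact f2
  · exact f3
  · exact f4

end Pool.Agent.helper32.FolG
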