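import Pool.Agent.helper35.FOL.GDefs

/-!
# FOL, group level: quadruples, neighbourhoods, statements of Lemma H and Lemma N
-/

open Set Filter Topology
open scoped commutatorElement

namespace Pool.Agent.helper32.FolG

open Pool.Agent.helper35.FOL

/-- A quadruple `(a₁, b₁, a₂, b₂)`. -/
abbrev Q4 := Fin 4 → (ℝ ≃o ℝ)

/-- All four maps are increasing `C¹` diffeomorphisms. -/
def InDd (q : Q4) : Prop := ∀ i, q i ∈ Dd

/-- The product of the two commutators. -/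
def wrd (q : Q4) : ℝ ≃o ℝ := ⁅q 0, q 1⁆ * ⁅q 2, q 3⁆

/-- `x` is a common fixed point. -/
def Fx (q : Q4) (x : ℝ) : Prop := ∀ i, q i x = x

/-- `g'` is close to `g` (logarithm of the derivative within `ε`) and equal to `g` for
`r ≤ |x|`. -/
def Nb (g : ℝ ≃o ℝ) (ε r : ℝ) (g' : ℝ ≃o ℝ) : Prop :=
  g' ∈ Dd ∧ (∀ x, r ≤ |x| → g' x = g x) ∧ ∀ x, |LD g' x - LD g x| ≤ ε

/-- The conclusion of Lemma H for the quadruple `q` (whose common fixed point is `0`). -/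
def HC (q : Q4) : Prop :=
  ∀ ε : ℝ, 0 < ε → ∀ r : ℝ, 0 < r → ∃ q' : Q4, (∀ i, Nb (q i) ε r (q' i)) ∧
    wrd q' = wrd q ∧ ∀ x, Fx q' x → Fx q x ∧ x ≠ 0

/-- **Lemma H** (hyperbolic point). -/
def LemH : Prop :=
  ∀ q : Q4, InDd q → Fx q 0 → (∃ i, LD (q i) 0 ≠ 0) → HC q

/-- Lemma H for normalised quadruples. -/
def LemH0 : Prop :=
  ∀ q : Q4, InDd q → Fx q 0 → 0 < LD (q 0) 0 →
    (LD (q 2) 0 ≠ 0 ∨ (LD (q 2) 0 = 0 ∧ LD (q 3) 0 = 0)) → HC q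

/-- **Lemma N** (maps close to the identity). -/
def LemN : Prop :=
  ∀ ε : ℝ, 0 < ε → ∃ η : ℝ, 0 < η ∧ ∀ q : Q4, InDd q → ∀ s t : ℝ, s < t →
    ¬ Fx q s → ¬ Fx q t → (∀ i x, s ≤ x → x ≤ t → |LD (q i) x| ≤ η) →
    ∃ q' : Q4, InDd q' ∧ (∀ i x, x ≤ s ∨ t ≤ x → q' i x = q i x) ∧
      (∀ i x, s ≤ x → x ≤ t → |LD (q' i) x| ≤ ε) ∧ wrd q' = wrd q ∧
      ∀ x, s ≤ x → x ≤ t → ¬ Fx q' x

/-! ### Basic calculus of `LD` -/

theorem diffAt {g : ℝ ≃o ℝ} (hg : g ∈ Dd) (x : ℝ) : DifferentiableAt ℝ g x :=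
  hg.1.differentiable one_ne_zero x

theorem hasDeriv {g : ℝ ≃o ℝ} (hg : g ∈ Dd) (x : ℝ) : HasDerivAt g (deriv g x) x :=
  (diffAt hg x).hasDerivAt

theorem deriv_pos {g : ℝ ≃o ℝ} (hg : g ∈ Dd) (x : ℝ) : 0 < deriv g x := hg.2 x

theorem deriv_eq_exp {g : ℝ ≃o ℝ} (hg : g ∈ Dd) (x : ℝ) : deriv g x = Real.exp (LD g x) :=
  (Real.exp_log (hg.2 x)).symm

theorem continuous_deriv {g : ℝ ≃o ℝ} (hg : g ∈ Dd) : Continuous (deriv g) :=
  hg.1.continuous_deriv le_rfl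

theorem continuous_LD {g : ℝ ≃o ℝ} (hg : g ∈ Dd) : Continuous (LD g) :=
  (continuous_deriv hg).log fun x => (hg.2 x).ne'

theorem deriv_mul {g h : ℝ ≃o ℝ} (hg : g ∈ Dd) (hh : h ∈ Dd) (x : ℝ) :
    deriv (⇑(g * h)) x = deriv g (h x) * deriv h x :=
  deriv_comp x (diffAt hg _) (diffAt hh _)

theorem LD_mul {g h : ℝ ≃o ℝ} (hg : g ∈ Dd) (hh : h ∈ Dd) (x : ℝ) :
    LD (g * h) x = LD g (h x) + LD h x := by
  unfold LD
  rw [deriv_mul hg hh, Real.log_mul (hg.2 _).ne' (hh.2 _).ne']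

@[simp] theorem LD_one (x : ℝ) : LD 1 x = 0 := by
  have : deriv (⇑(1 : ℝ ≃o ℝ)) x = 1 := deriv_id x
  simp [LD, this]

theorem LD_inv {g : ℝ ≃o ℝ} (hg : g ∈ Dd) (x : ℝ) : LD g⁻¹ x = - LD g (g⁻¹ x) := by
  have h := LD_mul hg (Dd.inv_mem hg) x
  rw [mul_inv_cancel, LD_one] at h
  linarith

theorem LD_inv' {g : ℝ ≃o ℝ} (hg : g ∈ Dd) (x : ℝ) : LD g⁻¹ (g x) = - LD g x := by
  rw [LD_inv hg]
  congr 2
  exact g.symm_apply_apply x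

theorem LD_congr {g h : ℝ ≃o ℝ} {s : Set ℝ} (hs : IsOpen s) (e : ∀ x ∈ s, g x = h x) {x : ℝ}
    (hx : x ∈ s) : LD g x = LD h x := by
  unfold LD
  rw [Filter.EventuallyEq.deriv_eq (Filter.eventuallyEq_of_mem (hs.mem_nhds hx) e)]

/-- Two elements of `Dd` which agree on the closure of an open set have equal derivatives there. -/
theorem LD_congr_closure {g h : ℝ ≃o ℝ} (hg : g ∈ Dd) (hh : h ∈ Dd) {s : Set ℝ} (hs : IsOpen s)
    (e : ∀ x ∈ s, g x = h x) {x : ℝ} (hx : x ∈ closure s) : LD g x = LD h x := by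
  have hc : IsClosed {x | LD g x = LD h x} := isClosed_eq (continuous_LD hg) (continuous_LD hh)
  exact hc.closure_subset_iff.2 (fun y hy => LD_congr hs e hy) hx

end Pool.Agent.helper32.FolG
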