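import Pool.Agent.helper32.FolG.Base

/-!
# FOL, G-H1: interpolation between a diffeomorphism and its linear part
-/

open Set Filter Topology

namespace Pool.Agent.helper32.FolG

open Pool.Agent.helper35.FOL

/-- a cutoff function -/
theorem H1_chi : ∃ (chi : ℝ → ℝ) (M : ℝ), 0 ≤ M ∧ ContDiff ℝ 1 chi ∧
    (∀ t, 0 ≤ chi t ∧ chi t ≤ 1) ∧ (∀ t, |t| ≤ 1 / 2 → chi t = 1) ∧
    (∀ t, 1 ≤ |t| → chi t = 0) ∧ (∀ t, |deriv chi t| ≤ M) ∧
    ∀ t, 1 < |t| → deriv chi t = 0 := by
  let chi : ℝ → ℝ := fun t => Real.smoothTransition (2 - 2 * t) * Real.smoothTransition (2 + 2 * t)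
  have hc : ContDiff ℝ 1 chi := by
    have h1 : ContDiff ℝ 1 (fun t : ℝ => 2 - 2 * t) :=
      contDiff_const.sub (contDiff_const.mul contDiff_id)
    have h2 : ContDiff ℝ 1 (fun t : ℝ => 2 + 2 * t) :=
      contDiff_const.add (contDiff_const.mul contDiff_id)
    exact (Real.smoothTransition.contDiff.comp h1).mul (Real.smoothTransition.contDiff.comp h2)
  have h0 : ∀ t, 1 ≤ |t| → chi t = 0 := by
    intro t ht
    rcases le_abs.1 ht with h | h
    · show Real.smoothTransition (2 - 2 * t) * _ = 0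
      rw [Real.smoothTransition.zero_of_nonpos (by linarith), zero_mul]
    · show _ * Real.smoothTransition (2 + 2 * t) = 0
      rw [Real.smoothTransition.zero_of_nonpos (show 2 + 2 * t ≤ 0 by linarith), mul_zero]
  have hd0 : ∀ t, 1 < |t| → deriv chi t = 0 := by
    intro t ht
    have h1 : chi =ᶠ[𝓝 t] fun _ => 0 := by
      have h2 : IsOpen {t : ℝ | 1 < |t|} := isOpen_lt continuous_const continuous_abs
      filter_upwards [h2.mem_nhds ht] with y hy
      exact h0 y (le_of_lt hy)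
    rw [h1.deriv_eq, deriv_const]
  obtain ⟨M, hM⟩ := (isCompact_Icc (a := (-1 : ℝ)) (b := 1)).exists_bound_of_continuousOn
    (hc.continuous_deriv le_rfl).continuousOn
  have hM0 : 0 ≤ M := (norm_nonneg _).trans (hM 0 (by constructor <;> norm_num))
  refine ⟨chi, M, hM0, hc, fun t => ⟨mul_nonneg (Real.smoothTransition.nonneg _)
    (Real.smoothTransition.nonneg _), mul_le_one₀ (Real.smoothTransition.le_one _)
    (Real.smoothTransition.nonneg _) (Real.smoothTransition.le_one _)⟩, ?_, h0, ?_, hd0⟩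
  · intro t ht
    obtain ⟨h1, h2⟩ := abs_le.1 ht
    show Real.smoothTransition (2 - 2 * t) * Real.smoothTransition (2 + 2 * t) = 1
    rw [Real.smoothTransition.one_of_one_le (by linarith),
      Real.smoothTransition.one_of_one_le (by linarith), mul_one]
  · intro t
    rcases lt_or_ge 1 |t| with h | h
    · rw [hd0 t h, abs_zero]
      exact hM0
    · exact hM t (abs_le.1 h)

/-- a function with derivative close to `exp v` is a diffeomorphism -/
theorem H1_mk (F : ℝ → ℝ) (hF : ContDiff ℝ 1 F) (v b : ℝ) (hb : b ≤ 1 / 2)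
    (hd : ∀ x, |deriv F x - Real.exp v| ≤ Real.exp v * b) (hT : Tendsto F atTop atTop)
    (hB : Tendsto F atBot atBot) :
    ∃ g' : ℝ ≃o ℝ, g' ∈ Dd ∧ (∀ x, g' x = F x) ∧ ∀ x, |LD g' x - v| ≤ 2 * b := by
  have hv := Real.exp_pos v
  have hlow : ∀ x, Real.exp v * (1 - b) ≤ deriv F x := by
    intro x
    have := (abs_le.1 (hd x)).1
    linarith
  have hpos : ∀ x, 0 < deriv F x := fun x =>
    lt_of_lt_of_le (mul_pos hv (by linarith)) (hlow x)
  have hmono : StrictMono F := strictMono_of_deriv_pos hpos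
  have hsurj : Function.Surjective F := hF.continuous.surjective hT hB
  refine ⟨StrictMono.orderIsoOfSurjective F hmono hsurj, ⟨hF, hpos⟩, fun x => rfl, fun x => ?_⟩
  show |Real.log (deriv F x) - v| ≤ 2 * b
  set G := deriv F x / Real.exp v with hG
  have hG1 : |G - 1| ≤ b := by
    have h1 : G - 1 = (deriv F x - Real.exp v) / Real.exp v := by
      rw [hG, sub_div, div_self hv.ne']
    rw [h1, abs_div, abs_of_pos hv, div_le_iff₀ hv, mul_comm]
    exact hd x
  have hGpos : 0 < G := div_pos (hpos x) hv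
  have hlog : Real.log (deriv F x) - v = Real.log G := by
    rw [hG, Real.log_div (hpos x).ne' hv.ne', Real.log_exp]
  obtain ⟨h2, h3⟩ := abs_le.1 hG1
  have hb0 : 0 ≤ b := (abs_nonneg _).trans hG1
  rw [hlog, abs_le]
  constructor
  · have h4 := Real.one_sub_inv_le_log_of_pos hGpos
    have h5 : G⁻¹ ≤ 1 + 2 * b := by
      rw [inv_le_iff_one_le_mul₀ hGpos]
      nlinarith
    linarith
  · have h4 := Real.log_le_sub_one_of_pos hGpos
    linarith

theorem H1_deriv {g : ℝ ≃o ℝ} (hg : g ∈ Dd) {v η x : ℝ} (hη : η ≤ 1) (h : |LD g x - v| ≤ η) :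
    |deriv g x - Real.exp v| ≤ Real.exp v * (2 * η) := by
  have h1 : deriv g x - Real.exp v = Real.exp v * (Real.exp (LD g x - v) - 1) := by
    rw [deriv_eq_exp hg, mul_sub, mul_one, ← Real.exp_add]
    congr 2
    ring
  rw [h1, abs_mul, abs_of_pos (Real.exp_pos v)]
  apply mul_le_mul_of_nonneg_left _ (Real.exp_pos v).le
  refine (Real.abs_exp_sub_one_le (h.trans hη)).trans ?_
  linarith

/-- the difference to the linear map -/
theorem H1_diff {g : ℝ ≃o ℝ} (hg : g ∈ Dd) (hg0 : g 0 = 0) {v η ρ : ℝ} (hρ : 0 < ρ)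
    (hη1 : η ≤ 1) (hη0 : 0 ≤ η) (h : ∀ x, |x| ≤ ρ → |LD g x - v| ≤ η) {x : ℝ} (hx : |x| ≤ ρ) :
    |g x - Real.exp v * x| ≤ Real.exp v * (2 * η) * ρ := by
  have hD : ∀ y, HasDerivAt (fun y => g y - Real.exp v * y) (deriv g y - Real.exp v) y := by
    intro y
    have h1 : HasDerivAt (fun y : ℝ => Real.exp v * y) (Real.exp v) y := by
      simpa using (hasDerivAt_id y).const_mul (Real.exp v)
    exact (hasDeriv hg y).sub h1
  have h1 := Convex.norm_image_sub_le_of_norm_deriv_le (f := fun y => g y - Real.exp v * y)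
    (s := Icc (-ρ) ρ) (C := Real.exp v * (2 * η)) (fun y _ => (hD y).differentiableAt)
    (fun y hy => by
      rw [(hD y).deriv, Real.norm_eq_abs]
      exact H1_deriv hg hη1 (h y (abs_le.2 hy))) (convex_Icc _ _)
    (x := 0) (y := x) ⟨by linarith, hρ.le⟩ (abs_le.1 hx)
  simp only [hg0, mul_zero, sub_zero, Real.norm_eq_abs] at h1
  refine h1.trans ?_
  apply mul_le_mul_of_nonneg_left hx
  have := Real.exp_pos v
  positivity

/-- Interpolation, linear inside: `C` is universal. -/
theorem interp_in : ∃ C : ℝ, 1 ≤ C ∧ ∀ (g : ℝ ≃o ℝ), g ∈ Dd → g 0 = 0 → ∀ v η δ ρ τ : ℝ,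
    0 < ρ → 0 ≤ η → 0 ≤ δ → C * (η + δ) ≤ 1 → |τ| ≤ δ * Real.exp v * ρ →
    (∀ x, |LD g x - v| ≤ η) →
    ∃ g' : ℝ ≃o ℝ, g' ∈ Dd ∧ (∀ x, ρ ≤ |x| → g' x = g x) ∧
      (∀ x, |x| ≤ ρ / 2 → g' x = Real.exp v * x + τ) ∧
      ∀ x, |LD g' x - v| ≤ C * (η + δ) := by
  obtain ⟨chi, M, hM0, hc, h01, h1, h0, hM, hM1⟩ := H1_chi
  refine ⟨4 + 4 * M, by linarith, ?_⟩
  intro g hg hg0 v η δ ρ τ hρ hη hδ hC hτ hLD
  have hη1 : η ≤ 1 := by nlinarith
  have hv := Real.exp_pos v
  have hcd : ∀ t, HasDerivAt chi (deriv chi t) t := fun t =>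
    (hc.differentiable one_ne_zero t).hasDerivAt
  let F : ℝ → ℝ := fun x => g x + chi (x / ρ) * (Real.exp v * x + τ - g x)
  have hF : ContDiff ℝ 1 F := by
    have e1 : ContDiff ℝ 1 (fun x : ℝ => chi (x / ρ)) := hc.comp (contDiff_id.div_const ρ)
    have e2 : ContDiff ℝ 1 (fun x : ℝ => Real.exp v * x + τ) :=
      (contDiff_const.mul contDiff_id).add contDiff_const
    exact hg.1.add (e1.mul (e2.sub hg.1))
  have hout : ∀ x, ρ ≤ |x| → F x = g x := by
    intro x hx
    have : chi (x / ρ) = 0 := by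
      apply h0
      rw [abs_div, abs_of_pos hρ, le_div_iff₀ hρ, one_mul]
      exact hx
    show g x + chi (x / ρ) * _ = g x
    rw [this, zero_mul, add_zero]
  have hFd : ∀ x, HasDerivAt F (deriv g x + (deriv chi (x / ρ) * (1 / ρ) *
      (Real.exp v * x + τ - g x) + chi (x / ρ) * (Real.exp v - deriv g x))) x := by
    intro x
    have e1 : HasDerivAt (fun x : ℝ => x / ρ) (1 / ρ) x := (hasDerivAt_id x).div_const ρ
    have e2 : HasDerivAt (fun x : ℝ => chi (x / ρ)) (deriv chi (x / ρ) * (1 / ρ)) x :=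
      (hcd (x / ρ)).comp x e1
    have e3 : HasDerivAt (fun x : ℝ => Real.exp v * x + τ - g x) (Real.exp v - deriv g x) x := by
      have e4 : HasDerivAt (fun x : ℝ => Real.exp v * x) (Real.exp v) x := by
        simpa using (hasDerivAt_id x).const_mul (Real.exp v)
      exact (e4.add_const τ).sub (hasDeriv hg x)
    exact (hasDeriv hg x).add (e2.mul e3)
  have hd : ∀ x, |deriv F x - Real.exp v| ≤ Real.exp v * ((2 + 2 * M) * (η + δ)) := by
    intro x
    rw [(hFd x).deriv]
    have e1 := H1_deriv hg hη1 (hLD x)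
    have e2 : deriv g x + (deriv chi (x / ρ) * (1 / ρ) *
        (Real.exp v * x + τ - g x) + chi (x / ρ) * (Real.exp v - deriv g x)) - Real.exp v =
        (1 - chi (x / ρ)) * (deriv g x - Real.exp v) +
          deriv chi (x / ρ) * ((1 / ρ) * (Real.exp v * x + τ - g x)) := by ring
    rw [e2]
    have e3 : |(1 - chi (x / ρ)) * (deriv g x - Real.exp v)| ≤ Real.exp v * (2 * η) := by
      rw [abs_mul]
      obtain ⟨c1, c2⟩ := h01 (x / ρ)
      have c3 : |1 - chi (x / ρ)| ≤ 1 := by
        rw [abs_le]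
        constructor <;> linarith
      calc |1 - chi (x / ρ)| * |deriv g x - Real.exp v| ≤ 1 * (Real.exp v * (2 * η)) :=
            mul_le_mul c3 e1 (abs_nonneg _) zero_le_one
        _ = Real.exp v * (2 * η) := one_mul _
    have e4 : |deriv chi (x / ρ) * ((1 / ρ) * (Real.exp v * x + τ - g x))| ≤
        Real.exp v * (M * (2 * η + δ)) := by
      rcases lt_or_ge 1 |x / ρ| with h | h
      · rw [hM1 _ h, zero_mul, abs_zero]
        positivity
      · have hx : |x| ≤ ρ := by
          rw [abs_div, abs_of_pos hρ, div_le_iff₀ hρ, one_mul] at h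
          exact h
        have e5 := H1_diff hg hg0 hρ hη1 hη (fun y _ => hLD y) hx
        have e6 : |Real.exp v * x + τ - g x| ≤ Real.exp v * (2 * η + δ) * ρ := by
          have : Real.exp v * x + τ - g x = τ - (g x - Real.exp v * x) := by ring
          rw [this]
          refine (abs_sub _ _).trans ?_
          calc |τ| + |g x - Real.exp v * x| ≤ δ * Real.exp v * ρ + Real.exp v * (2 * η) * ρ :=
                add_le_add hτ e5
            _ = Real.exp v * (2 * η + δ) * ρ := by ring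
        have e7 : |1 / ρ * (Real.exp v * x + τ - g x)| ≤ Real.exp v * (2 * η + δ) := by
          rw [abs_mul, abs_of_pos (by positivity : (0 : ℝ) < 1 / ρ), one_div, inv_mul_le_iff₀ hρ,
            mul_comm ρ]
          exact e6
        rw [abs_mul]
        calc |deriv chi (x / ρ)| * |1 / ρ * (Real.exp v * x + τ - g x)| ≤
              M * (Real.exp v * (2 * η + δ)) := mul_le_mul (hM _) e7 (abs_nonneg _) hM0
          _ = Real.exp v * (M * (2 * η + δ)) := by ring
    refine (abs_add_le _ _).trans ((add_le_add e3 e4).trans ?_)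
    rw [← mul_add]
    apply mul_le_mul_of_nonneg_left _ hv.le
    nlinarith [mul_nonneg hM0 hδ]
  have hTop : Tendsto F atTop atTop := by
    refine (OrderIso.tendsto_atTop g).congr' ?_
    filter_upwards [eventually_ge_atTop ρ] with x hx
    exact (hout x (hx.trans (le_abs_self x))).symm
  have hBot : Tendsto F atBot atBot := by
    refine (OrderIso.tendsto_atBot g).congr' ?_
    filter_upwards [eventually_le_atBot (-ρ)] with x hx
    exact (hout x ((le_neg.1 hx).trans (neg_le_abs x))).symm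
  obtain ⟨g', hg', hgF, hLD'⟩ := H1_mk F hF v ((2 + 2 * M) * (η + δ)) (by linarith) hd hTop hBot
  refine ⟨g', hg', fun x hx => by rw [hgF, hout x hx], fun x hx => ?_, fun x => ?_⟩
  · rw [hgF]
    have : chi (x / ρ) = 1 := by
      apply h1
      rw [abs_div, abs_of_pos hρ, div_le_iff₀ hρ]
      linarith
    show g x + chi (x / ρ) * _ = _
    rw [this]
    ring
  · refine (hLD' x).trans (le_of_eq ?_)
    ring

/-- Interpolation, linear outside: `C` is universal. -/
theorem interp_out : ∃ C : ℝ, 1 ≤ C ∧ ∀ (g : ℝ ≃o ℝ), g ∈ Dd → g 0 = 0 → ∀ v η ρ : ℝ,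
    0 < ρ → 0 ≤ η → C * η ≤ 1 → (∀ x, |x| ≤ ρ → |LD g x - v| ≤ η) →
    ∃ g' : ℝ ≃o ℝ, g' ∈ Dd ∧ (∀ x, |x| ≤ ρ / 2 → g' x = g x) ∧
      (∀ x, ρ ≤ |x| → g' x = Real.exp v * x) ∧ ∀ x, |LD g' x - v| ≤ C * η := by
  obtain ⟨chi, M, hM0, hc, h01, h1, h0, hM, hM1⟩ := H1_chi
  refine ⟨4 + 4 * M, by linarith, ?_⟩
  intro g hg hg0 v η ρ hρ hη hC hLD
  have hη1 : η ≤ 1 := by nlinarith
  have hv := Real.exp_pos v
  have hcd : ∀ t, HasDerivAt chi (deriv chi t) t := fun t =>
    (hc.differentiable one_ne_zero t).hasDerivAt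
  let F : ℝ → ℝ := fun x => Real.exp v * x + chi (x / ρ) * (g x - Real.exp v * x)
  have hF : ContDiff ℝ 1 F := by
    have e1 : ContDiff ℝ 1 (fun x : ℝ => chi (x / ρ)) := hc.comp (contDiff_id.div_const ρ)
    have e2 : ContDiff ℝ 1 (fun x : ℝ => Real.exp v * x) := contDiff_const.mul contDiff_id
    exact e2.add (e1.mul (hg.1.sub e2))
  have hout : ∀ x, ρ ≤ |x| → F x = Real.exp v * x := by
    intro x hx
    have : chi (x / ρ) = 0 := by
      apply h0
      rw [abs_div, abs_of_pos hρ, le_div_iff₀ hρ, one_mul]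
      exact hx
    show Real.exp v * x + chi (x / ρ) * _ = _
    rw [this, zero_mul, add_zero]
  have hFd : ∀ x, HasDerivAt F (Real.exp v + (deriv chi (x / ρ) * (1 / ρ) *
      (g x - Real.exp v * x) + chi (x / ρ) * (deriv g x - Real.exp v))) x := by
    intro x
    have e1 : HasDerivAt (fun x : ℝ => x / ρ) (1 / ρ) x := (hasDerivAt_id x).div_const ρ
    have e2 : HasDerivAt (fun x : ℝ => chi (x / ρ)) (deriv chi (x / ρ) * (1 / ρ)) x :=
      (hcd (x / ρ)).comp x e1
    have e0 : HasDerivAt (fun x : ℝ => Real.exp v * x) (Real.exp v) x := by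
      simpa using (hasDerivAt_id x).const_mul (Real.exp v)
    exact e0.add (e2.mul ((hasDeriv hg x).sub e0))
  have hd : ∀ x, |deriv F x - Real.exp v| ≤ Real.exp v * ((2 + 2 * M) * η) := by
    intro x
    rw [(hFd x).deriv, add_sub_cancel_left]
    rcases lt_or_ge 1 |x / ρ| with h | h
    · rw [hM1 _ h, h0 _ h.le, zero_mul, zero_mul, zero_mul, add_zero, abs_zero]
      positivity
    · have hx : |x| ≤ ρ := by
        rw [abs_div, abs_of_pos hρ, div_le_iff₀ hρ, one_mul] at h
        exact h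
      have e1 := H1_deriv hg hη1 (hLD x hx)
      have e5 := H1_diff hg hg0 hρ hη1 hη hLD hx
      have e7 : |1 / ρ * (g x - Real.exp v * x)| ≤ Real.exp v * (2 * η) := by
        rw [abs_mul, abs_of_pos (by positivity : (0 : ℝ) < 1 / ρ), one_div, inv_mul_le_iff₀ hρ,
          mul_comm ρ]
        exact e5
      have e8 : |deriv chi (x / ρ) * (1 / ρ) * (g x - Real.exp v * x)| ≤
          M * (Real.exp v * (2 * η)) := by
        rw [mul_assoc, abs_mul]
        exact mul_le_mul (hM _) e7 (abs_nonneg _) hM0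
      have e9 : |chi (x / ρ) * (deriv g x - Real.exp v)| ≤ 1 * (Real.exp v * (2 * η)) := by
        rw [abs_mul]
        obtain ⟨c1, c2⟩ := h01 (x / ρ)
        rw [abs_of_nonneg c1]
        exact mul_le_mul c2 e1 (abs_nonneg _) zero_le_one
      refine (abs_add_le _ _).trans ((add_le_add e8 e9).trans (le_of_eq ?_))
      ring
  have hlin : ∀ x : ℝ, Real.exp v * x = Real.exp v * x := fun _ => rfl
  have hTop : Tendsto F atTop atTop := by
    have e1 : Tendsto (fun x : ℝ => Real.exp v * x) atTop atTop :=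
      tendsto_id.const_mul_atTop hv
    refine e1.congr' ?_
    filter_upwards [eventually_ge_atTop ρ] with x hx
    exact (hout x (hx.trans (le_abs_self x))).symm
  have hBot : Tendsto F atBot atBot := by
    have e1 : Tendsto (fun x : ℝ => Real.exp v * x) atBot atBot :=
      tendsto_id.const_mul_atBot hv
    refine e1.congr' ?_
    filter_upwards [eventually_le_atBot (-ρ)] with x hx
    exact (hout x ((le_neg.1 hx).trans (neg_le_abs x))).symm
  obtain ⟨g', hg', hgF, hLD'⟩ := H1_mk F hF v ((2 + 2 * M) * η) (by linarith) hd hTop hBot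
  refine ⟨g', hg', fun x hx => ?_, fun x hx => by rw [hgF, hout x hx], fun x => ?_⟩
  · rw [hgF]
    have : chi (x / ρ) = 1 := by
      apply h1
      rw [abs_div, abs_of_pos hρ, div_le_iff₀ hρ]
      linarith
    show Real.exp v * x + chi (x / ρ) * _ = _
    rw [this]
    ring
  · refine (hLD' x).trans (le_of_eq ?_)
    ring

end Pool.Agent.helper32.FolG
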