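import Pool.Agent.helper32.FolG.H0
import Pool.Agent.helper32.FolG.H1

/-!
# FOL, G-H3: localisation: the normalised Lemma H from its global unit-scale form
-/

open Set Filter Topology
open scoped commutatorElement

namespace Pool.Agent.helper32.FolG

open Pool.Agent.helper35.FOL

/-! ### scaling -/

/-- Multiplication by `ρ`. -/
noncomputable def H3_scl (ρ : ℝ) (hρ : 0 < ρ) : ℝ ≃o ℝ := OrderIso.mulLeft₀ ρ hρ

theorem H3_scl_apply {ρ : ℝ} (hρ : 0 < ρ) (x : ℝ) : H3_scl ρ hρ x = ρ * x := rfl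

theorem H3_scl_inv_apply {ρ : ℝ} (hρ : 0 < ρ) (x : ℝ) : (H3_scl ρ hρ)⁻¹ x = x / ρ := by
  have h : (H3_scl ρ hρ)⁻¹ (H3_scl ρ hρ (x / ρ)) = x / ρ := (H3_scl ρ hρ).symm_apply_apply _
  rw [H3_scl_apply, mul_div_cancel₀ _ hρ.ne'] at h
  exact h

theorem H3_scl_deriv {ρ : ℝ} (hρ : 0 < ρ) (x : ℝ) : deriv (⇑(H3_scl ρ hρ)) x = ρ := by
  have h : (⇑(H3_scl ρ hρ)) = fun x => ρ * x := rfl
  rw [h]
  simp

theorem H3_scl_mem {ρ : ℝ} (hρ : 0 < ρ) : H3_scl ρ hρ ∈ Dd := by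
  refine ⟨?_, fun x => ?_⟩
  · have h : (⇑(H3_scl ρ hρ)) = fun x => ρ * x := rfl
    rw [h]
    exact contDiff_const.mul contDiff_id
  · rw [H3_scl_deriv]
    exact hρ

theorem H3_scl_LD {ρ : ℝ} (hρ : 0 < ρ) (x : ℝ) : LD (H3_scl ρ hρ) x = Real.log ρ := by
  unfold LD
  rw [H3_scl_deriv]

theorem H3_wrd_conj (S : ℝ ≃o ℝ) (q : Q4) : wrd (fun i => S * q i * S⁻¹) = S * wrd q * S⁻¹ := by
  simp only [wrd, commutatorElement_def]
  group

theorem H3_wrd_conj' (S : ℝ ≃o ℝ) (q : Q4) : wrd (fun i => S⁻¹ * q i * S) = S⁻¹ * wrd q * S := by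
  simp only [wrd, commutatorElement_def]
  group

theorem H3_apply_inv (g : ℝ ≃o ℝ) (x : ℝ) : g (g⁻¹ x) = x := g.apply_symm_apply x

theorem H3_inv_apply (g : ℝ ≃o ℝ) (x : ℝ) : g⁻¹ (g x) = x := g.symm_apply_apply x

/-- The global form of Lemma H at every scale. -/
theorem LemH2_scale (h : LemH2) (v : Fin 4 → ℝ) (hv : 0 < v 0)
    (hv' : v 2 ≠ 0 ∨ (v 2 = 0 ∧ v 3 = 0)) {ε : ℝ} (hε : 0 < ε) :
    ∃ η : ℝ, 0 < η ∧ ∀ ρ : ℝ, 0 < ρ → ∀ q : Q4, InDd q → Fx q 0 →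
      (∀ i x, |LD (q i) x - v i| ≤ η) →
      ∃ q' : Q4, InDd q' ∧ (∀ i x, ρ ≤ |x| → q' i x = q i x) ∧
        (∀ i x, |LD (q' i) x - v i| ≤ ε) ∧ wrd q' = wrd q ∧ ∀ x, ¬ Fx q' x := by
  obtain ⟨η, hη, H⟩ := h v hv hv' ε hε
  refine ⟨η, hη, fun ρ hρ q hq h0 hL => ?_⟩
  set S := H3_scl ρ hρ with hS
  have hSm : S ∈ Dd := H3_scl_mem hρ
  have hSm' : S⁻¹ ∈ Dd := Dd.inv_mem hSm
  have hS0 : S 0 = 0 := by rw [hS, H3_scl_apply, mul_zero]
  have hS0' : S⁻¹ 0 = 0 := by rw [hS, H3_scl_inv_apply, zero_div]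
  -- `LD` of a conjugate
  have hLS : ∀ x, LD S x = Real.log ρ := fun x => H3_scl_LD hρ x
  have hLS' : ∀ x, LD S⁻¹ x = - Real.log ρ := fun x => by rw [LD_inv hSm, hLS]
  obtain ⟨q1, h1, h2, h3, h4, h5⟩ := H (fun i => S⁻¹ * q i * S)
    (fun i => Dd.mul_mem (Dd.mul_mem hSm' (hq i)) hSm)
    (fun i => by
      show S⁻¹ (q i (S 0)) = 0
      rw [hS0, h0 i, hS0'])
    (fun i x => by
      rw [LD_mul (Dd.mul_mem hSm' (hq i)) hSm, LD_mul hSm' (hq i), hLS, hLS']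
      have : -Real.log ρ + LD (q i) (S x) + Real.log ρ - v i = LD (q i) (S x) - v i := by ring
      rw [this]
      exact hL i _)
  refine ⟨fun i => S * q1 i * S⁻¹, fun i => Dd.mul_mem (Dd.mul_mem hSm (h1 i)) hSm', ?_, ?_, ?_, ?_⟩
  · intro i x hx
    show S (q1 i (S⁻¹ x)) = q i x
    rw [h2 i (S⁻¹ x) ?_]
    · show S (S⁻¹ (q i (S (S⁻¹ x)))) = q i x
      rw [H3_apply_inv, H3_apply_inv]
    · rw [hS, H3_scl_inv_apply, abs_div, abs_of_pos hρ, le_div_iff₀ hρ, one_mul]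
      exact hx
  · intro i x
    rw [LD_mul (Dd.mul_mem hSm (h1 i)) hSm', LD_mul hSm (h1 i), hLS, hLS']
    have : Real.log ρ + LD (q1 i) (S⁻¹ x) + -Real.log ρ - v i = LD (q1 i) (S⁻¹ x) - v i := by ring
    rw [this]
    exact h3 i _
  · rw [H3_wrd_conj, h4, H3_wrd_conj']
    group
  · intro x hx
    refine h5 (S⁻¹ x) fun i => ?_
    have h6 : S (q1 i (S⁻¹ x)) = x := hx i
    have h7 := H3_inv_apply S (q1 i (S⁻¹ x))
    rw [h6] at h7
    exact h7.symm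

/-! ### words -/

theorem H3_word {ι : Type*} {G G' : ι → ℝ ≃o ℝ} {K : ℕ → Set ℝ} {N : ℕ}
    (h : ∀ n < N, ∀ j, ∀ y ∈ K n, G' j y = G j y ∧ G j y ∈ K (n + 1)) :
    ∀ (l : List ι), l.length ≤ N → ∀ x ∈ K 0,
      (l.map G').prod x = (l.map G).prod x ∧ (l.map G).prod x ∈ K l.length := by
  intro l
  induction l with
  | nil =>
    intro _ x hx
    simpa using hx
  | cons j l ih =>
    intro hl x hx
    rw [List.length_cons] at hl
    obtain ⟨h1, h2⟩ := ih (by omega) x hx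
    obtain ⟨h3, h4⟩ := h l.length (by omega) j _ h2
    simp only [List.map_cons, List.prod_cons, List.length_cons]
    refine ⟨?_, h4⟩
    show G' j ((l.map G').prod x) = G j ((l.map G).prod x)
    rw [h1, h3]

/-- The letters of the words in `q`. -/
def H3_let (q : Q4) (j : Fin 4 × Bool) : ℝ ≃o ℝ := if j.2 = true then q j.1 else (q j.1)⁻¹

theorem H3_wrd_eq (q : Q4) : wrd q = (([(0, true), (1, true), (0, false), (1, false), (2, true),
    (3, true), (2, false), (3, false)] : List (Fin 4 × Bool)).map (H3_let q)).prod := by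
  simp [wrd, commutatorElement_def, H3_let, mul_assoc]

theorem H3_inv_agree {g g' : ℝ ≃o ℝ} {y : ℝ} (h : g' (g⁻¹ y) = g (g⁻¹ y)) : g'⁻¹ y = g⁻¹ y := by
  rw [H3_apply_inv] at h
  have h1 := H3_inv_apply g' (g⁻¹ y)
  rw [h] at h1
  exact h1

/-- Words of two quadruples agree if the letters do. -/
theorem H3_wrd_agree {q q' : Q4} {K : ℕ → Set ℝ}
    (h1 : ∀ n < 8, ∀ i, ∀ y ∈ K n, q' i y = q i y ∧ q i y ∈ K (n + 1))
    (h2 : ∀ n < 8, ∀ i, ∀ y ∈ K n, q' i ((q i)⁻¹ y) = q i ((q i)⁻¹ y) ∧ (q i)⁻¹ y ∈ K (n + 1))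
    {x : ℝ} (hx : x ∈ K 0) : wrd q' x = wrd q x := by
  rw [H3_wrd_eq, H3_wrd_eq]
  refine (H3_word (G := H3_let q) (G' := H3_let q') (K := K) (N := 8) ?_ _ (by simp) x hx).1
  rintro n hn ⟨i, b⟩ y hy
  cases b
  · obtain ⟨h3, h4⟩ := h2 n hn i y hy
    exact ⟨H3_inv_agree h3, h4⟩
  · exact h1 n hn i y hy

/-! ### size of the images -/

theorem H3_bounds {g : ℝ ≃o ℝ} (hg : g ∈ Dd) (h0 : g 0 = 0) {A μ : ℝ}
    (hL : ∀ x, |x| ≤ A → |LD g x| ≤ μ) {z : ℝ} (hz : 0 < z) (hzA : z ≤ A) :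
    Real.exp (-μ) * z ≤ g z ∧ g z ≤ Real.exp μ * z ∧ g (-z) ≤ -(Real.exp (-μ) * z) ∧
      -(Real.exp μ * z) ≤ g (-z) := by
  have hd : ∀ x, |x| ≤ A → Real.exp (-μ) ≤ deriv g x ∧ deriv g x ≤ Real.exp μ := by
    intro x hx
    rw [deriv_eq_exp hg]
    have := abs_le.1 (hL x hx)
    exact ⟨Real.exp_le_exp.2 this.1, Real.exp_le_exp.2 this.2⟩
  obtain ⟨c, hc, hc'⟩ := exists_deriv_eq_slope g hz (g.continuous.continuousOn)
    (fun x _ => (diffAt hg x).differentiableWithinAt)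
  obtain ⟨d, hd1, hd'⟩ := exists_deriv_eq_slope g (neg_lt_zero.2 hz) (g.continuous.continuousOn)
    (fun x _ => (diffAt hg x).differentiableWithinAt)
  have h1 := hd c (by rw [abs_of_pos hc.1]; linarith [hc.2])
  have h2 := hd d (by rw [abs_of_neg hd1.2]; linarith [hd1.1])
  rw [h0, sub_zero, sub_zero] at hc'
  rw [h0, zero_sub, zero_sub, neg_neg] at hd'
  have h3 : g z = deriv g c * z := by rw [hc', div_mul_cancel₀ _ hz.ne']
  have h4 : -g (-z) = deriv g d * z := by rw [hd', div_mul_cancel₀ _ hz.ne']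
  refine ⟨?_, ?_, ?_, ?_⟩
  · rw [h3]
    exact mul_le_mul_of_nonneg_right h1.1 hz.le
  · rw [h3]
    exact mul_le_mul_of_nonneg_right h1.2 hz.le
  · have := mul_le_mul_of_nonneg_right h2.1 hz.le
    linarith
  · have := mul_le_mul_of_nonneg_right h2.2 hz.le
    linarith

/-- the growth property between the radii `ρ` and `A` -/
def H3_P (g : ℝ ≃o ℝ) (ρ A μ : ℝ) : Prop := ∀ z, ρ ≤ z → z ≤ A →
  Real.exp (-μ) * z ≤ g z ∧ g z ≤ Real.exp μ * z ∧ g (-z) ≤ -(Real.exp (-μ) * z) ∧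
      -(Real.exp μ * z) ≤ g (-z)

theorem H3_step {g : ℝ ≃o ℝ} {ρ A μ : ℝ} (h : H3_P g ρ A μ) (hμ : 0 ≤ μ) (hρ : 0 < ρ) {s : ℝ}
    (hs : ρ ≤ s) (hsA : Real.exp μ * s ≤ A) {y : ℝ} (hy : |y| ≤ s) :
    |g y| ≤ Real.exp μ * s ∧ |g⁻¹ y| ≤ Real.exp μ * s := by
  have hs0 : 0 < s := hρ.trans_le hs
  have h1 : s ≤ Real.exp μ * s := by
    have := Real.one_le_exp hμ
    nlinarith
  obtain ⟨-, a2, -, a4⟩ := h s hs (h1.trans hsA)
  obtain ⟨b1, -, b3, -⟩ := h (Real.exp μ * s) (hs.trans h1) hsA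
  have h2 : Real.exp (-μ) * (Real.exp μ * s) = s := by
    rw [← mul_assoc, ← Real.exp_add, neg_add_cancel, Real.exp_zero, one_mul]
  rw [h2] at b1 b3
  obtain ⟨hy1, hy2⟩ := abs_le.1 hy
  refine ⟨abs_le.2 ⟨a4.trans (g.monotone hy1), (g.monotone hy2).trans a2⟩, abs_le.2 ⟨?_, ?_⟩⟩
  · have h3 : g (-(Real.exp μ * s)) ≤ g (g⁻¹ y) := by
      rw [H3_apply_inv]
      exact b3.trans hy1
    exact g.le_iff_le.1 h3
  · have h3 : g (g⁻¹ y) ≤ g (Real.exp μ * s) := by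
      rw [H3_apply_inv]
      exact hy2.trans b1
    exact g.le_iff_le.1 h3

theorem H3_low {g : ℝ ≃o ℝ} (h0 : g 0 = 0) {s : ℝ} (hs : 0 < s) :
    ∀ᶠ s' in 𝓝[>] (0 : ℝ), ∀ y, s ≤ |y| → s' ≤ |g y| := by
  have ha : 0 < g s := by
    rw [← h0]
    exact g.strictMono hs
  have hb : 0 < -g (-s) := by
    have : g (-s) < g 0 := g.strictMono (by linarith)
    rw [h0] at this
    linarith
  have hpos : 0 < min (g s) (-g (-s)) := lt_min ha hb
  filter_upwards [Ioo_mem_nhdsGT hpos] with s' hs' y hy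
  rcases le_abs.1 hy with h1 | h1
  · have := g.monotone h1
    have h2 := min_le_left (g s) (-g (-s))
    exact (hs'.2.le.trans (h2.trans this)).trans (le_abs_self _)
  · have := g.monotone (show y ≤ -s by linarith)
    have h2 := min_le_right (g s) (-g (-s))
    have h3 := neg_le_abs (g y)
    linarith [hs'.2]

theorem H3_seq {q : Q4} (h0 : Fx q 0) {c : ℝ} (hc : 0 < c) :
    ∃ m : ℕ → ℝ, m 0 = c ∧ (∀ n, 0 < m n) ∧ (∀ n, m (n + 1) ≤ m n) ∧
      ∀ n i y, m n ≤ |y| → m (n + 1) ≤ |q i y| ∧ m (n + 1) ≤ |(q i)⁻¹ y| := by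
  have key : ∀ s : {s : ℝ // 0 < s}, ∃ s' : {s : ℝ // 0 < s}, s'.1 ≤ s.1 ∧
      ∀ i y, s.1 ≤ |y| → s'.1 ≤ |q i y| ∧ s'.1 ≤ |(q i)⁻¹ y| := by
    rintro ⟨s, hs⟩
    have h1 : ∀ᶠ s' in 𝓝[>] (0 : ℝ), ∀ i, ∀ y, s ≤ |y| → s' ≤ |q i y| :=
      eventually_all.2 fun i => H3_low (h0 i) hs
    have h2 : ∀ᶠ s' in 𝓝[>] (0 : ℝ), ∀ i, ∀ y, s ≤ |y| → s' ≤ |(q i)⁻¹ y| :=
      eventually_all.2 fun i => H3_low (by
        have := H3_inv_apply (q i) 0
        rw [h0 i] at this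
        exact this) hs
    obtain ⟨s', h3, h4, h5⟩ := (h1.and (h2.and (Ioo_mem_nhdsGT hs))).exists
    exact ⟨⟨s', h5.1⟩, h5.2.le, fun i y hy => ⟨h3 i y hy, h4 i y hy⟩⟩
  choose f hf1 hf2 using key
  let m : ℕ → {s : ℝ // 0 < s} := fun n => Nat.rec ⟨c, hc⟩ (fun _ s => f s) n
  exact ⟨fun n => (m n).1, rfl, fun n => (m n).2, fun n => hf1 (m n), fun n i y hy => hf2 (m n) i y hy⟩

/-- The normalised Lemma H. -/
theorem LemH0_of_LemH2 (h : LemH2) : LemH0 := by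
  intro q hq h0 hv0 hv2 ε hε r hr
  set v : Fin 4 → ℝ := fun i => LD (q i) 0 with hv
  obtain ⟨η, hη, hscale⟩ := LemH2_scale h v hv0 hv2 (half_pos hε)
  obtain ⟨C, hC, hout⟩ := interp_out
  have hC0 : 0 < C := lt_of_lt_of_le one_pos hC
  set η₀ : ℝ := min (min η 1) (ε / 2) with hη₀
  have hη₀pos : 0 < η₀ := lt_min (lt_min hη one_pos) (half_pos hε)
  have e1 : η₀ ≤ η := (min_le_left _ _).trans (min_le_left _ _)
  have e2 : η₀ ≤ 1 := (min_le_left _ _).trans (min_le_right _ _)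
  have e3 : η₀ ≤ ε / 2 := min_le_right _ _
  set η₁ : ℝ := η₀ / C with hη₁
  have hη₁pos : 0 < η₁ := div_pos hη₀pos hC0
  have e4 : C * η₁ = η₀ := by rw [hη₁, mul_div_cancel₀ _ hC0.ne']
  have e5 : η₁ ≤ η₀ := div_le_self hη₀pos.le hC
  -- the radius `r₁`
  obtain ⟨r₁, hr₁, hr₁r, hL⟩ : ∃ r₁ : ℝ, 0 < r₁ ∧ r₁ ≤ r ∧
      ∀ i x, |x| ≤ r₁ → |LD (q i) x - v i| ≤ η₁ := by
    have h1 : ∀ᶠ x in 𝓝 (0 : ℝ), ∀ i, |LD (q i) x - v i| < η₁ := by
      refine eventually_all.2 fun i => ?_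
      have h2 : Tendsto (fun x => LD (q i) x) (𝓝 0) (𝓝 (v i)) := (continuous_LD (hq i)).tendsto 0
      have h3 := (Metric.tendsto_nhds.1 h2) η₁ hη₁pos
      filter_upwards [h3] with x hx
      rwa [Real.dist_eq] at hx
    obtain ⟨δ, hδ, h2⟩ := Metric.eventually_nhds_iff.1 h1
    refine ⟨min (δ / 2) r, lt_min (half_pos hδ) hr, min_le_right _ _, fun i x hx => ?_⟩
    refine (h2 ?_ i).le
    rw [Real.dist_eq, sub_zero]
    exact (hx.trans (min_le_left _ _)).trans_lt (by linarith)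
  -- the maps `qt`
  have hqt : ∀ i, ∃ g' : ℝ ≃o ℝ, g' ∈ Dd ∧ (∀ x, |x| ≤ r₁ / 2 → g' x = q i x) ∧
      (∀ x, r₁ ≤ |x| → g' x = Real.exp (v i) * x) ∧ ∀ x, |LD g' x - v i| ≤ C * η₁ := fun i =>
    hout (q i) (hq i) (h0 i) (v i) η₁ r₁ hr₁ hη₁pos.le (e4.le.trans e2) fun x hx => hL i x hx
  choose qt hqt1 hqt2 _ hqt3 using hqt
  set A : ℝ := r₁ / 2 with hA
  have hApos : 0 < A := half_pos hr₁
  have hqt0 : Fx qt 0 := fun i => by
    rw [hqt2 i 0 (by rw [abs_zero]; exact hApos.le)]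
    exact h0 i
  -- the bound for the derivatives
  set μ : ℝ := 1 + ∑ i, |v i| with hμ
  have hvμ : ∀ i, |v i| + 1 ≤ μ := fun i => by
    have := Finset.single_le_sum (f := fun i => |v i|) (fun j _ => abs_nonneg _) (Finset.mem_univ i)
    rw [hμ]
    linarith
  have hμ0 : 0 ≤ μ := by
    have := hvμ 0
    have h1 := abs_nonneg (v 0)
    linarith
  have hLμ : ∀ i x, |x| ≤ A → |LD (q i) x| ≤ μ := by
    intro i x hx
    have h1 := hL i x (by rw [hA] at hx; linarith)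
    have h2 : |LD (q i) x| ≤ |LD (q i) x - v i| + |v i| := by
      have := abs_add_le (LD (q i) x - v i) (v i)
      rwa [sub_add_cancel] at this
    linarith [hvμ i]
  set M : ℝ := Real.exp μ with hM
  have hM1 : 1 ≤ M := Real.one_le_exp hμ0
  have hM0 : 0 < M := Real.exp_pos μ
  set c : ℝ := A / M ^ 8 with hc
  have hcpos : 0 < c := div_pos hApos (pow_pos hM0 8)
  have hcA : ∀ n, n ≤ 8 → c * M ^ n ≤ A := by
    intro n hn
    have h1 : M ^ n ≤ M ^ 8 := pow_le_pow_right₀ hM1 hn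
    calc c * M ^ n ≤ c * M ^ 8 := mul_le_mul_of_nonneg_left h1 hcpos.le
      _ = A := by rw [hc, div_mul_cancel₀ _ (pow_pos hM0 8).ne']
  have hcn : ∀ n : ℕ, c ≤ c * M ^ n := fun n => le_mul_of_one_le_right hcpos.le (one_le_pow₀ hM1)
  obtain ⟨m, hm0, hmpos, hmanti, hm⟩ := H3_seq h0 hcpos
  have hmle : ∀ n, n ≤ 8 → m 8 ≤ m n := fun n hn => antitone_nat_of_succ_le hmanti hn
  set ρ : ℝ := m 8 with hρ
  have hρpos : 0 < ρ := hmpos 8
  have hρc : ρ ≤ c := by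
    rw [← hm0]
    exact hmle 0 (by norm_num)
  have hcA0 : c ≤ A := by
    have := hcA 0 (by norm_num)
    simpa using this
  have hρr : ρ ≤ r := by
    rw [hA] at hcA0
    linarith
  -- the maps `qt'`
  obtain ⟨qt', t1, t2, t3, t4, t5⟩ := hscale ρ hρpos qt hqt1 hqt0
    (fun i x => (hqt3 i x).trans (e4.le.trans e1))
  -- `qt'` maps `[-ρ, ρ]` onto `qt [-ρ, ρ]`
  have hmap : ∀ i x, |x| ≤ ρ → |(qt i)⁻¹ (qt' i x)| ≤ ρ := by
    intro i x hx
    obtain ⟨hx1, hx2⟩ := abs_le.1 hx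
    rw [abs_le]
    constructor
    · have h1 : qt i (-ρ) ≤ qt i ((qt i)⁻¹ (qt' i x)) := by
        rw [H3_apply_inv, ← t2 i (-ρ) (by rw [abs_neg, abs_of_pos hρpos])]
        exact (qt' i).monotone hx1
      exact (qt i).le_iff_le.1 h1
    · have h1 : qt i ((qt i)⁻¹ (qt' i x)) ≤ qt i ρ := by
        rw [H3_apply_inv, ← t2 i ρ (by rw [abs_of_pos hρpos])]
        exact (qt' i).monotone hx2
      exact (qt i).le_iff_le.1 h1
  set q' : Q4 := fun i => q i * (qt i)⁻¹ * qt' i with hq'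
  have hq'm : InDd q' := fun i => Dd.mul_mem (Dd.mul_mem (hq i) (Dd.inv_mem (hqt1 i))) (t1 i)
  have hq'out : ∀ i x, ρ ≤ |x| → q' i x = q i x := by
    intro i x hx
    show q i ((qt i)⁻¹ (qt' i x)) = q i x
    rw [t2 i x hx, H3_inv_apply]
  have hq'in : ∀ i x, |x| ≤ A → q' i x = qt' i x := by
    intro i x hx
    rcases le_total ρ |x| with h1 | h1
    · rw [hq'out i x h1, t2 i x h1, hqt2 i x hx]
    · show q i ((qt i)⁻¹ (qt' i x)) = qt' i x
      have h2 := hmap i x h1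
      rw [← hqt2 i _ (h2.trans (hρc.trans hcA0)), H3_apply_inv]
  -- growth
  have hP : ∀ i, H3_P (q i) ρ A μ := fun i z hz hzA =>
    H3_bounds (hq i) (h0 i) (hLμ i) (hρpos.trans_le hz) hzA
  have hPcongr : ∀ g g' : ℝ ≃o ℝ, (∀ x, ρ ≤ |x| → |x| ≤ A → g' x = g x) → H3_P g ρ A μ →
      H3_P g' ρ A μ := by
    intro g g' hgg hg z hz hzA
    have hz0 : 0 < z := hρpos.trans_le hz
    rw [hgg z (by rw [abs_of_pos hz0]; exact hz) (by rw [abs_of_pos hz0]; exact hzA),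
      hgg (-z) (by rw [abs_neg, abs_of_pos hz0]; exact hz)
        (by rw [abs_neg, abs_of_pos hz0]; exact hzA)]
    exact hg z hz hzA
  have hPt : ∀ i, H3_P (qt i) ρ A μ := fun i =>
    hPcongr _ _ (fun x _ hx => hqt2 i x hx) (hP i)
  have hPt' : ∀ i, H3_P (qt' i) ρ A μ := fun i =>
    hPcongr _ _ (fun x hx _ => t2 i x hx) (hPt i)
  -- the words
  have hKstep : ∀ (p : Q4), (∀ i, H3_P (p i) ρ A μ) → ∀ n < 8, ∀ i, ∀ y, |y| ≤ c * M ^ n →
      |p i y| ≤ c * M ^ (n + 1) ∧ |(p i)⁻¹ y| ≤ c * M ^ (n + 1) := by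
    intro p hp n hn i y hy
    have h1 : Real.exp μ * (c * M ^ n) = c * M ^ (n + 1) := by
      rw [← hM, pow_succ]
      ring
    have h2 := H3_step (hp i) hμ0 hρpos (hρc.trans (hcn n)) (by rw [h1]; exact hcA (n + 1) hn) hy
    rw [h1] at h2
    exact h2
  have hw1 : ∀ x, |x| ≤ c → wrd q' x = wrd qt' x := by
    intro x hx
    refine H3_wrd_agree (K := fun n => {y | |y| ≤ c * M ^ n}) ?_ ?_ (by simpa using hx)
    · intro n hn i y hy
      refine ⟨hq'in i y (le_trans hy (hcA n hn.le)), (hKstep qt' hPt' n hn i y hy).1⟩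
    · intro n hn i y hy
      have h1 := (hKstep qt' hPt' n hn i y hy).2
      exact ⟨hq'in i _ (h1.trans (hcA (n + 1) hn)), h1⟩
  have hw2 : ∀ x, |x| ≤ c → wrd qt x = wrd q x := by
    intro x hx
    refine H3_wrd_agree (K := fun n => {y | |y| ≤ c * M ^ n}) ?_ ?_ (by simpa using hx)
    · intro n hn i y hy
      refine ⟨hqt2 i y (le_trans hy (hcA n hn.le)), (hKstep q hP n hn i y hy).1⟩
    · intro n hn i y hy
      have h1 := (hKstep q hP n hn i y hy).2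
      exact ⟨hqt2 i _ (h1.trans (hcA (n + 1) hn)), h1⟩
  have hw3 : ∀ x, c ≤ |x| → wrd q' x = wrd q x := by
    intro x hx
    refine H3_wrd_agree (K := fun n => {y | m n ≤ |y|}) ?_ ?_ (by
      show m 0 ≤ |x|
      rw [hm0]
      exact hx)
    · intro n hn i y hy
      exact ⟨hq'out i y ((hmle n hn.le).trans hy), (hm n i y hy).1⟩
    · intro n hn i y hy
      have h1 := (hm n i y hy).2
      exact ⟨hq'out i _ ((hmle (n + 1) hn).trans h1), h1⟩
  refine ⟨q', fun i => ⟨hq'm i, fun x hx => hq'out i x (hρr.trans hx), fun x => ?_⟩, ?_, ?_⟩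
  · rcases le_or_gt ρ |x| with h1 | h1
    · -- outside: equal
      have h2 : LD (q' i) x = LD (q i) x := by
        rcases le_abs.1 h1 with h3 | h3
        · refine LD_congr_closure (hq'm i) (hq i) (s := Ioi ρ) isOpen_Ioi (fun y hy => ?_) ?_
          · exact hq'out i y (le_trans (le_of_lt hy) (le_abs_self y))
          · rw [closure_Ioi]
            exact h3
        · refine LD_congr_closure (hq'm i) (hq i) (s := Iio (-ρ)) isOpen_Iio (fun y hy => ?_) ?_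
          · have h4 : y < -ρ := hy
            exact hq'out i y (le_trans (by linarith) (neg_le_abs y))
          · rw [closure_Iio]
            show x ≤ -ρ
            linarith
      rw [h2, sub_self, abs_zero]
      exact hε.le
    · have h2 : LD (q' i) x = LD (qt' i) x := by
        refine LD_congr (s := Ioo (-ρ) ρ) isOpen_Ioo (fun y hy => ?_) ?_
        · refine hq'in i y ((abs_le.2 ⟨hy.1.le, hy.2.le⟩).trans (hρc.trans hcA0))
        · exact abs_lt.1 h1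
      have h3 := t3 i x
      have h4 := hL i x (by rw [hA] at hcA0; linarith)
      rw [h2]
      have h5 : LD (qt' i) x - LD (q i) x = (LD (qt' i) x - v i) - (LD (q i) x - v i) := by ring
      rw [h5]
      have h6 := abs_sub (LD (qt' i) x - v i) (LD (q i) x - v i)
      linarith
  · ext x
    rcases le_total |x| c with h1 | h1
    · rw [hw1 x h1, t4, hw2 x h1]
    · exact hw3 x h1
  · intro x hx
    rcases le_total |x| ρ with h1 | h1
    · exact absurd (fun i => by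
        rw [← hq'in i x (h1.trans (hρc.trans hcA0))]
        exact hx i) (t5 x)
    · refine ⟨fun i => by rw [← hq'out i x h1]; exact hx i, ?_⟩
      rintro rfl
      rw [abs_zero] at h1
      linarith

end Pool.Agent.helper32.FolG
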