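import Pool.Agent.helper32.FolG.H5
import Pool.Agent.helper97.FG.C7

/-!
# FOL, G-H6: the core lemma in the form `CoreX` from `FG.core`
-/

open Set Filter Topology
open scoped commutatorElement

namespace Pool.Agent.helper32.FolG

open Pool.Agent.helper35.FOL

theorem abs_sub_self_le {g : ℝ ≃o ℝ} (hg : g ∈ Dd) (h0 : g 0 = 0) {c : ℝ}
    (h : ∀ x, |LD g x| ≤ c) (x : ℝ) : |g x - x| ≤ (Real.exp c - 1) * |x| := by
  have := Convex.norm_image_sub_le_of_norm_deriv_le (f := fun y => g y - y) (s := univ)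
    (C := Real.exp c - 1) (x := 0) (y := x)
    (fun z _ => (diffAt hg z).sub differentiableAt_id) (fun z _ => ?_) convex_univ trivial trivial
  · simpa [Real.norm_eq_abs, h0] using this
  · have hd : deriv (fun y => g y - y) z = deriv g z - 1 :=
      ((hasDeriv hg z).sub (hasDerivAt_id' z)).deriv
    rw [hd, Real.norm_eq_abs, deriv_eq_exp hg]
    have h1 := abs_le.1 (h z)
    rw [abs_le]
    have h2 : Real.exp (LD g z) ≤ Real.exp c := Real.exp_le_exp.2 h1.2
    have h3 : Real.exp (-c) ≤ Real.exp (LD g z) := Real.exp_le_exp.2 h1.1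
    have h4 : 2 ≤ Real.exp (-c) + Real.exp c := by
      have := Real.add_one_le_exp c
      have := Real.add_one_le_exp (-c)
      linarith
    constructor <;> linarith

/-- The exponential coordinate. -/
noncomputable def Ex (R v t : ℝ) : ℝ := R * Real.exp (v * t)

theorem hasDerivAt_Ex (R v t : ℝ) : HasDerivAt (Ex R v) (R * v * Real.exp (v * t)) t := by
  have h1 : HasDerivAt (fun y : ℝ => v * y) v t := by
    simpa using (hasDerivAt_id t).const_mul v
  have h2 := (h1.exp).const_mul R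
  have e : R * v * Real.exp (v * t) = R * (Real.exp (v * t) * v) := by ring
  rw [e]
  exact h2

theorem deriv_Ex (R v : ℝ) : deriv (Ex R v) = fun t => R * v * Real.exp (v * t) :=
  funext fun t => (hasDerivAt_Ex R v t).deriv

theorem log_deriv_Ex {R v : ℝ} (hR : 0 < R) (hv : 0 < v) (t : ℝ) :
    Real.log (deriv (Ex R v) t) = Real.log (R * v) + v * t := by
  rw [deriv_Ex, Real.log_mul (by positivity) (Real.exp_pos _).ne', Real.log_exp]

theorem coord_Ex {R v : ℝ} (hR : 0 < R) (hv : 0 < v) : FG.Coord (Ex R v) v R 0 where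
  l_pos := hv
  x₀_pos := hR
  smooth := by unfold Ex; fun_prop
  pos t := by unfold Ex; positivity
  dpos t := by rw [deriv_Ex]; positivity
  dmono := by
    rw [deriv_Ex]
    intro s t hst
    have : Real.exp (v * s) ≤ Real.exp (v * t) := Real.exp_le_exp.2 (by nlinarith)
    exact mul_le_mul_of_nonneg_left this (by positivity)
  top := by
    unfold Ex
    exact (Real.tendsto_exp_atTop.comp (tendsto_id.const_mul_atTop hv)).const_mul_atTop hR
  exp t _ := rfl
  lip s t := by
    rw [log_deriv_Ex hR hv, log_deriv_Ex hR hv, show Real.log (R * v) + v * s -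
      (Real.log (R * v) + v * t) = v * (s - t) by ring, abs_mul, abs_of_pos hv]

theorem lift_lin (R v : ℝ) : FG.IsLift (Ex R v) (lin v) (FG.tr 1) (FG.tr 1) where
  zero := by rw [lin_apply, mul_zero]
  pos t := by
    rw [lin_apply, FG.tr_apply]
    unfold Ex
    rw [mul_add, Real.exp_add, mul_one]; ring
  neg t := by
    rw [lin_apply, FG.tr_apply]
    unfold Ex
    rw [mul_add, Real.exp_add, mul_one]; ring

/-- size of the parts -/
theorem part_bound {R v s : ℝ} (hR : 0 < R) (hv : 0 < v) {p t : ℝ}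
    (h1 : Ex R v p ≤ Real.exp s * Ex R v t) (h2 : Real.exp (-s) * Ex R v t ≤ Ex R v p) :
    |v * (p - t)| ≤ s := by
  unfold Ex at *
  have h1' : Real.exp (v * p) ≤ Real.exp (s + v * t) := by
    rw [Real.exp_add]
    have : R * Real.exp (v * p) ≤ R * (Real.exp s * Real.exp (v * t)) := by linarith
    exact le_of_mul_le_mul_left this hR
  have h2' : Real.exp (-s + v * t) ≤ Real.exp (v * p) := by
    rw [Real.exp_add]
    have : R * (Real.exp (-s) * Real.exp (v * t)) ≤ R * Real.exp (v * p) := by linarith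
    exact le_of_mul_le_mul_left this hR
  rw [Real.exp_le_exp] at h1' h2'
  rw [abs_le]
  constructor <;> linarith

theorem coreX : CoreX := by
  intro v κ θ₀ θ₁ R m τ s θ hv hκ hκθ hθθ hθR hm hQ hs0 hs hθ
  have hθ₁0 : 0 < θ₁ := by linarith
  have hev : 1 < Real.exp v := Real.one_lt_exp_iff.2 hv
  have hev0 : 0 < Real.exp v := Real.exp_pos v
  have hR : 0 < R := lt_of_lt_of_le (by positivity) hθR
  have hE := coord_Ex hR hv
  have hθ' : 0 < θ / (1 + v) := by positivity
  have hθ'v : (1 + v) * (θ / (1 + v)) = θ := by field_simp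
  have hθ'θ : θ / (1 + v) ≤ θ := div_le_self hθ.le (by linarith)
  have hθE : θ₁ < Ex R v (-(s / v) - 1) := by
    unfold Ex
    have e1 : v * (-(s / v) - 1) = -(s + v) := by field_simp; ring
    rw [e1, Real.exp_neg, ← div_eq_mul_inv, lt_div_iff₀ (Real.exp_pos _), Real.exp_add]
    have h1 : Real.exp s ≤ 2 := by
      have h2 : Real.exp s ≤ Real.exp (1 / 2) := Real.exp_le_exp.2 (by linarith)
      have h3 : Real.exp (1 / 2) ≤ 2 := by
        have := Real.exp_bound_div_one_sub_of_interval (x := 1 / 2) (by norm_num) (by norm_num)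
        norm_num at this
        exact this
      linarith
    calc θ₁ * (Real.exp s * Real.exp v) ≤ θ₁ * (2 * Real.exp v) := by gcongr
      _ < 4 * Real.exp v ^ 2 * θ₁ := by nlinarith [mul_pos hθ₁0 hev0]
      _ ≤ R := hθR
  obtain ⟨ηc, hηc, hcore⟩ := FG.core hE (lin_mem v) (lift_lin R v) (cu := Real.log m) hκ hκθ
    hθθ.le (K₀ := s / v) (by positivity) hθE (s₀ := 2 * s) (by positivity) (by linarith) hθ'
  obtain ⟨C, hC, hinterp⟩ := interp_out
  obtain ⟨η, hη, hη1, hη2, hη3⟩ : ∃ η : ℝ, 0 < η ∧ C * η ≤ 1 ∧ C * η ≤ ηc ∧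
      2 * (C * η) * (16 * R) ≤ ηc := by
    refine ⟨min (1 / C) (min (ηc / C) (ηc / (2 * C * (16 * R)))), by positivity, ?_, ?_, ?_⟩
    · calc _ ≤ C * (1 / C) := by gcongr; exact min_le_left _ _
        _ = _ := by field_simp
    · calc _ ≤ C * (ηc / C) := by gcongr; exact (min_le_right _ _).trans (min_le_left _ _)
        _ = _ := by field_simp
    · calc _ ≤ 2 * (C * (ηc / (2 * C * (16 * R)))) * (16 * R) := by
            gcongr; exact (min_le_right _ _).trans (min_le_right _ _)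
        _ = _ := by field_simp
  refine ⟨η, hη, ?_⟩
  intro f Y₀ u hf hY₀ hu hf0 hY₀0 hLf hLY₀ huQ ι hι hι1 hcollar
  obtain ⟨f₁, hf₁, hf₁in, hf₁out, hLf₁⟩ := hinterp f hf hf0 0 η (16 * R) (by positivity) hη.le hη1
    (fun x _ => by rw [sub_zero]; exact hLf x)
  have hf₁0 : f₁ 0 = 0 := by
    rw [hf₁in 0 (by rw [abs_zero]; positivity), hf0]
  have hLf₁' : ∀ x, |LD f₁ x| ≤ C * η := fun x => by simpa using hLf₁ x
  have hnear : FG.Near ηc f₁ := by
    intro x
    refine ⟨?_, (hLf₁' x).trans hη2⟩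
    rcases le_or_gt (16 * R) |x| with hx | hx
    · rw [hf₁out x hx]
      simp [hηc.le]
    · have h1 := abs_sub_self_le hf₁ hf₁0 hLf₁' x
      have h2 : Real.exp (C * η) - 1 ≤ 2 * (C * η) := by
        have := Real.abs_exp_sub_one_le (x := C * η) (by
          rw [abs_of_nonneg (by positivity)]; exact hη1)
        rw [abs_of_nonneg (by positivity : 0 ≤ C * η)] at this
        exact (le_abs_self _).trans this
      calc |f₁ x - x| ≤ (Real.exp (C * η) - 1) * |x| := h1
        _ ≤ 2 * (C * η) * (16 * R) := by gcongr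
        _ ≤ ηc := hη3
  have hnear1 : FG.Near ηc 1 := by
    intro x
    have e1 : (1 : ℝ ≃o ℝ) x = x := rfl
    rw [e1, LD_one]
    simp [hηc.le]
  obtain ⟨yp, hyp, ym, hym, hlift⟩ := FG.exists_parts hE hY₀ hY₀0
  have hYup : ∀ x, |Y₀ x| ≤ Real.exp s * |x| :=
    abs_le_of_LD hY₀ hY₀0 (fun y => (abs_le.1 (hLY₀ y)).2)
  have hYlow : ∀ x, Real.exp (-s) * |x| ≤ |Y₀ x| :=
    le_abs_of_LD hY₀ hY₀0 (fun y => (abs_le.1 (hLY₀ y)).1)
  have hEpos : ∀ t, 0 < Ex R v t := hE.pos
  have hypv : ∀ t, |v * (yp t - t)| ≤ s := by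
    intro t
    have h1 := hYup (Ex R v t)
    have h2 := hYlow (Ex R v t)
    rw [hlift.pos, abs_of_pos (hEpos _), abs_of_pos (hEpos _)] at h1 h2
    exact part_bound hR hv h1 h2
  have hymv : ∀ t, |v * (ym t - t)| ≤ s := by
    intro t
    have h1 := hYup (-Ex R v t)
    have h2 := hYlow (-Ex R v t)
    rw [hlift.neg, abs_neg, abs_neg, abs_of_pos (hEpos _), abs_of_pos (hEpos _)] at h1 h2
    exact part_bound hR hv h1 h2
  have hdiv : ∀ {a : ℝ}, |v * a| ≤ s → |a| ≤ s / v := by
    intro a ha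
    rw [le_div_iff₀ hv, mul_comm]
    rwa [abs_mul, abs_of_pos hv] at ha
  have hLyp : ∀ t, |LD yp t| ≤ 2 * s := by
    intro t
    have h1 := FG.IsLift.LD_pos hE hY₀ hyp hlift t
    rw [log_deriv_Ex hR hv, log_deriv_Ex hR hv] at h1
    have h2 := abs_le.1 (hLY₀ (Ex R v t))
    have h3 := abs_le.1 (hypv t)
    rw [abs_le]
    constructor <;> linarith [h2.1, h2.2, h3.1, h3.2]
  have hLym : ∀ t, |LD ym t| ≤ 2 * s := by
    intro t
    have h1 := FG.IsLift.LD_neg hE hY₀ hym hlift t
    rw [log_deriv_Ex hR hv, log_deriv_Ex hR hv] at h1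
    have h2 := abs_le.1 (hLY₀ (-Ex R v t))
    have h3 := abs_le.1 (hymv t)
    rw [abs_le]
    constructor <;> linarith [h2.1, h2.2, h3.1, h3.2]
  have hexps : Real.exp s ≤ 2 := by
    have h2 : Real.exp s ≤ Real.exp (1 / 2) := Real.exp_le_exp.2 (by linarith)
    have h3 : Real.exp (1 / 2) ≤ 2 := by
      have := Real.exp_bound_div_one_sub_of_interval (x := 1 / 2) (by norm_num) (by norm_num)
      norm_num at this
      exact this
    linarith
  have huLD : ∀ x ∈ Icc (-κ) κ, LD u x = Real.log m := by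
    intro x hx
    have hcl : x ∈ closure (Ioo (-κ) κ) := by
      rw [closure_Ioo (by linarith)]; exact hx
    have hclosed : IsClosed {x | LD u x = Real.log m} :=
      isClosed_eq (continuous_LD hu) continuous_const
    refine hclosed.closure_subset_iff.2 (fun y hy => ?_) hcl
    have h1 : (⇑u) =ᶠ[𝓝 y] fun z => m * z + τ := by
      filter_upwards [Ioo_mem_nhds hy.1 hy.2] with z hz
      exact huQ z (abs_le.2 ⟨hz.1.le, hz.2.le⟩)
    have h2 : deriv (⇑u) y = m := by
      rw [h1.deriv_eq]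
      simp
    simp [LD, h2]
  have hcollar' : ∃ ι' : ℝ, 0 < ι' ∧ ∀ t, -ι' < t → t < ι' →
      lin v (Y₀ ((lin v)⁻¹ (Ex R v t))) = f₁ ((1 : ℝ ≃o ℝ) (Y₀ (Ex R v t))) ∧
      lin v (Y₀ ((lin v)⁻¹ (-Ex R v t))) = f₁ ((1 : ℝ ≃o ℝ) (Y₀ (-Ex R v t))) := by
    refine ⟨Real.log (1 + ι) / v, div_pos (Real.log_pos (by linarith)) hv, ?_⟩
    intro t ht1 ht2
    have h1 : v * t < Real.log (1 + ι) := by
      rw [lt_div_iff₀ hv] at ht2; linarith
    have h2 : -Real.log (1 + ι) < v * t := by
      rw [← neg_div, div_lt_iff₀ hv] at ht1; linarith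
    have h3 : Ex R v t ≤ (1 + ι) * R := by
      unfold Ex
      have : Real.exp (v * t) ≤ 1 + ι := by
        rw [← Real.exp_log (by linarith : 0 < 1 + ι)]
        exact Real.exp_le_exp.2 h1.le
      nlinarith
    have h4 : (1 - ι) * R ≤ Ex R v t := by
      unfold Ex
      have h5 : 1 - ι ≤ Real.exp (v * t) := by
        have h6 : Real.exp (-Real.log (1 + ι)) ≤ Real.exp (v * t) := Real.exp_le_exp.2 h2.le
        rw [Real.exp_neg, Real.exp_log (by linarith)] at h6
        have h7 : 1 - ι ≤ (1 + ι)⁻¹ := by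
          rw [le_inv_comm₀ (by linarith) (by linarith), inv_eq_one_div, le_div_iff₀ (by linarith)]
          nlinarith
        linarith
      nlinarith
    have h5 : ∀ x, |x| = Ex R v t → lin v (Y₀ ((lin v)⁻¹ x)) = f₁ ((1 : ℝ ≃o ℝ) (Y₀ x)) := by
      intro x hx
      have e1 : (1 : ℝ ≃o ℝ) (Y₀ x) = Y₀ x := rfl
      rw [e1, lin_inv_apply, lin_apply, hcollar x (by rw [hx]; exact h4) (by rw [hx]; exact h3)]
      symm
      apply hf₁in
      calc |Y₀ x| ≤ Real.exp s * |x| := hYup x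
        _ ≤ 2 * ((1 + ι) * R) := by
            rw [hx]; exact mul_le_mul hexps h3 (hEpos t).le (by norm_num)
        _ ≤ 16 * R / 2 := by nlinarith
    exact ⟨h5 _ (abs_of_pos (hEpos t)), h5 _ (by rw [abs_neg, abs_of_pos (hEpos t)])⟩
  obtain ⟨Y, hY, ψ, hψ, zp, hzp, zm, hzm, hliftY, hYout, hψout, hNψ, hYeq, hzpb, hzmb⟩ :=
    hcore hu (fun x hx => by
      have hx' : |x| ≤ κ := abs_le.2 ⟨hx.1, hx.2⟩
      rw [huQ x hx']
      exact hQ x hx') huLD hf₁ (Dd.one_mem) hnear hnear1
      ⟨16 * R, fun x hx => by rw [hf₁out x hx, Real.exp_zero, one_mul]⟩ hY₀ hyp hym hlift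
      (fun t _ => ⟨hdiv (hypv t), hLyp t⟩) (fun t _ => ⟨hdiv (hymv t), hLym t⟩) hcollar'
  have hE1 : Ex R v (-1) = R / Real.exp v := by
    unfold Ex
    rw [show v * (-1) = -v by ring, Real.exp_neg]; rfl
  have hE0 : Ex R v 0 = R := by unfold Ex; simp
  have hLpos : ∀ x, x ≠ 0 → |LD Y x| ≤ 4 * s + θ := by
    intro x hx
    rcases le_or_gt R |x| with hxR | hxR
    · have hs : IsOpen {z : ℝ | R / Real.exp v < |z|} := isOpen_lt continuous_const continuous_abs
      have h1 : R / Real.exp v < |x| := lt_of_lt_of_le (div_lt_self hR hev) hxR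
      rw [LD_congr hs (fun z hz => hYout z (by rw [hE1]; exact le_of_lt hz)) h1]
      exact (hLY₀ x).trans (by linarith)
    · obtain ⟨t, ht⟩ := hE.surj (abs_pos.2 hx)
      have ht0 : t ≤ 0 := by
        by_contra hc
        push Not at hc
        have := hE.strictMono hc
        rw [hE0, ht] at this
        linarith
      have key : ∀ {z : ℝ ≃o ℝ}, |z t - t| ≤ s / v + θ / (1 + v) → |LD z t| ≤ 2 * s + θ / (1 + v) →
          |LD z t + v * (z t - t)| ≤ 4 * s + θ := by
        intro z h1 h2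
        have h3 : |v * (z t - t)| ≤ s + v * (θ / (1 + v)) := by
          rw [abs_mul, abs_of_pos hv]
          calc v * |z t - t| ≤ v * (s / v + θ / (1 + v)) := by gcongr
            _ = s + v * (θ / (1 + v)) := by field_simp
        calc |LD z t + v * (z t - t)| ≤ |LD z t| + |v * (z t - t)| := abs_add_le _ _
          _ ≤ (2 * s + θ / (1 + v)) + (s + v * (θ / (1 + v))) := add_le_add h2 h3
          _ = 3 * s + (1 + v) * (θ / (1 + v)) := by ring
          _ ≤ 4 * s + θ := by rw [hθ'v]; linarith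
      rcases abs_cases x with ⟨h1, _⟩ | ⟨h1, _⟩
      · have hx' : x = Ex R v t := by rw [ht, h1]
        have h2 := FG.IsLift.LD_pos hE hY hzp hliftY t
        rw [log_deriv_Ex hR hv, log_deriv_Ex hR hv] at h2
        rw [hx', h2]
        have h3 := key (hzpb t ht0).1 (hzpb t ht0).2
        convert h3 using 2
        ring
      · have hx' : x = -Ex R v t := by rw [ht, h1]; ring
        have h2 := FG.IsLift.LD_neg hE hY hzm hliftY t
        rw [log_deriv_Ex hR hv, log_deriv_Ex hR hv] at h2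
        rw [hx', h2]
        have h3 := key (hzmb t ht0).1 (hzmb t ht0).2
        convert h3 using 2
        ring
  have hLY : ∀ x, |LD Y x| ≤ 4 * s + θ := by
    intro x
    have hcl : IsClosed {x | |LD Y x| ≤ 4 * s + θ} :=
      isClosed_le (continuous_LD hY).abs continuous_const
    have hd : Dense {x : ℝ | x ≠ 0} := dense_compl_singleton 0
    exact hcl.closure_subset_iff.2 (fun y hy => hLpos y hy) (hd x)
  have hYR : ∀ x, |x| ≤ R → |Y x| ≤ 8 * R := by
    intro x hx
    have h1 := abs_le.1 hx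
    have hRv : R / Real.exp v ≤ R := div_le_self hR.le hev.le
    have h2 : Y R = Y₀ R := hYout R (by rw [hE1, abs_of_pos hR]; exact hRv)
    have h3 : Y (-R) = Y₀ (-R) := hYout (-R) (by rw [hE1, abs_neg, abs_of_pos hR]; exact hRv)
    have h4 : Y x ≤ Y R := Y.monotone h1.2
    have h5 : Y (-R) ≤ Y x := Y.monotone h1.1
    have h6 := abs_le.1 (hYup R)
    have h7 := abs_le.1 (hYup (-R))
    rw [abs_of_pos hR] at h6
    rw [abs_neg, abs_of_pos hR] at h7
    rw [h2] at h4
    rw [h3] at h5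
    have h8 : Real.exp s * R ≤ 2 * R := by gcongr
    rw [abs_le]
    constructor <;> linarith [h6.2, h7.1]
  refine ⟨Y, ψ, hY, hψ, hliftY.zero, fun x hx => hYout x (by rw [hE1]; exact hx), hψout, ?_, hLY,
    fun x => (hNψ x).2.trans hθ'θ⟩
  intro x hx
  have h1 := hYeq x (by rw [hE0]; exact hx)
  have e1 : (1 : ℝ ≃o ℝ) (Y x) = Y x := rfl
  rw [e1, lin_inv_apply, lin_apply] at h1
  rw [h1]
  apply hf₁in
  have hus : ∀ x, |x| ≤ κ → θ₀ ≤ u x ∧ u x ≤ θ₁ := fun x hx => by
    rw [huQ x hx]; exact hQ x hx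
  have hθR' : θ₁ ≤ R := by
    have h1 : 1 ≤ Real.exp v ^ 2 := one_le_pow₀ hev.le
    have : θ₁ ≤ 4 * Real.exp v ^ 2 * θ₁ := by nlinarith
    linarith
  rcases le_or_gt |Y x| θ₁ with h5 | h5
  · exact (le_of_fix (fun y hy => comm_inv_fix hκ hκθ hψout hus hy) h5).trans (by linarith)
  · rw [comm_inv_fix hκ hκθ hψout hus h5]
    exact (hYR x hx).trans (by linarith)

end Pool.Agent.helper32.FolG
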