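import Pool.Agent.helper32.FolG.A3
import Pool.Agent.helper32.FolG.B4
import Pool.Agent.helper32.FolG.H3
import Pool.Agent.helper32.FolG.H6

/-!
# FOL: Theorem G from Lemma N
-/

namespace Pool.Agent.helper32.FolG

open Pool.Agent.helper35.FOL

/-- **Lemma H**. -/
theorem lemH : LemH := LemH_of_LemH0 (LemH0_of_LemH2 (LemH2_of_core coreX))

/-- **Theorem G** from Lemma N. -/
theorem theoremG_of_N (hN : LemN) : TheoremG := theoremG_of lemH hN

end Pool.Agent.helper32.FolG
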