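import Pool.Agent.helper32.FolG.Base

/-!
# FOL, G-H0: the global unit-scale form of Lemma H
-/

open Set Filter Topology

namespace Pool.Agent.helper32.FolG

open Pool.Agent.helper35.FOL

/-- Lemma H for maps which are globally close to linear maps, at unit scale. The constant `η`
depends only on the logarithms of the multipliers and on `ε`. -/
def LemH2 : Prop :=
  ∀ v : Fin 4 → ℝ, 0 < v 0 → (v 2 ≠ 0 ∨ (v 2 = 0 ∧ v 3 = 0)) → ∀ ε : ℝ, 0 < ε →
    ∃ η : ℝ, 0 < η ∧ ∀ q : Q4, InDd q → Fx q 0 → (∀ i x, |LD (q i) x - v i| ≤ η) →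
      ∃ q' : Q4, InDd q' ∧ (∀ i x, 1 ≤ |x| → q' i x = q i x) ∧
        (∀ i x, |LD (q' i) x - v i| ≤ ε) ∧ wrd q' = wrd q ∧ ∀ x, ¬ Fx q' x

end Pool.Agent.helper32.FolG
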