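import Pool.Agent.helper32.FolG.Base

/-!
# FOL, G-H2: transport of `b` by a repelling map
-/

open Set Filter Topology

namespace Pool.Agent.helper32.FolG

open Pool.Agent.helper35.FOL

/-- A repelling map expands. -/
theorem H2_expand {a : ℝ ≃o ℝ} (ha : a ∈ Dd) (ha0 : a 0 = 0) {v δ : ℝ} (hδ : δ ≤ v / 2)
    (hLa : ∀ x, |LD a x - v| ≤ δ) (x : ℝ) : Real.exp (v / 2) * |x| ≤ |a x| := by
  have hge : ∀ y, Real.exp (v / 2) ≤ deriv a y := by
    intro y
    rw [deriv_eq_exp ha y, Real.exp_le_exp]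
    have := (abs_le.1 (hLa y)).1
    linarith
  have hdiff : Differentiable ℝ a := ha.1.differentiable one_ne_zero
  rcases le_total 0 x with h | h
  · have h1 := mul_sub_le_image_sub_of_le_deriv hdiff hge h
    rw [ha0, sub_zero, sub_zero] at h1
    rw [abs_of_nonneg h]
    exact h1.trans (le_abs_self _)
  · have h1 := mul_sub_le_image_sub_of_le_deriv hdiff hge h
    rw [ha0, zero_sub, zero_sub] at h1
    rw [abs_of_nonpos h]
    exact h1.trans (neg_le_abs _)

/-- Solving `a b a⁻¹ = G b` (i.e. `[a,b] = G`) outside a small neighbourhood of the repelling fixed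
point `0` of `a`, starting from a map `b₁` which solves it for `1 ≤ |x|`:
`b_k = (a⁻¹ G)ᵏ b₁ aᵏ`. -/
theorem transport {a G b₁ : ℝ ≃o ℝ} (ha : a ∈ Dd) (hG : G ∈ Dd) (hb : b₁ ∈ Dd) (ha0 : a 0 = 0)
    (hG0 : G 0 = 0) (hb0 : b₁ 0 = 0) {v w δ : ℝ} (hv : 0 < v) (hδ : δ ≤ v / 2)
    (hLa : ∀ x, |LD a x - v| ≤ δ) (hLG : ∀ x, |LD G x| ≤ δ) (hLb : ∀ x, |LD b₁ x - w| ≤ δ)
    (heq : ∀ x, 1 ≤ |x| → a (b₁ x) = G (b₁ (a x))) (k : ℕ) :
    ∃ b : ℝ ≃o ℝ, b ∈ Dd ∧ b 0 = 0 ∧ (∀ x, 1 ≤ |x| → b x = b₁ x) ∧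
      (∀ x, Real.exp (-(k * (v / 2))) ≤ |x| → a (b x) = G (b (a x))) ∧
      ∀ x, |LD b x - w| ≤ (3 * k + 1) * δ := by
  induction k with
  | zero =>
    refine ⟨b₁, hb, hb0, fun _ _ => rfl, ?_, ?_⟩
    · intro x hx
      refine heq x ?_
      simpa using hx
    · intro x
      simpa using hLb x
  | succ k ih =>
    obtain ⟨b, hbD, hbz, hb1, hbe, hbL⟩ := ih
    have hfix : ∀ x, Real.exp (-(k * (v / 2))) ≤ |x| → (a⁻¹ * (G * (b * a))) x = b x := by
      intro x hx
      change a⁻¹ (G (b (a x))) = b x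
      rw [← hbe x hx]
      exact a.symm_apply_apply _
    have hain : a⁻¹ ∈ Dd := Dd.inv_mem ha
    have hba : b * a ∈ Dd := Dd.mul_mem hbD ha
    have hGba : G * (b * a) ∈ Dd := Dd.mul_mem hG hba
    refine ⟨a⁻¹ * (G * (b * a)), Dd.mul_mem hain hGba, ?_, ?_, ?_, ?_⟩
    · change a⁻¹ (G (b (a 0))) = 0
      rw [ha0, hbz, hG0]
      have h1 : a.symm (a 0) = 0 := a.symm_apply_apply 0
      rw [ha0] at h1
      exact h1
    · intro x hx
      rw [hfix x, hb1 x hx]
      refine le_trans ?_ hx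
      rw [Real.exp_le_one_iff, neg_nonpos]
      positivity
    · intro x hx
      have h1 : Real.exp (-(k * (v / 2))) ≤ |a x| := by
        refine le_trans ?_ (H2_expand ha ha0 hδ hLa x)
        refine le_trans ?_ (mul_le_mul_of_nonneg_left hx (Real.exp_pos _).le)
        rw [← Real.exp_add, Real.exp_le_exp]
        push_cast
        linarith
      rw [hfix (a x) h1]
      change a (a⁻¹ (G (b (a x)))) = G (b (a x))
      exact a.apply_symm_apply _
    · intro x
      rw [LD_mul hain hGba, LD_mul hG hba, LD_mul hbD ha, LD_inv ha]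
      set y := a⁻¹ ((G * (b * a)) x) with hy
      set z := (b * a) x with hz
      have h1 := abs_le.1 (hLa y)
      have h2 := abs_le.1 (hLG z)
      have h3 := abs_le.1 (hbL (a x))
      have h4 := abs_le.1 (hLa x)
      push_cast
      rw [abs_le]
      constructor
      · linarith [h1.1, h1.2, h2.1, h3.1, h4.1]
      · linarith [h1.1, h1.2, h2.2, h3.2, h4.2]

end Pool.Agent.helper32.FolG
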