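import Pool.Agent.helper32.FolG.H0
import Pool.Agent.helper32.FolG.H1

/-!
# FOL, G-H4: linearisation of `a₁` and of the second handle
-/

open Set Filter Topology
open scoped commutatorElement

namespace Pool.Agent.helper32.FolG

open Pool.Agent.helper35.FOL

/-- The affine maps `x ↦ e^{v 2} x + τ` and `x ↦ e^{v 3} x + ν₀` commute for a suitable `ν₀`. -/
theorem exists_commuting (v : Fin 4 → ℝ) (hv' : v 2 ≠ 0 ∨ (v 2 = 0 ∧ v 3 = 0)) :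
    ∃ K : ℝ, 1 ≤ K ∧ ∀ τ : ℝ, 0 ≤ τ → ∃ ν₀ : ℝ, |ν₀| ≤ K * τ ∧
      Real.exp (v 3) * τ + ν₀ = Real.exp (v 2) * ν₀ + τ := by
  rcases hv' with h | ⟨h2, h3⟩
  · have hne : Real.exp (v 2) - 1 ≠ 0 := by
      intro hc
      have : Real.exp (v 2) = 1 := by linarith
      exact h (Real.exp_eq_one_iff _ |>.mp this)
    refine ⟨max 1 |(Real.exp (v 3) - 1) / (Real.exp (v 2) - 1)|, le_max_left _ _, fun τ hτ => ?_⟩
    refine ⟨(Real.exp (v 3) - 1) / (Real.exp (v 2) - 1) * τ, ?_, ?_⟩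
    · rw [abs_mul, abs_of_nonneg hτ]
      exact mul_le_mul_of_nonneg_right (le_max_right _ _) hτ
    · field_simp
      ring
  · refine ⟨1, le_rfl, fun τ hτ => ⟨0, ?_, ?_⟩⟩
    · rw [abs_zero]; linarith
    · rw [h2, h3]; simp

/-- Upper Lipschitz bound at `0`. -/
theorem H4_upper {g : ℝ ≃o ℝ} (hg : g ∈ Dd) (h0 : g 0 = 0) {L : ℝ} (hL : ∀ x, |LD g x| ≤ L)
    (x : ℝ) : |g x| ≤ Real.exp L * |x| := by
  have h := Convex.norm_image_sub_le_of_norm_deriv_le (f := (g : ℝ → ℝ)) (C := Real.exp L)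
    (s := Set.univ) (x := 0) (y := x) (fun y _ => diffAt hg y) (fun y _ => by
      rw [Real.norm_eq_abs, abs_of_pos (deriv_pos hg y), deriv_eq_exp hg y]
      exact Real.exp_le_exp.mpr (le_trans (le_abs_self _) (hL y))) convex_univ (mem_univ _)
      (mem_univ _)
  rw [h0, sub_zero, sub_zero, Real.norm_eq_abs, Real.norm_eq_abs] at h
  exact h

theorem H4_inv0 {g : ℝ ≃o ℝ} (h0 : g 0 = 0) : g⁻¹ 0 = 0 := by
  have h : g⁻¹ (g 0) = 0 := g.symm_apply_apply 0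
  rwa [h0] at h

theorem H4_LDinv {g : ℝ ≃o ℝ} (hg : g ∈ Dd) {L : ℝ} (hL : ∀ x, |LD g x| ≤ L) (x : ℝ) :
    |LD g⁻¹ x| ≤ L := by
  rw [LD_inv hg, abs_neg]
  exact hL _

/-- Lower Lipschitz bound at `0`. -/
theorem H4_lower {g : ℝ ≃o ℝ} (hg : g ∈ Dd) (h0 : g 0 = 0) {L : ℝ} (hL : ∀ x, |LD g x| ≤ L)
    (x : ℝ) : |x| ≤ Real.exp L * |g x| := by
  have h := H4_upper (Dd.inv_mem hg) (H4_inv0 h0) (H4_LDinv hg hL) (g x)
  have h2 : g⁻¹ (g x) = x := g.symm_apply_apply x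
  rwa [h2] at h

/-- The commutator is close to the identity. -/
theorem H4_LDcomm {g h : ℝ ≃o ℝ} (hg : g ∈ Dd) (hh : h ∈ Dd) {v w e₁ e₂ : ℝ}
    (h1 : ∀ x, |LD g x - v| ≤ e₁) (h2 : ∀ x, |LD h x - w| ≤ e₂) (x : ℝ) :
    |LD ⁅g, h⁆ x| ≤ 2 * (e₁ + e₂) := by
  have hgi := Dd.inv_mem hg
  have hhi := Dd.inv_mem hh
  rw [commutatorElement_def, LD_mul (Dd.mul_mem (Dd.mul_mem hg hh) hgi) hhi,
    LD_mul (Dd.mul_mem hg hh) hgi, LD_mul hg hh, LD_inv hg, LD_inv hh]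
  have a1 := abs_le.mp (h1 (h (g⁻¹ (h⁻¹ x))))
  have a2 := abs_le.mp (h2 (g⁻¹ (h⁻¹ x)))
  have a3 := abs_le.mp (h1 (g⁻¹ (h⁻¹ x)))
  have a4 := abs_le.mp (h2 (h⁻¹ x))
  rw [abs_le]
  constructor <;> linarith [a1.1, a1.2, a2.1, a2.2, a3.1, a3.2, a4.1, a4.2]

theorem H4_apply_inv {g : ℝ ≃o ℝ} {x y : ℝ} (h : g y = x) : g⁻¹ x = y := by
  rw [← h]
  exact g.symm_apply_apply y

theorem H4_inv_apply (g : ℝ ≃o ℝ) (x : ℝ) : g (g⁻¹ x) = x := g.apply_symm_apply x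

theorem H4_mul_apply (g h : ℝ ≃o ℝ) (x : ℝ) : (g * h) x = g (h x) := rfl

theorem H4_comm_apply (g h : ℝ ≃o ℝ) (x : ℝ) : ⁅g, h⁆ x = g (h (g⁻¹ (h⁻¹ x))) := rfl

/-- Linearisation of `a₁` near `0`, and affine commuting replacements of `a₂, b₂` near `0` which
move `0`. The constants `K, ρ, r₂` depend only on `v`. -/
theorem exists_data (v : Fin 4 → ℝ) (hv : 0 < v 0) (hv' : v 2 ≠ 0 ∨ (v 2 = 0 ∧ v 3 = 0)) :
    ∃ K ρ r₂ : ℝ, 1 ≤ K ∧ 0 < r₂ ∧ r₂ ≤ ρ ∧ 2 * ρ ≤ 1 ∧ ∀ q : Q4, InDd q → Fx q 0 →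
      ∀ η δ : ℝ, 0 ≤ η → 0 ≤ δ → K * (η + δ) ≤ 1 → (∀ i x, |LD (q i) x - v i| ≤ η) →
      ∃ a u c : ℝ ≃o ℝ, a ∈ Dd ∧ u ∈ Dd ∧ c ∈ Dd ∧ a 0 = 0 ∧
        (∀ x, 2 * ρ ≤ |x| → a x = q 0 x ∧ u x = q 2 x ∧ c x = q 3 x) ∧
        (∀ x, |x| ≤ ρ → a x = Real.exp (v 0) * x ∧ u x = Real.exp (v 2) * x + δ * r₂) ∧
        (∀ x, |LD a x - v 0| ≤ K * (η + δ) ∧ |LD u x - v 2| ≤ K * (η + δ) ∧
          |LD c x - v 3| ≤ K * (η + δ)) ∧
        (∀ x, |x| ≤ r₂ → ⁅u, c⁆ x = x) ∧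
        (∀ x, |LD (wrd q * ⁅u, c⁆⁻¹) x| ≤ K * (η + δ)) ∧
        ∀ x, 1 ≤ |x| → a (q 1 x) = (wrd q * ⁅u, c⁆⁻¹) (q 1 (a x)) := by
  obtain ⟨K₀, hK₀, hcomm⟩ := exists_commuting v hv'
  obtain ⟨C, hC, hint⟩ := interp_in
  set Lm : ℝ := 1 + ∑ i, |v i| with hLm
  set M : ℝ := Real.exp Lm with hM
  have hvL : ∀ i, |v i| + 1 ≤ Lm := by
    intro i
    have : |v i| ≤ ∑ i, |v i| :=
      Finset.single_le_sum (f := fun i => |v i|) (fun j _ => abs_nonneg (v j)) (Finset.mem_univ i)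
    rw [hLm]; linarith
  have hLm0 : 0 ≤ Lm := by
    have := hvL 0
    have := abs_nonneg (v 0)
    linarith
  have hM1 : 1 ≤ M := Real.one_le_exp hLm0
  have hM0 : 0 < M := by linarith
  have hexpM : ∀ i, Real.exp (v i) ≤ M := fun i =>
    Real.exp_le_exp.mpr (by have := hvL i; have := le_abs_self (v i); linarith)
  have hexpM' : ∀ i, 1 ≤ M * Real.exp (v i) := by
    intro i
    rw [hM, ← Real.exp_add]
    refine Real.one_le_exp ?_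
    have := hvL i; have := neg_abs_le (v i); linarith
  set ρ : ℝ := (M ^ 6)⁻¹ / 2 with hρ
  have hρ0 : 0 < ρ := by positivity
  have hρM : 2 * ρ * M ^ 6 = 1 := by
    rw [hρ]; field_simp
  set r₂ : ℝ := ρ / (4 * M ^ 3) with hr₂
  have hr₂0 : 0 < r₂ := by positivity
  have hr₂M : 4 * M ^ 3 * r₂ = ρ := by
    rw [hr₂]; field_simp
  have hpow : ∀ k l : ℕ, k ≤ l → M ^ k ≤ M ^ l := fun k l h => pow_le_pow_right₀ hM1 h
  have hM3 : 1 ≤ M ^ 3 := one_le_pow₀ hM1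
  have hr₂ρ : r₂ ≤ ρ := by nlinarith
  have hρ1 : 2 * ρ ≤ 1 := by
    have : 1 ≤ M ^ 6 := one_le_pow₀ hM1
    nlinarith
  have hK1 : 1 ≤ C * K₀ := by nlinarith
  refine ⟨12 * (C * K₀), ρ, r₂, by linarith, hr₂0, hr₂ρ, hρ1, ?_⟩
  intro q hq hf η δ hη hδ hKs hLD
  -- smallness
  have hCK : C * K₀ * (η + δ) ≤ 1 / 12 := by nlinarith
  have hηδ : η + δ ≤ 1 / 12 := by nlinarith [mul_nonneg (by linarith : (0:ℝ) ≤ C * K₀ - 1) (by linarith : (0:ℝ) ≤ η + δ)]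
  have hCη : C * η ≤ C * K₀ * (η + δ) := by
    have h1 : C * η ≤ C * K₀ * η := by nlinarith [mul_nonneg (by linarith : (0:ℝ) ≤ C) hη]
    nlinarith [mul_nonneg (by linarith : (0:ℝ) ≤ C * K₀) hδ]
  have hCηδ : C * (η + δ) ≤ C * K₀ * (η + δ) := by
    nlinarith [mul_nonneg (by linarith : (0:ℝ) ≤ C) (by linarith : (0:ℝ) ≤ η + δ)]
  have hCηKδ : C * (η + K₀ * δ) ≤ C * K₀ * (η + δ) := by
    nlinarith [mul_nonneg (by linarith : (0:ℝ) ≤ C) hη]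
  have hK₀δ : K₀ * δ ≤ 1 := by
    nlinarith [mul_nonneg (by linarith : (0:ℝ) ≤ K₀) hδ, mul_nonneg (by linarith : (0:ℝ) ≤ K₀) hη]
  -- Lipschitz bounds
  have hLDL : ∀ i x, |LD (q i) x| ≤ Lm := by
    intro i x
    have h1 := hLD i x
    have h2 := hvL i
    have h3 : |LD (q i) x| ≤ |LD (q i) x - v i| + |v i| := by
      have := abs_add_le (LD (q i) x - v i) (v i)
      simpa using this
    linarith
  have hup : ∀ i x, |q i x| ≤ M * |x| := fun i x => H4_upper (hq i) (hf i) (hLDL i) x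
  have hlo : ∀ i x, |x| ≤ M * |q i x| := fun i x => H4_lower (hq i) (hf i) (hLDL i) x
  -- the maps
  have hτ0 : 0 ≤ δ * r₂ := mul_nonneg hδ hr₂0.le
  have hτ1 : δ * r₂ ≤ r₂ := by nlinarith
  obtain ⟨ν₀, hν₀, hcm⟩ := hcomm (δ * r₂) hτ0
  have hν₀1 : |ν₀| ≤ r₂ := by
    refine hν₀.trans ?_
    have : K₀ * (δ * r₂) = (K₀ * δ) * r₂ := by ring
    rw [this]
    nlinarith
  have hrexp : ∀ i, r₂ ≤ Real.exp (v i) * (2 * ρ) := by
    intro i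
    have h1 := hexpM' i
    have h2 : 0 < Real.exp (v i) := Real.exp_pos _
    have h3 : M ≤ M ^ 3 := by nlinarith [hpow 1 3 (by norm_num)]
    have h4 : r₂ ≤ r₂ * (M * Real.exp (v i)) := by nlinarith
    have h5 : M * r₂ ≤ 2 * ρ := by nlinarith
    calc r₂ ≤ r₂ * (M * Real.exp (v i)) := h4
      _ = Real.exp (v i) * (M * r₂) := by ring
      _ ≤ Real.exp (v i) * (2 * ρ) := mul_le_mul_of_nonneg_left h5 h2.le
  obtain ⟨a, ha, hao, hai, haL⟩ := hint (q 0) (hq 0) (hf 0) (v 0) η 0 (2 * ρ) 0 (by linarith)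
    hη le_rfl (by linarith [hCη, hCK]) (by simp) (hLD 0)
  obtain ⟨u, hu, huo, hui, huL⟩ := hint (q 2) (hq 2) (hf 2) (v 2) η δ (2 * ρ) (δ * r₂)
    (by linarith) hη hδ (by linarith [hCηδ, hCK]) (by
      rw [abs_of_nonneg hτ0]
      calc δ * r₂ ≤ δ * (Real.exp (v 2) * (2 * ρ)) := mul_le_mul_of_nonneg_left (hrexp 2) hδ
        _ = δ * Real.exp (v 2) * (2 * ρ) := by ring) (hLD 2)
  obtain ⟨c, hc, hco, hci, hcL⟩ := hint (q 3) (hq 3) (hf 3) (v 3) η (K₀ * δ) (2 * ρ) ν₀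
    (by linarith) hη (by positivity) (by linarith [hCηKδ, hCK]) (by
      refine hν₀.trans ?_
      calc K₀ * (δ * r₂) ≤ K₀ * (δ * (Real.exp (v 3) * (2 * ρ))) :=
            mul_le_mul_of_nonneg_left (mul_le_mul_of_nonneg_left (hrexp 3) hδ) (by linarith)
        _ = K₀ * δ * Real.exp (v 3) * (2 * ρ) := by ring) (hLD 3)
  have h2ρ : 2 * ρ / 2 = ρ := by ring
  rw [h2ρ] at hai hui hci
  -- derived bounds
  have hE0 : 0 ≤ C * K₀ * (η + δ) := by positivity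
  have haL' : ∀ x, |LD a x - v 0| ≤ C * K₀ * (η + δ) := fun x => by
    have := haL x
    rw [add_zero] at this
    linarith
  have huL' : ∀ x, |LD u x - v 2| ≤ C * K₀ * (η + δ) := fun x => (huL x).trans hCηδ
  have hcL' : ∀ x, |LD c x - v 3| ≤ C * K₀ * (η + δ) := fun x => (hcL x).trans hCηKδ
  refine ⟨a, u, c, ha, hu, hc, ?_, ?_, ?_, ?_, ?_, ?_, ?_⟩
  · have := hai 0 (by rw [abs_zero]; exact hρ0.le)
    simpa using this
  · exact fun x hx => ⟨hao x hx, huo x hx, hco x hx⟩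
  · intro x hx
    refine ⟨?_, hui x hx⟩
    have := hai x hx
    rwa [add_zero] at this
  · intro x
    refine ⟨(haL' x).trans ?_, (huL' x).trans ?_, (hcL' x).trans ?_⟩ <;> nlinarith
  · -- the commutator is the identity near `0`
    intro x hx
    have e3 : 0 < Real.exp (v 3) := Real.exp_pos _
    have e2 : 0 < Real.exp (v 2) := Real.exp_pos _
    set y₁ : ℝ := (x - ν₀) / Real.exp (v 3) with hy₁
    set y₂ : ℝ := (y₁ - δ * r₂) / Real.exp (v 2) with hy₂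
    set y₃ : ℝ := Real.exp (v 3) * y₂ + ν₀ with hy₃
    have hx1 : Real.exp (v 3) * y₁ + ν₀ = x := by rw [hy₁]; field_simp; ring
    have hy21 : Real.exp (v 2) * y₂ + δ * r₂ = y₁ := by rw [hy₂]; field_simp; ring
    have hMM : ∀ i, ∀ t : ℝ, |t / Real.exp (v i)| ≤ M * |t| := by
      intro i t
      rw [abs_div, abs_of_pos (Real.exp_pos _), div_le_iff₀ (Real.exp_pos _)]
      have := hexpM' i
      nlinarith [abs_nonneg t]
    have b1 : |y₁| ≤ 2 * M * r₂ := by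
      have h1 := hMM 3 (x - ν₀)
      have h2 : |x - ν₀| ≤ 2 * r₂ := by
        have := abs_sub x ν₀
        linarith
      calc |y₁| ≤ M * |x - ν₀| := h1
        _ ≤ M * (2 * r₂) := mul_le_mul_of_nonneg_left h2 hM0.le
        _ = 2 * M * r₂ := by ring
    have hMr : r₂ ≤ M * r₂ := by nlinarith
    have b2 : |y₂| ≤ 3 * M ^ 2 * r₂ := by
      have h1 := hMM 2 (y₁ - δ * r₂)
      have h2 : |y₁ - δ * r₂| ≤ 3 * M * r₂ := by
        have := abs_sub y₁ (δ * r₂)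
        rw [abs_of_nonneg hτ0] at this
        linarith
      calc |y₂| ≤ M * |y₁ - δ * r₂| := h1
        _ ≤ M * (3 * M * r₂) := mul_le_mul_of_nonneg_left h2 hM0.le
        _ = 3 * M ^ 2 * r₂ := by ring
    have hM3r : r₂ ≤ M ^ 3 * r₂ := by nlinarith
    have b3 : |y₃| ≤ 4 * M ^ 3 * r₂ := by
      have h1 : |Real.exp (v 3) * y₂| ≤ 3 * M ^ 3 * r₂ := by
        rw [abs_mul, abs_of_pos e3]
        calc Real.exp (v 3) * |y₂| ≤ M * (3 * M ^ 2 * r₂) :=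
              mul_le_mul (hexpM 3) b2 (abs_nonneg _) hM0.le
          _ = 3 * M ^ 3 * r₂ := by ring
      have h2 := abs_add_le (Real.exp (v 3) * y₂) ν₀
      rw [hy₃]
      linarith
    have hM13 : M * r₂ ≤ M ^ 3 * r₂ :=
      mul_le_mul_of_nonneg_right (by simpa using hpow 1 3 (by norm_num)) hr₂0.le
    have hM23 : M ^ 2 * r₂ ≤ M ^ 3 * r₂ :=
      mul_le_mul_of_nonneg_right (hpow 2 3 (by norm_num)) hr₂0.le
    have c1 : |y₁| ≤ ρ := by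
      rw [← hr₂M]; nlinarith
    have c2 : |y₂| ≤ ρ := by
      rw [← hr₂M]; nlinarith
    have c3 : |y₃| ≤ ρ := by
      rw [← hr₂M]; exact b3
    have f1 : c⁻¹ x = y₁ := H4_apply_inv (by rw [hci y₁ c1]; exact hx1)
    have f2 : u⁻¹ y₁ = y₂ := H4_apply_inv (by rw [hui y₂ c2]; exact hy21)
    have f3 : c y₂ = y₃ := hci y₂ c2
    rw [H4_comm_apply, f1, f2, f3, hui y₃ c3, hy₃]
    calc Real.exp (v 2) * (Real.exp (v 3) * y₂ + ν₀) + δ * r₂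
        = Real.exp (v 3) * (Real.exp (v 2) * y₂) + (Real.exp (v 2) * ν₀ + δ * r₂) := by ring
      _ = Real.exp (v 3) * (Real.exp (v 2) * y₂) + (Real.exp (v 3) * (δ * r₂) + ν₀) := by
          rw [hcm]
      _ = Real.exp (v 3) * (Real.exp (v 2) * y₂ + δ * r₂) + ν₀ := by ring
      _ = x := by rw [hy21, hx1]
  · -- the derivative of `G`
    intro x
    have hw1 : ⁅q 0, q 1⁆ ∈ Dd := by
      rw [commutatorElement_def]
      exact Dd.mul_mem (Dd.mul_mem (Dd.mul_mem (hq 0) (hq 1)) (Dd.inv_mem (hq 0)))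
        (Dd.inv_mem (hq 1))
    have hw2 : ⁅q 2, q 3⁆ ∈ Dd := by
      rw [commutatorElement_def]
      exact Dd.mul_mem (Dd.mul_mem (Dd.mul_mem (hq 2) (hq 3)) (Dd.inv_mem (hq 2)))
        (Dd.inv_mem (hq 3))
    have hw3 : ⁅c, u⁆ ∈ Dd := by
      rw [commutatorElement_def]
      exact Dd.mul_mem (Dd.mul_mem (Dd.mul_mem hc hu) (Dd.inv_mem hc)) (Dd.inv_mem hu)
    rw [commutatorElement_inv, wrd, LD_mul (Dd.mul_mem hw1 hw2) hw3, LD_mul hw1 hw2]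
    have d1 := H4_LDcomm (hq 0) (hq 1) (hLD 0) (hLD 1) (⁅q 2, q 3⁆ (⁅c, u⁆ x))
    have d2 := H4_LDcomm (hq 2) (hq 3) (hLD 2) (hLD 3) (⁅c, u⁆ x)
    have d3 := H4_LDcomm hc hu hcL' huL' x
    have h1 := abs_add_le (LD ⁅q 0, q 1⁆ (⁅q 2, q 3⁆ (⁅c, u⁆ x)) + LD ⁅q 2, q 3⁆ (⁅c, u⁆ x))
      (LD ⁅c, u⁆ x)
    have h2 := abs_add_le (LD ⁅q 0, q 1⁆ (⁅q 2, q 3⁆ (⁅c, u⁆ x))) (LD ⁅q 2, q 3⁆ (⁅c, u⁆ x))
    have h3 : η ≤ C * K₀ * (η + δ) := by nlinarith [mul_nonneg (by linarith : (0:ℝ) ≤ C * K₀ - 1) (by linarith : (0:ℝ) ≤ η + δ)]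
    linarith
  · -- the equation outside the unit interval
    intro x hx
    have hM0' := hM0.le
    have k0 : 2 * ρ ≤ |x| := hρ1.trans hx
    have ax : a x = q 0 x := hao x k0
    -- lower bounds
    have l1 : 1 ≤ M * |q 1 x| := hx.trans (hlo 1 x)
    have l2 : 1 ≤ M * |q 0 x| := hx.trans (hlo 0 x)
    set y : ℝ := q 1 (q 0 x) with hy
    have l3 : 1 ≤ M ^ 2 * |y| := by
      have := hlo 1 (q 0 x)
      calc (1 : ℝ) ≤ M * |q 0 x| := l2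
        _ ≤ M * (M * |y|) := mul_le_mul_of_nonneg_left this hM0'
        _ = M ^ 2 * |y| := by ring
    -- from `1 ≤ M ^ k * |z|` to `2 ρ ≤ |z|`
    have key : ∀ k : ℕ, k ≤ 6 → ∀ z : ℝ, 1 ≤ M ^ k * |z| → 2 * ρ ≤ |z| := by
      intro k hk z hz
      have h1 : M ^ k * |z| ≤ M ^ 6 * |z| := mul_le_mul_of_nonneg_right (hpow k 6 hk) (abs_nonneg _)
      have h2 : 2 * ρ * M ^ 6 ≤ M ^ 6 * |z| := by rw [hρM]; linarith
      have h3 : 0 < M ^ 6 := by positivity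
      nlinarith
    have aq : a (q 1 x) = q 0 (q 1 x) := hao _ (key 1 (by norm_num) _ (by simpa using l1))
    -- the four letters
    set z₁ : ℝ := (q 2)⁻¹ y with hz₁
    set z₂ : ℝ := (q 3)⁻¹ z₁ with hz₂
    set z₃ : ℝ := q 2 z₂ with hz₃
    have hz₁' : q 2 z₁ = y := H4_inv_apply _ _
    have hz₂' : q 3 z₂ = z₁ := H4_inv_apply _ _
    have m1 : 1 ≤ M ^ 3 * |z₁| := by
      have h1 := hup 2 z₁
      rw [hz₁'] at h1
      calc (1 : ℝ) ≤ M ^ 2 * |y| := l3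
        _ ≤ M ^ 2 * (M * |z₁|) := mul_le_mul_of_nonneg_left h1 (by positivity)
        _ = M ^ 3 * |z₁| := by ring
    have m2 : 1 ≤ M ^ 4 * |z₂| := by
      have h1 := hup 3 z₂
      rw [hz₂'] at h1
      calc (1 : ℝ) ≤ M ^ 3 * |z₁| := m1
        _ ≤ M ^ 3 * (M * |z₂|) := mul_le_mul_of_nonneg_left h1 (by positivity)
        _ = M ^ 4 * |z₂| := by ring
    have m3 : 1 ≤ M ^ 5 * |z₃| := by
      have h1 := hlo 2 z₂
      calc (1 : ℝ) ≤ M ^ 4 * |z₂| := m2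
        _ ≤ M ^ 4 * (M * |z₃|) := mul_le_mul_of_nonneg_left h1 (by positivity)
        _ = M ^ 5 * |z₃| := by ring
    have n1 := key 3 (by norm_num) _ m1
    have n2 := key 4 (by norm_num) _ m2
    have n3 := key 5 (by norm_num) _ m3
    have f1 : u⁻¹ y = z₁ := H4_apply_inv (by rw [huo z₁ n1]; exact hz₁')
    have f2 : c⁻¹ z₁ = z₂ := H4_apply_inv (by rw [hco z₂ n2]; exact hz₂')
    have f3 : u z₂ = z₃ := huo z₂ n2
    have f4 : c z₃ = q 3 z₃ := hco z₃ n3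
    have hG : ⁅u, c⁆⁻¹ y = ⁅q 2, q 3⁆⁻¹ y := by
      rw [commutatorElement_inv, commutatorElement_inv, H4_comm_apply, H4_comm_apply, f1, f2, f3,
        f4]
    rw [aq, ax, H4_mul_apply, ← hy, hG, wrd, H4_mul_apply, H4_inv_apply, H4_comm_apply, hy,
      H4_apply_inv (g := q 1) (y := q 0 x) rfl, H4_apply_inv (g := q 0) (y := x) rfl]

end Pool.Agent.helper32.FolG
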