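import Pool.Agent.helper32.FolG.H4
import Pool.Agent.helper32.FolG.H2
import Pool.Agent.helper32.FolG.Bd

/-!
# FOL, G-H5: the global unit-scale form of Lemma H from the core lemma
-/

open Set Filter Topology
open scoped commutatorElement

namespace Pool.Agent.helper32.FolG

open Pool.Agent.helper35.FOL

/-- **The core lemma** for the linear repelling map `x ↦ eᵛ x`, in the form used for Lemma H:
`[x ↦ eᵛ x, Y] = f [u,ψ]⁻¹` on `|x| ≤ R`. -/
def CoreX : Prop :=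
  ∀ v κ θ₀ θ₁ R m τ s θ : ℝ, 0 < v → 0 < κ → κ < θ₀ → θ₀ < θ₁ →
    4 * Real.exp v ^ 2 * θ₁ ≤ R → 0 < m →
    (∀ x, |x| ≤ κ → θ₀ ≤ m * x + τ ∧ m * x + τ ≤ θ₁) → 0 ≤ s → s ≤ 1 / 16 → 0 < θ →
    ∃ η : ℝ, 0 < η ∧ ∀ f Y₀ u : ℝ ≃o ℝ, f ∈ Dd → Y₀ ∈ Dd → u ∈ Dd → f 0 = 0 → Y₀ 0 = 0 →
      (∀ x, |LD f x| ≤ η) → (∀ x, |LD Y₀ x| ≤ s) → (∀ x, |x| ≤ κ → u x = m * x + τ) →
      ∀ ι : ℝ, 0 < ι → ι < 1 → (∀ x, (1 - ι) * R ≤ |x| → |x| ≤ (1 + ι) * R →
        Real.exp v * Y₀ (x / Real.exp v) = f (Y₀ x)) →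
      ∃ Y ψ : ℝ ≃o ℝ, Y ∈ Dd ∧ ψ ∈ Dd ∧ Y 0 = 0 ∧ (∀ x, R / Real.exp v ≤ |x| → Y x = Y₀ x) ∧
        (∀ x, κ ≤ |x| → ψ x = x) ∧
        (∀ x, |x| ≤ R → Real.exp v * Y (x / Real.exp v) = f (⁅u, ψ⁆⁻¹ (Y x))) ∧
        (∀ x, |LD Y x| ≤ 4 * s + θ) ∧ ∀ x, |LD ψ x| ≤ θ

theorem mul_app (g h : ℝ ≃o ℝ) (x : ℝ) : (g * h) x = g (h x) := rfl

theorem fix_inv {g : ℝ ≃o ℝ} {x : ℝ} (h : g x = x) : g⁻¹ x = x := by
  rw [← h, inv_apply_self', h]

theorem lt_of_fix {g : ℝ ≃o ℝ} {κ : ℝ} (h : ∀ x, κ ≤ |x| → g x = x) {x : ℝ} (hx : |x| < κ) :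
    |g x| < κ := by
  by_contra hc
  push Not at hc
  have h1 : g (g x) = g x := h _ hc
  have h2 : g x = x := g.injective h1
  rw [h2] at hc
  linarith

theorem le_of_fix {g : ℝ ≃o ℝ} {κ : ℝ} (h : ∀ x, κ < |x| → g x = x) {x : ℝ} (hx : |x| ≤ κ) :
    |g x| ≤ κ := by
  by_contra hc
  push Not at hc
  have h1 : g (g x) = g x := h _ hc
  have h2 : g x = x := g.injective h1
  rw [h2] at hc
  linarith

/-- If `ψ` is supported where `[u,c]` is the identity then `[u, ψ c] = [u,ψ] [u,c]`. -/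
theorem comm_mul {u c ψ : ℝ ≃o ℝ} {κ r : ℝ} (hκ : 0 < κ) (hr : κ < r)
    (hψ : ∀ x, κ ≤ |x| → ψ x = x) (hc : ∀ x, |x| ≤ r → ⁅u, c⁆ x = x) :
    ⁅u, ψ * c⁆ = ⁅u, ψ⁆ * ⁅u, c⁆ := by
  have hψ' : ∀ x, κ ≤ |x| → ψ⁻¹ x = x := fun x hx => fix_inv (hψ x hx)
  have key : ⁅u, c⁆ * ψ⁻¹ = ψ⁻¹ * ⁅u, c⁆ := by
    ext x
    rw [mul_app, mul_app]
    rcases lt_or_ge |x| κ with hx | hx
    · have h1 : |ψ⁻¹ x| < κ := lt_of_fix hψ' hx
      rw [hc _ (h1.le.trans hr.le), hc x (hx.le.trans hr.le)]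
    · rw [hψ' x hx]
      have h2 : κ ≤ |⁅u, c⁆ x| := by
        by_contra hcon
        push Not at hcon
        have h3 : ⁅u, c⁆ (⁅u, c⁆ x) = ⁅u, c⁆ x := hc _ (hcon.le.trans hr.le)
        have h4 : ⁅u, c⁆ x = x := (⁅u, c⁆).injective h3
        rw [h4] at hcon
        linarith
      rw [hψ' _ h2]
  have e1 : ⁅u, ψ * c⁆ = (u * ψ * u⁻¹) * (⁅u, c⁆ * ψ⁻¹) := by
    simp only [commutatorElement_def]; group
  have e2 : ⁅u, ψ⁆ * ⁅u, c⁆ = (u * ψ * u⁻¹) * (ψ⁻¹ * ⁅u, c⁆) := by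
    simp only [commutatorElement_def]; group
  rw [e1, e2, key]

/-- Outside `[-θ₁, θ₁]` the commutator `[u,ψ]⁻¹` is the identity. -/
theorem comm_inv_fix {u ψ : ℝ ≃o ℝ} {κ θ₀ θ₁ : ℝ} (hκ : 0 < κ) (h1 : κ < θ₀)
    (hψ : ∀ x, κ ≤ |x| → ψ x = x) (hu : ∀ x, |x| ≤ κ → θ₀ ≤ u x ∧ u x ≤ θ₁) {y : ℝ}
    (hy : θ₁ < |y|) : ⁅u, ψ⁆⁻¹ y = y := by
  have hθ : κ < θ₁ := by
    have := hu 0 (by simpa using hκ.le)
    linarith
  have e : ⁅u, ψ⁆⁻¹ y = ψ (u (ψ⁻¹ (u⁻¹ y))) := by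
    have : ⁅u, ψ⁆⁻¹ = ψ * (u * (ψ⁻¹ * u⁻¹)) := by
      simp only [commutatorElement_def]; group
    rw [this]; rfl
  have h2 : κ ≤ |u⁻¹ y| := by
    by_contra hc
    push Not at hc
    have := hu _ hc.le
    rw [apply_inv_self'] at this
    have h3 : |y| ≤ θ₁ := abs_le.2 ⟨by linarith, this.2⟩
    linarith
  rw [e, fix_inv (hψ _ h2), apply_inv_self', hψ y (by linarith)]

/-- The final verification of the commutator equation. -/
theorem assemble {q : Q4} {a u c b Y ψ B : ℝ ≃o ℝ} {l β R κ θ₀ θ₁ r₂ ρ : ℝ} (hl : 1 < l)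
    (hβ : 0 < β) (hκ : 0 < κ) (hκθ : κ < θ₀) (hθr : θ₁ ≤ r₂) (hRr : 2 * R ≤ r₂)
    (hRρ : R / β ≤ ρ) (hRρ' : 2 * R / l ≤ ρ)
    (ha : ∀ x, |x| ≤ ρ → a x = l * x) (hc : ∀ x, |x| ≤ r₂ → ⁅u, c⁆ x = x)
    (hψ : ∀ x, κ ≤ |x| → ψ x = x) (hu : ∀ x, |x| ≤ κ → θ₀ ≤ u x ∧ u x ≤ θ₁)
    (hb : ∀ x, R / (l * β) ≤ |x| → a (b x) = (wrd q * ⁅u, c⁆⁻¹) (b (a x)))
    (haR : ∀ x, R / (l * β) ≤ |x| → R / β ≤ |a x|)
    (hbθ : ∀ x, R / β ≤ |x| → θ₁ < |b x|)
    (hB : ∀ x, B x = β * x)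
    (hY : ∀ x, R / l ≤ |x| → Y x = b (x / β))
    (hYR : ∀ x, |x| ≤ R → |Y x| ≤ 2 * |x|)
    (hYeq : ∀ x, |x| ≤ R → l * Y (x / l) = wrd q (⁅u, ψ⁆⁻¹ (Y x))) :
    wrd ![a, Y * B, u, ψ * c] = wrd q := by
  have hl0 : 0 < l := by linarith
  have hθ01 : θ₀ ≤ θ₁ := by
    have := hu 0 (by simpa using hκ.le)
    linarith
  have hcm : ⁅u, ψ * c⁆ = ⁅u, ψ⁆ * ⁅u, c⁆ := comm_mul hκ (by linarith) hψ hc
  have key : ∀ x, a ((Y * B) x) = (wrd q * ⁅u, ψ * c⁆⁻¹) ((Y * B) (a x)) := by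
    intro x
    have eD : ∀ y, (wrd q * ⁅u, ψ * c⁆⁻¹) y = (wrd q * ⁅u, c⁆⁻¹) (⁅u, ψ⁆⁻¹ y) := by
      intro y
      have : wrd q * ⁅u, ψ * c⁆⁻¹ = (wrd q * ⁅u, c⁆⁻¹) * ⁅u, ψ⁆⁻¹ := by
        rw [hcm]; group
      rw [this]; rfl
    rw [eD]
    change a (Y (B x)) = (wrd q * ⁅u, c⁆⁻¹) (⁅u, ψ⁆⁻¹ (Y (B (a x))))
    rw [hB, hB]
    rcases le_or_gt (R / (l * β)) |x| with hx | hx
    · have h1 : R / l ≤ |β * x| := by
        rw [abs_mul, abs_of_pos hβ]
        calc R / l = β * (R / (l * β)) := by field_simp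
          _ ≤ β * |x| := by gcongr
      have h2 : R / β ≤ |a x| := haR x hx
      have hRnn : R / l ≤ |β * a x| := by
        rw [abs_mul, abs_of_pos hβ]
        have h3 : R ≤ β * |a x| := by
          calc R = β * (R / β) := by field_simp
            _ ≤ β * |a x| := by gcongr
        rcases le_or_gt 0 R with h0 | h0
        · exact (div_le_self h0 hl.le).trans h3
        · exact (div_neg_of_neg_of_pos h0 hl0).le.trans (by positivity)
      rw [hY _ h1, hY _ hRnn, mul_div_cancel_left₀ _ hβ.ne', mul_div_cancel_left₀ _ hβ.ne',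
        comm_inv_fix hκ hκθ hψ hu (hbθ _ h2)]
      exact hb x hx
    · have hxR : |β * l * x| ≤ R := by
        rw [abs_mul, abs_of_pos (by positivity : 0 < β * l)]
        calc β * l * |x| ≤ β * l * (R / (l * β)) := by gcongr
          _ = R := by field_simp
      have hR0 : 0 ≤ R := (abs_nonneg _).trans hxR
      have hxρ : |x| ≤ ρ := by
        refine hx.le.trans (le_trans ?_ hRρ)
        rw [mul_comm, ← div_div]
        exact div_le_self (by positivity) hl.le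
      rw [ha x hxρ]
      have e1 : β * x = (β * l * x) / l := by field_simp
      have e2 : β * (l * x) = β * l * x := by ring
      rw [e2]
      have hYx := hYeq _ hxR
      rw [← e1] at hYx
      have h3 : |Y (β * l * x)| ≤ 2 * R := (hYR _ hxR).trans (by linarith)
      have h4 : |⁅u, ψ⁆⁻¹ (Y (β * l * x))| ≤ r₂ := by
        rcases le_or_gt |Y (β * l * x)| θ₁ with h5 | h5
        · exact (le_of_fix (fun y hy => comm_inv_fix hκ hκθ hψ hu hy) h5).trans hθr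
        · rw [comm_inv_fix hκ hκθ hψ hu h5]; linarith
      have h5 : |Y (β * x)| ≤ ρ := by
        have h6 : |β * x| ≤ R / l := by
          rw [e1, abs_div, abs_of_pos hl0]; gcongr
        have h7 : R / l ≤ R := div_le_self hR0 hl.le
        calc |Y (β * x)| ≤ 2 * |β * x| := hYR _ (h6.trans h7)
          _ ≤ 2 * (R / l) := by gcongr
          _ = 2 * R / l := by ring
          _ ≤ ρ := hRρ'
      rw [ha _ h5, hYx, mul_app, fix_inv (hc _ h4)]
  have e : ⁅a, Y * B⁆ = wrd q * ⁅u, ψ * c⁆⁻¹ := by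
    have h1 : a * (Y * B) = (wrd q * ⁅u, ψ * c⁆⁻¹) * ((Y * B) * a) := by
      ext x; exact key x
    calc ⁅a, Y * B⁆ = (a * (Y * B)) * a⁻¹ * (Y * B)⁻¹ := by simp only [commutatorElement_def]
      _ = wrd q * ⁅u, ψ * c⁆⁻¹ := by rw [h1]; group
  have e2 : wrd ![a, Y * B, u, ψ * c] = ⁅a, Y * B⁆ * ⁅u, ψ * c⁆ := rfl
  rw [e2, e]
  group

theorem wrd_mem {q : Q4} (hq : InDd q) : wrd q ∈ Dd := by
  unfold wrd
  simp only [commutatorElement_def]
  exact Dd.mul_mem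
    (Dd.mul_mem (Dd.mul_mem (Dd.mul_mem (hq 0) (hq 1)) (Dd.inv_mem (hq 0))) (Dd.inv_mem (hq 1)))
    (Dd.mul_mem (Dd.mul_mem (Dd.mul_mem (hq 2) (hq 3)) (Dd.inv_mem (hq 2))) (Dd.inv_mem (hq 3)))

theorem comm_mem {g h : ℝ ≃o ℝ} (hg : g ∈ Dd) (hh : h ∈ Dd) : ⁅g, h⁆ ∈ Dd := by
  simp only [commutatorElement_def]
  exact Dd.mul_mem (Dd.mul_mem (Dd.mul_mem hg hh) (Dd.inv_mem hg)) (Dd.inv_mem hh)

theorem comm_zero {g h : ℝ ≃o ℝ} {x : ℝ} (hg : g x = x) (hh : h x = x) : ⁅g, h⁆ x = x := by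
  change g (h (g⁻¹ (h⁻¹ x))) = x
  rw [fix_inv hh, fix_inv hg, hh, hg]

theorem wrd_fix {q : Q4} {x : ℝ} (hx : Fx q x) : wrd q x = x := by
  change ⁅q 0, q 1⁆ (⁅q 2, q 3⁆ x) = x
  rw [comm_zero (hx 2) (hx 3), comm_zero (hx 0) (hx 1)]

theorem LD_comm_le {g h : ℝ ≃o ℝ} (hg : g ∈ Dd) (hh : h ∈ Dd) {v w η : ℝ}
    (h1 : ∀ x, |LD g x - v| ≤ η) (h2 : ∀ x, |LD h x - w| ≤ η) (x : ℝ) :
    |LD ⁅g, h⁆ x| ≤ 4 * η := by
  have e : LD ⁅g, h⁆ x = LD g (h (g⁻¹ (h⁻¹ x))) + LD h (g⁻¹ (h⁻¹ x)) - LD g (g⁻¹ (h⁻¹ x))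
      - LD h (h⁻¹ x) := by
    have e1 : ⁅g, h⁆ = g * (h * (g⁻¹ * h⁻¹)) := by simp only [commutatorElement_def]; group
    rw [e1, LD_mul hg (Dd.mul_mem hh (Dd.mul_mem (Dd.inv_mem hg) (Dd.inv_mem hh))),
      LD_mul hh (Dd.mul_mem (Dd.inv_mem hg) (Dd.inv_mem hh)),
      LD_mul (Dd.inv_mem hg) (Dd.inv_mem hh), LD_inv hg, LD_inv hh]
    simp only [mul_app]
    ring
  rw [e]
  have a1 := abs_le.1 (h1 (h (g⁻¹ (h⁻¹ x))))
  have a2 := abs_le.1 (h2 (g⁻¹ (h⁻¹ x)))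
  have a3 := abs_le.1 (h1 (g⁻¹ (h⁻¹ x)))
  have a4 := abs_le.1 (h2 (h⁻¹ x))
  rw [abs_le]
  constructor <;> linarith [a1.1, a1.2, a2.1, a2.2, a3.1, a3.2, a4.1, a4.2]

theorem LD_wrd_le {q : Q4} (hq : InDd q) {v : Fin 4 → ℝ} {η : ℝ}
    (h : ∀ i x, |LD (q i) x - v i| ≤ η) (x : ℝ) : |LD (wrd q) x| ≤ 8 * η := by
  unfold wrd
  rw [LD_mul (comm_mem (hq 0) (hq 1)) (comm_mem (hq 2) (hq 3))]
  have h1 := LD_comm_le (hq 0) (hq 1) (h 0) (h 1) (⁅q 2, q 3⁆ x)
  have h2 := LD_comm_le (hq 2) (hq 3) (h 2) (h 3) x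
  rw [abs_le] at *
  constructor <;> linarith [h1.1, h1.2, h2.1, h2.2]

/-- The linear map `x ↦ eᵗ x`. -/
noncomputable def lin (t : ℝ) : ℝ ≃o ℝ := OrderIso.mulLeft₀ (Real.exp t) (Real.exp_pos t)

theorem lin_apply (t x : ℝ) : lin t x = Real.exp t * x := rfl

theorem deriv_lin (t x : ℝ) : deriv (⇑(lin t)) x = Real.exp t := by
  have : (⇑(lin t) : ℝ → ℝ) = fun y => Real.exp t * y := rfl
  rw [this]
  simp

theorem lin_mem (t : ℝ) : lin t ∈ Dd := by
  refine ⟨?_, fun x => ?_⟩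
  · have : (⇑(lin t) : ℝ → ℝ) = fun y => Real.exp t * y := rfl
    rw [this]
    fun_prop
  · rw [deriv_lin]; exact Real.exp_pos t

theorem LD_lin (t x : ℝ) : LD (lin t) x = t := by
  unfold LD
  rw [deriv_lin, Real.log_exp]

theorem lin_inv_apply (t x : ℝ) : (lin t)⁻¹ x = x / Real.exp t := by
  have h : lin t (x / Real.exp t) = x := by
    rw [lin_apply]; field_simp
  conv_lhs => rw [← h]
  exact inv_apply_self' _ _

/-- Lemma H (global form) from the core lemma. -/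
theorem LemH2_of_core (hcore : CoreX) : LemH2 := by
  intro v hv hv' ε hε
  obtain ⟨K, ρ, r₂, hK, hr₂, hr₂ρ, hρ1, hdata⟩ := exists_data v hv hv'
  have hρ : 0 < ρ := hr₂.trans_le hr₂ρ
  set l := Real.exp (v 0) with hldef
  set β := Real.exp (v 1) with hβdef
  set m := Real.exp (v 2) with hmdef
  have hl : 1 < l := Real.one_lt_exp_iff.2 hv
  have hl0 : 0 < l := by linarith
  have hβ : 0 < β := Real.exp_pos _
  have hm : 0 < m := Real.exp_pos _
  -- the radius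
  obtain ⟨R, hR, hRr, hRρ4, hRβ2, hRβ1⟩ : ∃ R : ℝ, 0 < R ∧ 4 * R ≤ r₂ ∧ 4 * R ≤ ρ ∧ 2 * (R / β) ≤ ρ ∧
      R ≤ β := by
    refine ⟨r₂ / 4 * min 1 β, by positivity, ?_, ?_, ?_, ?_⟩
    · have := min_le_left 1 β
      nlinarith
    · have := min_le_left 1 β
      nlinarith
    · rw [← mul_div_assoc, div_le_iff₀ hβ]
      have := min_le_right 1 β
      nlinarith
    · have := min_le_right 1 β
      nlinarith
  have hRβ : R / β ≤ ρ := by
    have : 0 < R / β := by positivity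
    linarith
  -- the number of steps
  obtain ⟨k, hk⟩ : ∃ k : ℕ, Real.exp (-(k * (v 0 / 2))) ≤ R / (2 * l * β) := by
    obtain ⟨k, hk⟩ := exists_nat_gt (-(Real.log (R / (2 * l * β))) / (v 0 / 2))
    refine ⟨k, ?_⟩
    have hpos : 0 < R / (2 * l * β) := by positivity
    rw [← Real.exp_log hpos, Real.exp_le_exp]
    rw [div_lt_iff₀ (by positivity)] at hk
    linarith
  -- the smallness
  set P : ℝ := (3 * k + 1) * (2 * K) with hP
  have hP2 : 2 * K ≤ P := by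
    rw [hP]
    have : (0 : ℝ) ≤ k := Nat.cast_nonneg k
    nlinarith
  have hP0 : 0 < P := by linarith
  obtain ⟨δ, hδ, hδ1, hδ2, hδ3, hδ4, hδ5⟩ : ∃ δ : ℝ, 0 < δ ∧ P * δ ≤ 1 / 64 ∧ P * δ ≤ ε / 32 ∧
      P * δ ≤ v 0 / 4 ∧ 16 * l ^ 2 * (δ * r₂) ≤ R ∧ δ ≤ Real.exp (v 3 - 1) := by
    refine ⟨min (1 / 64 / P) (min (ε / 32 / P) (min (v 0 / 4 / P) (min (R / (16 * l ^ 2 * r₂))
      (Real.exp (v 3 - 1))))), ?_, ?_, ?_, ?_, ?_, ?_⟩
    · have := Real.exp_pos (v 3 - 1)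
      positivity
    · calc _ ≤ P * (1 / 64 / P) := by gcongr; exact min_le_left _ _
        _ = _ := by field_simp
    · calc _ ≤ P * (ε / 32 / P) := by
            gcongr; exact (min_le_right _ _).trans (min_le_left _ _)
        _ = _ := by field_simp
    · calc _ ≤ P * (v 0 / 4 / P) := by
            gcongr
            exact (min_le_right _ _).trans ((min_le_right _ _).trans (min_le_left _ _))
        _ = _ := by field_simp
    · calc _ ≤ 16 * l ^ 2 * (R / (16 * l ^ 2 * r₂) * r₂) := by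
            gcongr
            exact (min_le_right _ _).trans ((min_le_right _ _).trans ((min_le_right _ _).trans
              (min_le_left _ _)))
        _ = _ := by field_simp
    · exact (min_le_right _ _).trans ((min_le_right _ _).trans ((min_le_right _ _).trans
              (min_le_right _ _)))
  have hKδ : K * (2 * δ) ≤ P * δ := by nlinarith
  have hδsmall : δ ≤ 1 / 64 := by nlinarith
  set τ := δ * r₂ with hτdef
  have hτ : 0 < τ := by positivity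
  have hl2 : 1 < l ^ 2 := by nlinarith
  have hτR : 16 * τ ≤ R := by nlinarith
  set κ := τ / (4 * (1 + m)) with hκdef
  have hκ : 0 < κ := by positivity
  have hκτ : κ * (4 * (1 + m)) = τ := by rw [hκdef]; field_simp
  have hκ4 : κ ≤ τ / 4 := by nlinarith
  have hmκ : m * κ ≤ τ / 4 := by nlinarith
  set s := (3 * (k : ℝ) + 1) * (K * (2 * δ)) with hs
  have hsP : s = P * δ := by rw [hs, hP]; ring
  have hs0 : 0 ≤ s := by rw [hsP]; positivity
  obtain ⟨θ, hθ, hθ1, hθ2⟩ : ∃ θ : ℝ, 0 < θ ∧ θ ≤ ε / 8 ∧ θ ≤ 1 / 4 :=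
    ⟨min (ε / 8) (1 / 4), by positivity, min_le_left _ _, min_le_right _ _⟩
  have hQ : ∀ x, |x| ≤ κ → τ / 2 ≤ m * x + τ ∧ m * x + τ ≤ 2 * τ := by
    intro x hx
    have h1 : |m * x| ≤ τ / 4 := by
      rw [abs_mul, abs_of_pos hm]
      exact (mul_le_mul_of_nonneg_left hx hm.le).trans hmκ
    have h2 := abs_le.1 h1
    constructor <;> linarith [h2.1, h2.2]
  obtain ⟨ηc, hηc, hcoreη⟩ := hcore (v 0) κ (τ / 2) (2 * τ) R m τ s θ hv hκ (by linarith)
    (by linarith) (by rw [← hldef]; nlinarith) hm hQ hs0 (by rw [hsP]; linarith) hθ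
  obtain ⟨η, hη, hη1, hη2, hη3⟩ : ∃ η : ℝ, 0 < η ∧ 8 * η ≤ ηc ∧ η ≤ δ ∧ η ≤ 1 :=
    ⟨min (ηc / 8) (min δ 1), by positivity,
      by linarith [min_le_left (ηc / 8) (min δ 1)],
      (min_le_right _ _).trans (min_le_left _ _), (min_le_right _ _).trans (min_le_right _ _)⟩
  refine ⟨η, hη, ?_⟩
  intro q hq hq0 hqη
  have hKη : K * (η + δ) ≤ K * (2 * δ) := by
    apply mul_le_mul_of_nonneg_left (by linarith) (by linarith)
  obtain ⟨a, u, c, ha, hu, hc, ha0, hout, hin, hL, hcomm, hLG, heq⟩ :=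
    hdata q hq hq0 η δ hη.le hδ.le (by linarith) hqη
  set G := wrd q * ⁅u, c⁆⁻¹ with hGdef
  have hG : G ∈ Dd := Dd.mul_mem (wrd_mem hq) (Dd.inv_mem (comm_mem hu hc))
  have hGr : ∀ y, |y| ≤ r₂ → G y = wrd q y := by
    intro y hy
    rw [hGdef, mul_app, fix_inv (hcomm y hy)]
  have hG0 : G 0 = 0 := by
    rw [hGr 0 (by simpa using hr₂.le), wrd_fix hq0]
  obtain ⟨b, hb, hb0, hb1, hbt, hLb⟩ := transport ha hG (hq 1) ha0 hG0 (hq0 1) hv
    (δ := K * (2 * δ)) (by linarith) (fun x => (hL x).1.trans hKη) (fun x => (hLG x).trans hKη)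
    (w := v 1) (fun x => (hqη 1 x).trans (by nlinarith)) heq k
  -- expansions
  have haexp : ∀ x, Real.exp (v 0 / 2) * |x| ≤ |a x| := le_abs_of_LD ha ha0 (fun x => by
    have := (abs_le.1 ((hL x).1.trans hKη)).1
    linarith)
  have hae1 : ∀ x, |x| ≤ |a x| := fun x => by
    have h1 : 1 ≤ Real.exp (v 0 / 2) := Real.one_le_exp (by linarith)
    have := haexp x
    nlinarith [abs_nonneg x]
  have hexps : Real.exp s ≤ 2 := by
    have h1 : s ≤ 1 / 2 := by rw [hsP]; linarith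
    have h2 : Real.exp s ≤ Real.exp (1 / 2) := Real.exp_le_exp.2 h1
    have h3 : Real.exp (1 / 2) ≤ 2 := by
      have := Real.exp_bound_div_one_sub_of_interval (x := 1 / 2) (by norm_num) (by norm_num)
      norm_num at this
      exact this
    linarith
  have hexps' : 1 / 2 ≤ Real.exp (-s) := by
    rw [Real.exp_neg, one_div]
    exact inv_anti₀ (Real.exp_pos s) hexps
  have hbup : ∀ x, |b x| ≤ 2 * β * |x| := fun x => by
    have h1 := abs_le_of_LD hb hb0 (c := v 1 + s) (fun y => by linarith [(abs_le.1 (hLb y)).2]) x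
    rw [Real.exp_add] at h1
    calc |b x| ≤ Real.exp (v 1) * Real.exp s * |x| := h1
      _ ≤ β * 2 * |x| := by gcongr
      _ = 2 * β * |x| := by ring
  have hblow : ∀ x, β / 2 * |x| ≤ |b x| := fun x => by
    have h1 := le_abs_of_LD hb hb0 (c := v 1 - s) (fun y => by linarith [(abs_le.1 (hLb y)).1]) x
    rw [sub_eq_add_neg, Real.exp_add] at h1
    calc β / 2 * |x| = β * (1 / 2) * |x| := by ring
      _ ≤ β * Real.exp (-s) * |x| := by gcongr
      _ ≤ |b x| := h1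
  -- the initial Y
  set B := lin (v 1) with hB
  have hY₀mem : b * B⁻¹ ∈ Dd := Dd.mul_mem hb (Dd.inv_mem (lin_mem _))
  have hY₀ : ∀ x, (b * B⁻¹) x = b (x / β) := fun x => by
    rw [mul_app, hB, lin_inv_apply]
  have hY₀L : ∀ x, |LD (b * B⁻¹) x| ≤ s := fun x => by
    rw [LD_mul hb (Dd.inv_mem (lin_mem _)), LD_inv (lin_mem _), LD_lin]
    have := hLb ((lin (v 1))⁻¹ x)
    rw [← sub_eq_add_neg]
    exact this
  have hcollar : ∀ x, (1 - 1 / 2) * R ≤ |x| → |x| ≤ (1 + 1 / 2) * R →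
      Real.exp (v 0) * (b * B⁻¹) (x / Real.exp (v 0)) = wrd q ((b * B⁻¹) x) := by
    intro x hx1 hx2
    rw [hY₀, hY₀, ← hldef]
    have hy : |x / l / β| = |x| / (l * β) := by
      rw [abs_div, abs_div, abs_of_pos hl0, abs_of_pos hβ, div_div]
    have h1 : Real.exp (-(k * (v 0 / 2))) ≤ |x / l / β| := by
      rw [hy]
      refine hk.trans ?_
      rw [div_le_div_iff₀ (by positivity) (by positivity)]
      have : R ≤ 2 * |x| := by linarith
      calc R * (l * β) ≤ 2 * |x| * (l * β) := by gcongr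
        _ = |x| * (2 * l * β) := by ring
    have h2 : |x / l / β| ≤ 2 * R / (l * β) := by
      rw [hy]; gcongr; linarith
    have h3 : 2 * R / (l * β) ≤ ρ := by
      refine le_trans ?_ hRβ2
      rw [mul_comm l, ← div_div, mul_div_assoc]
      exact div_le_self (by positivity) hl.le
    have h4 := hbt _ h1
    rw [(hin _ (h2.trans h3)).1] at h4
    have h5 : l * (x / l / β) = x / β := by field_simp
    rw [h5] at h4
    have h6 : |b (x / l / β)| ≤ ρ := by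
      calc |b (x / l / β)| ≤ 2 * β * |x / l / β| := hbup _
        _ ≤ 2 * β * (2 * R / (l * β)) := by gcongr
        _ = 4 * R / l := by field_simp; ring
        _ ≤ 4 * R := div_le_self (by positivity) hl.le
        _ ≤ ρ := by linarith
    rw [(hin _ h6).1] at h4
    have h7 : |b (x / β)| ≤ r₂ := by
      calc |b (x / β)| ≤ 2 * β * |x / β| := hbup _
        _ = 2 * |x| := by rw [abs_div, abs_of_pos hβ]; field_simp
        _ ≤ r₂ := by linarith
    rw [hGr _ h7] at h4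
    exact h4
  obtain ⟨Y, ψ, hY, hψ, hY00, hYout, hψout, hYeq, hLY, hLψ⟩ := hcoreη (wrd q) (b * B⁻¹) u
    (wrd_mem hq) hY₀mem hu (wrd_fix hq0)
    (by rw [hY₀, zero_div, hb0])
    (fun x => (LD_wrd_le hq hqη x).trans hη1) hY₀L
    (fun x hx => (hin x (hx.trans (by linarith))).2) (1 / 2) (by norm_num) (by norm_num) hcollar
  have hYR : ∀ x, |Y x| ≤ 2 * |x| := fun x => by
    have h1 := abs_le_of_LD hY hY00 (c := 1 / 2) (fun y => by
      have h2 := (abs_le.1 (hLY y)).2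
      have h3 : 4 * s ≤ 1 / 16 := by rw [hsP]; linarith
      linarith) x
    have h3 : Real.exp (1 / 2) ≤ 2 := by
      have := Real.exp_bound_div_one_sub_of_interval (x := 1 / 2) (by norm_num) (by norm_num)
      norm_num at this
      exact this
    exact h1.trans (by gcongr)
  have hus : ∀ x, |x| ≤ κ → τ / 2 ≤ u x ∧ u x ≤ 2 * τ := fun x hx => by
    rw [(hin x (hx.trans (by linarith))).2]
    exact hQ x hx
  refine ⟨![a, Y * B, u, ψ * c], ?_, ?_, ?_, ?_, ?_⟩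
  · intro i
    fin_cases i
    · exact ha
    · exact Dd.mul_mem hY (lin_mem _)
    · exact hu
    · exact Dd.mul_mem hψ hc
  · intro i x hx
    have h2 : 2 * ρ ≤ |x| := hρ1.trans hx
    fin_cases i
    · exact (hout x h2).1
    · change Y (B x) = q 1 x
      have h3 : B x = β * x := rfl
      have h4 : R / Real.exp (v 0) ≤ |B x| := by
        rw [h3, abs_mul, abs_of_pos hβ, ← hldef]
        calc R / l ≤ R := div_le_self hR.le hl.le
          _ ≤ β := hRβ1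
          _ ≤ β * |x| := by nlinarith
      rw [hYout _ h4, hY₀, h3, mul_div_cancel_left₀ _ hβ.ne', hb1 x hx]
    · exact (hout x h2).2.1
    · change ψ (c x) = q 3 x
      rw [← (hout x h2).2.2]
      apply hψout
      rw [(hout x h2).2.2]
      have h3 := le_abs_of_LD (hq 3) (hq0 3) (c := v 3 - 1) (fun y => by
        linarith [(abs_le.1 (hqη 3 y)).1]) x
      have h4 : κ ≤ δ := by
        have : τ ≤ δ := by rw [hτdef]; nlinarith
        linarith
      have h5 : Real.exp (v 3 - 1) ≤ Real.exp (v 3 - 1) * |x| := by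
        have := Real.exp_pos (v 3 - 1)
        nlinarith
      linarith
  · have hKε : K * (η + δ) ≤ ε / 32 := by linarith
    intro i x
    fin_cases i
    · exact (hL x).1.trans (by linarith)
    · change |LD (Y * B) x - v 1| ≤ ε
      rw [LD_mul hY (lin_mem _), LD_lin, add_sub_cancel_right]
      refine (hLY _).trans ?_
      rw [hsP]; linarith
    · exact (hL x).2.1.trans (by linarith)
    · change |LD (ψ * c) x - v 3| ≤ ε
      rw [LD_mul hψ hc, add_sub_assoc]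
      refine (abs_add_le _ _).trans ?_
      have := hLψ (c x)
      have := (hL x).2.2
      linarith
  · refine assemble (l := l) (β := β) (R := R) (κ := κ) (θ₀ := τ / 2) (θ₁ := 2 * τ) (r₂ := r₂)
      (ρ := ρ) (b := b) hl hβ hκ (by linarith) (by linarith) (by linarith) hRβ ?_
      (fun x hx => (hin x hx).1) hcomm hψout hus ?_ ?_ ?_ (fun x => rfl) ?_ (fun x _ => hYR x) ?_
    · exact (div_le_self (by positivity) hl.le).trans (by linarith)
    · intro x hx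
      apply hbt
      refine hk.trans (le_trans ?_ hx)
      rw [mul_assoc, mul_comm 2, ← div_div]
      exact div_le_self (by positivity) (by norm_num)
    · intro x hx
      rcases le_or_gt |x| ρ with h1 | h1
      · rw [(hin x h1).1, abs_mul, abs_of_pos hl0]
        calc R / β = l * (R / (l * β)) := by field_simp
          _ ≤ l * |x| := by gcongr
      · exact hRβ.trans (h1.le.trans (hae1 x))
    · intro x hx
      have h1 := hblow x
      have h2 : R / 2 ≤ β / 2 * |x| := by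
        calc R / 2 = β / 2 * (R / β) := by field_simp
          _ ≤ β / 2 * |x| := by gcongr
      linarith
    · intro x hx
      rw [hYout x hx, hY₀]
    · intro x hx
      exact hYeq x hx
  · intro x hx
    have h1 : a x = x := hx 0
    have h2 : x = 0 := by
      by_contra hne
      have h3 : 0 < |x| := abs_pos.2 hne
      have h4 : 1 < Real.exp (v 0 / 2) := Real.one_lt_exp_iff.2 (by linarith)
      have h5 := haexp x
      rw [h1] at h5
      nlinarith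
    have h3 : u x = x := hx 2
    have h4 := hus 0 (by simpa using hκ.le)
    rw [h2] at h3
    rw [h3] at h4
    linarith [h4.1]

end Pool.Agent.helper32.FolG
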