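import Pool.Agent.helper32.FolG.Base

/-!
# FOL, G-N0: Lemma N with comparability at both ends
-/

open Set Filter Topology

namespace Pool.Agent.helper32.FolG

open Pool.Agent.helper35.FOL

/-- **Lemma N'**: `a₁` is comparable with all four maps at both ends, and the modification is
supported at distance `M` displacements from the ends. -/
def LemN' : Prop :=
  ∀ c₀ : ℝ, 0 < c₀ → ∀ M : ℝ, 0 < M → ∀ ε : ℝ, 0 < ε → ∃ η : ℝ, 0 < η ∧
    ∀ q : Q4, InDd q → ∀ s t : ℝ, s < t → 0 < |q 0 s - s| → 0 < |q 0 t - t| →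
      (∀ i, c₀ * |q i s - s| ≤ |q 0 s - s|) → (∀ i, c₀ * |q i t - t| ≤ |q 0 t - t|) →
      (∀ i x, s ≤ x → x ≤ t → |LD (q i) x| ≤ η) →
      ∃ q' : Q4, InDd q' ∧
        (∀ i x, x ≤ s + M * |q 0 s - s| ∨ t - M * |q 0 t - t| ≤ x → q' i x = q i x) ∧
        (∀ i x, s ≤ x → x ≤ t → |LD (q' i) x| ≤ ε) ∧ wrd q' = wrd q ∧
        ∀ x, s ≤ x → x ≤ t → ¬ Fx q' x

end Pool.Agent.helper32.FolG
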