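import Pool.Agent.helper32.FolG.A3

/-!
# FOL, G-N1: words as lists of letters, the linear algebra of the displacements
-/

open Set Filter Topology
open scoped commutatorElement

namespace Pool.Agent.helper32.FolG

open Pool.Agent.helper35.FOL

/-- The value of a letter. -/
noncomputable def lt1 (q : Q4) (p : Fin 4 × Bool) : ℝ ≃o ℝ := cond p.2 (q p.1) (q p.1)⁻¹

/-- The value of a list of letters. -/
noncomputable def evL (q : Q4) (L : List (Fin 4 × Bool)) : ℝ ≃o ℝ := (L.map (lt1 q)).prod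

/-- The linearised displacement of a list of letters. -/
noncomputable def linL (d : Fin 4 → ℝ) (L : List (Fin 4 × Bool)) : ℝ :=
  (L.map fun p => cond p.2 (d p.1) (-(d p.1))).sum

theorem evL_nil (q : Q4) : evL q [] = 1 := rfl

theorem evL_cons (q : Q4) (p : Fin 4 × Bool) (L : List (Fin 4 × Bool)) :
    evL q (p :: L) = lt1 q p * evL q L := by
  simp [evL]

theorem linL_nil (d : Fin 4 → ℝ) : linL d [] = 0 := rfl

theorem linL_cons (d : Fin 4 → ℝ) (p : Fin 4 × Bool) (L : List (Fin 4 × Bool)) :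
    linL d (p :: L) = cond p.2 (d p.1) (-(d p.1)) + linL d L := by
  simp [linL]

theorem ev_eq_evL (q : Q4) (w : FreeGroup (Fin 4)) : ev q w = evL q w.toWord := by
  conv_lhs => rw [← FreeGroup.mk_toWord (x := w)]
  unfold ev
  rw [FreeGroup.lift_mk]
  rfl

/-- The linearised displacement as a homomorphism. -/
noncomputable def lin1 (d : Fin 4 → ℝ) : FreeGroup (Fin 4) →* Multiplicative ℝ :=
  FreeGroup.lift fun i => Multiplicative.ofAdd (d i)

theorem lin1_eq (d : Fin 4 → ℝ) (w : FreeGroup (Fin 4)) :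
    Multiplicative.toAdd (lin1 d w) = linL d w.toWord := by
  conv_lhs => rw [← FreeGroup.mk_toWord (x := w)]
  unfold lin1
  rw [FreeGroup.lift_mk]
  generalize w.toWord = L
  induction L with
  | nil => simp [linL]
  | cons p L ih =>
    rw [linL_cons, List.map_cons, List.prod_cons, toAdd_mul, ih]
    rcases p with ⟨i, b⟩
    cases b <;> simp

/-- Substitution of words in a word. -/
theorem app_app (s t : Fin 4 → FreeGroup (Fin 4)) (q : Q4) :
    app s (app t q) = app (fun i => FreeGroup.lift t (s i)) q := by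
  funext i
  unfold app
  have : ev (fun i => ev q (t i)) = (ev q).comp (FreeGroup.lift t) := by
    apply FreeGroup.ext_hom
    intro a
    simp [ev]
  rw [this]
  rfl

/-- Two real numbers: at most one of three multiples is bad. -/
theorem two_numbers (a b a' b' : ℝ) : ∃ k : ℕ, k < 3 ∧ |a| ≤ 8 * |a + k * b| ∧
    |b| ≤ 8 * |a + k * b| ∧ |a'| ≤ 8 * |a' + k * b'| ∧ |b'| ≤ 8 * |a' + k * b'| := by
  have key : ∀ a b : ℝ, ∀ k l : ℕ, k < 3 → l < 3 → k ≠ l →
      (8 * |a + k * b| < |a| ∨ 8 * |a + k * b| < |b|) →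
      (8 * |a + l * b| < |a| ∨ 8 * |a + l * b| < |b|) → False := by
    intro a b k l hk hl hkl h1 h2
    have hm1 : 8 * |a + k * b| < max |a| |b| := by
      rcases h1 with h | h
      · exact lt_of_lt_of_le h (le_max_left _ _)
      · exact lt_of_lt_of_le h (le_max_right _ _)
    have hm2 : 8 * |a + l * b| < max |a| |b| := by
      rcases h2 with h | h
      · exact lt_of_lt_of_le h (le_max_left _ _)
      · exact lt_of_lt_of_le h (le_max_right _ _)
    have hkl' : (1 : ℝ) ≤ |(k : ℝ) - l| := by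
      have : (1 : ℤ) ≤ |(k : ℤ) - l| := Int.one_le_abs (by omega)
      exact_mod_cast this
    have hb : |b| ≤ |a + k * b| + |a + l * b| := by
      calc |b| ≤ |(k : ℝ) - l| * |b| := by nlinarith [abs_nonneg b]
        _ = |(a + k * b) - (a + l * b)| := by rw [← abs_mul]; congr 1; ring
        _ ≤ |a + k * b| + |a + l * b| := abs_sub _ _
    have hk2 : (k : ℝ) ≤ 2 := by
      have : k ≤ 2 := by omega
      exact_mod_cast this
    have ha : |a| ≤ |a + k * b| + 2 * |b| := by
      calc |a| = |(a + k * b) - k * b| := by congr 1; ring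
        _ ≤ |a + k * b| + |k * b| := abs_sub _ _
        _ = |a + k * b| + k * |b| := by rw [abs_mul (k : ℝ) b, Nat.abs_cast]
        _ ≤ |a + k * b| + 2 * |b| := by gcongr
    rcases max_cases |a| |b| with ⟨h, _⟩ | ⟨h, _⟩ <;> rw [h] at hm1 hm2 <;>
      linarith [abs_nonneg a, abs_nonneg b]
  by_contra hno
  push Not at hno
  have hbad : ∀ k : ℕ, k < 3 → ((8 * |a + k * b| < |a| ∨ 8 * |a + k * b| < |b|) ∨
      (8 * |a' + k * b'| < |a'| ∨ 8 * |a' + k * b'| < |b'|)) := by
    intro k hk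
    by_contra hc
    push Not at hc
    have := hno k hk hc.1.1 hc.1.2 hc.2.1
    linarith [hc.2.2]
  rcases hbad 0 (by norm_num) with h0 | h0 <;> rcases hbad 1 (by norm_num) with h1 | h1 <;>
    rcases hbad 2 (by norm_num) with h2 | h2
  · exact key a b 0 1 (by norm_num) (by norm_num) (by norm_num) h0 h1
  · exact key a b 0 1 (by norm_num) (by norm_num) (by norm_num) h0 h1
  · exact key a b 0 2 (by norm_num) (by norm_num) (by norm_num) h0 h2
  · exact key a' b' 1 2 (by norm_num) (by norm_num) (by norm_num) h1 h2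
  · exact key a b 1 2 (by norm_num) (by norm_num) (by norm_num) h1 h2
  · exact key a' b' 0 2 (by norm_num) (by norm_num) (by norm_num) h0 h2
  · exact key a' b' 0 1 (by norm_num) (by norm_num) (by norm_num) h0 h1
  · exact key a' b' 0 1 (by norm_num) (by norm_num) (by norm_num) h0 h1

/-- The displacement of the new `a₁`. -/
def newd (k l j : ℕ) (d : Fin 4 → ℝ) : ℝ := d 0 + k * d 1 + j * (d 3 + l * d 2 - d 1)

/-- The linear algebra: one choice of the relabeling is good at both ends. -/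
theorem choice (d e : Fin 4 → ℝ) : ∃ k l j : ℕ, k < 3 ∧ l < 3 ∧ j < 3 ∧
    (∀ i, |d i| ≤ 1000 * |newd k l j d|) ∧ ∀ i, |e i| ≤ 1000 * |newd k l j e| := by
  obtain ⟨k, hk, k1, k2, k3, k4⟩ := two_numbers (d 0) (d 1) (e 0) (e 1)
  obtain ⟨l, hl, l1, l2, l3, l4⟩ := two_numbers (d 3) (d 2) (e 3) (e 2)
  obtain ⟨j, hj, j1, j2, j3, j4⟩ := two_numbers (d 0 + k * d 1) (d 3 + l * d 2 - d 1)
    (e 0 + k * e 1) (e 3 + l * e 2 - e 1)
  have key : ∀ f : Fin 4 → ℝ, |f 0| ≤ 8 * |f 0 + k * f 1| → |f 1| ≤ 8 * |f 0 + k * f 1| →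
      |f 3| ≤ 8 * |f 3 + l * f 2| → |f 2| ≤ 8 * |f 3 + l * f 2| →
      |f 0 + k * f 1| ≤ 8 * |newd k l j f| → |f 3 + l * f 2 - f 1| ≤ 8 * |newd k l j f| →
      ∀ i, |f i| ≤ 1000 * |newd k l j f| := by
    intro f h1 h2 h3 h4 h5 h6 i
    have h7 : |f 3 + l * f 2| ≤ |f 3 + l * f 2 - f 1| + |f 1| := by
      calc |f 3 + l * f 2| = |(f 3 + l * f 2 - f 1) + f 1| := by congr 1; ring
        _ ≤ _ := abs_add_le _ _
    have h8 := abs_nonneg (newd k l j f)
    fin_cases i
    · show |f 0| ≤ _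
      linarith
    · show |f 1| ≤ _
      linarith
    · show |f 2| ≤ _
      linarith
    · show |f 3| ≤ _
      linarith
  exact ⟨k, l, j, hk, hl, hj, key d k1 k2 l1 l2 j1 j2, key e k3 k4 l3 l4 j3 j4⟩

end Pool.Agent.helper32.FolG
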