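import Pool.Agent.helper32.FolG.N0

/-!
# FOL, G-U1: the logarithmic coordinate

`l` is the scale function, `h` its logarithmic coordinate, `h' = 1 / l`.
-/

open Set Filter Topology

namespace Pool.Agent.helper32.FolG

open Pool.Agent.helper35.FOL

/-- The data of the coordinate. -/
structure Coord (s t ls lt : ℝ) (h : ℝ ≃o ℝ) (l : ℝ → ℝ) : Prop where
  mem : h ∈ Dd
  pos : ∀ x, 0 < l x
  lip : ∀ x y, |l x - l y| ≤ |x - y|
  der : ∀ x, HasDerivAt h (1 / l x) x
  left : ∀ x, x ≤ s + 40 * ls → l x = ls ∧ h x = (x - s) / ls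
  right : ∀ x, t - 40 * lt ≤ x → l x = lt ∧ h x = h t + (x - t) / lt
  low : ∀ x, (ls ≤ l x ∧ x - s ≤ 40 * l x) ∨ (lt ≤ l x ∧ t - x ≤ 40 * l x)
  upl : ∀ x, s + ls ≤ x → l x ≤ x - s
  upr : ∀ x, x ≤ t - lt → l x ≤ t - x
  big : 60 ≤ h t

theorem exists_coord {s t ls lt : ℝ} (hls : 0 < ls) (hlt : 0 < lt) (h1 : 1000 * ls ≤ t - s)
    (h2 : 1000 * lt ≤ t - s) : ∃ (h : ℝ ≃o ℝ) (l : ℝ → ℝ), Coord s t ls lt h l := by
  set l : ℝ → ℝ := fun x => min (ls + max (x - s - 40 * ls) 0) (lt + max (t - 40 * lt - x) 0)
    with hl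
  have pos : ∀ x, 0 < l x := by
    intro x
    apply lt_min
    · linarith [le_max_right (x - s - 40 * ls) 0]
    · linarith [le_max_right (t - 40 * lt - x) 0]
  have lip : ∀ x y, |l x - l y| ≤ |x - y| := by
    intro x y
    refine (abs_min_sub_min_le_max _ _ _ _).trans (max_le ?_ ?_)
    · rw [add_sub_add_left_eq_sub]
      refine (abs_max_sub_max_le_abs _ _ _).trans (le_of_eq ?_)
      congr 1; ring
    · rw [add_sub_add_left_eq_sub]
      refine (abs_max_sub_max_le_abs _ _ _).trans (le_of_eq ?_)
      rw [abs_sub_comm x y]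
      congr 1; ring
  have hcont : Continuous l := by
    rw [hl]; fun_prop
  have hφ : Continuous fun x => 1 / l x := continuous_const.div hcont fun x => (pos x).ne'
  set H : ℝ → ℝ := fun x => ∫ u in s..x, 1 / l u with hH
  have der : ∀ x, HasDerivAt H (1 / l x) x := fun x =>
    (hφ.integral_hasStrictDerivAt s x).hasDerivAt
  have hmono : StrictMono H := by
    apply strictMono_of_deriv_pos
    intro x
    rw [(der x).deriv]
    exact one_div_pos.2 (pos x)
  have ll : ∀ x, x ≤ s + 40 * ls → l x = ls := by
    intro x hx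
    rw [hl]
    simp only
    rw [max_eq_right (by linarith : x - s - 40 * ls ≤ 0), add_zero, min_eq_left]
    linarith [le_max_left (t - 40 * lt - x) 0]
  have lr : ∀ x, t - 40 * lt ≤ x → l x = lt := by
    intro x hx
    rw [hl]
    simp only
    rw [max_eq_right (by linarith : t - 40 * lt - x ≤ 0), add_zero, min_eq_right]
    linarith [le_max_left (x - s - 40 * ls) 0]
  have Hl : ∀ x, x ≤ s + 40 * ls → H x = (x - s) / ls := by
    intro x hx
    have : H x = ∫ u in s..x, 1 / ls := by
      apply intervalIntegral.integral_congr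
      intro u hu
      have hu' : u ≤ s + 40 * ls := by
        rcases le_total s x with h | h
        · rw [uIcc_of_le h] at hu; linarith [hu.2]
        · rw [uIcc_of_ge h] at hu; linarith [hu.2]
      show 1 / l u = 1 / ls
      rw [ll u hu']
    rw [this, intervalIntegral.integral_const, smul_eq_mul, mul_one_div]
  have Hr : ∀ x, t - 40 * lt ≤ x → H x = H t + (x - t) / lt := by
    intro x hx
    have e1 : H x = H t + ∫ u in t..x, 1 / l u :=
      (intervalIntegral.integral_add_adjacent_intervals (hφ.intervalIntegrable _ _)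
        (hφ.intervalIntegrable _ _)).symm
    have : ∫ u in t..x, 1 / l u = ∫ u in t..x, 1 / lt := by
      apply intervalIntegral.integral_congr
      intro u hu
      have hu' : t - 40 * lt ≤ u := by
        rcases le_total t x with h | h
        · rw [uIcc_of_le h] at hu; linarith [hu.1]
        · rw [uIcc_of_ge h] at hu; linarith [hu.1]
      show 1 / l u = 1 / lt
      rw [lr u hu']
    rw [e1, this, intervalIntegral.integral_const, smul_eq_mul, mul_one_div]
  have hsurj : Function.Surjective H := by
    apply Continuous.surjective (continuous_iff_continuousAt.2 fun x => (der x).continuousAt)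
    · have e : (fun x => H t + (x - t) / lt) =ᶠ[atTop] H := by
        filter_upwards [eventually_ge_atTop t] with x hx
        exact (Hr x (by linarith)).symm
      refine Tendsto.congr' e ?_
      apply tendsto_atTop_add_const_left
      exact (tendsto_atTop_add_const_right _ (-t) tendsto_id).atTop_div_const hlt
    · have e : (fun x => (x - s) / ls) =ᶠ[atBot] H := by
        filter_upwards [eventually_le_atBot s] with x hx
        exact (Hl x (by linarith)).symm
      refine Tendsto.congr' e ?_
      exact (tendsto_atBot_add_const_right _ (-s) tendsto_id).atBot_div_const hls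
  refine ⟨StrictMono.orderIsoOfSurjective H hmono hsurj, l, ?_⟩
  have hcoe : ⇑(StrictMono.orderIsoOfSurjective H hmono hsurj) = H := by
    funext x; simp
  have hderiv : deriv H = fun x => 1 / l x := funext fun x => (der x).deriv
  refine ⟨?_, pos, lip, ?_, ?_, ?_, ?_, ?_, ?_, ?_⟩
  · rw [mem_Dd, hcoe]
    refine ⟨?_, fun x => ?_⟩
    · rw [contDiff_one_iff_deriv, hderiv]
      exact ⟨fun x => (der x).differentiableAt, hφ⟩
    · rw [hderiv]
      exact one_div_pos.2 (pos x)
  · intro x
    rw [hcoe]
    exact der x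
  · intro x hx
    rw [hcoe]
    exact ⟨ll x hx, Hl x hx⟩
  · intro x hx
    rw [hcoe]
    exact ⟨lr x hx, Hr x hx⟩
  · intro x
    rw [hl]
    simp only
    rcases min_choice (ls + max (x - s - 40 * ls) 0) (lt + max (t - 40 * lt - x) 0) with h | h
    · left
      rw [h]
      constructor
      · linarith [le_max_right (x - s - 40 * ls) 0]
      · linarith [le_max_right (x - s - 40 * ls) 0, le_max_left (x - s - 40 * ls) 0]
    · right
      rw [h]
      constructor
      · linarith [le_max_right (t - 40 * lt - x) 0]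
      · linarith [le_max_right (t - 40 * lt - x) 0, le_max_left (t - 40 * lt - x) 0]
  · intro x hx
    refine (min_le_left _ _).trans ?_
    rcases max_cases (x - s - 40 * ls) 0 with ⟨h, _⟩ | ⟨h, _⟩ <;> rw [h] <;> linarith
  · intro x hx
    refine (min_le_right _ _).trans ?_
    rcases max_cases (t - 40 * lt - x) 0 with ⟨h, _⟩ | ⟨h, _⟩ <;> rw [h] <;> linarith
  · rw [hcoe]
    have e1 := Hl (s + 40 * ls) le_rfl
    have e2 := Hr (t - 40 * lt) le_rfl
    have e3 : H (s + 40 * ls) ≤ H (t - 40 * lt) := hmono.monotone (by linarith)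
    have e4 : (s + 40 * ls - s) / ls = 40 := by field_simp; ring
    have e5 : (t - 40 * lt - t) / lt = -40 := by field_simp; ring
    rw [e4] at e1
    rw [e5] at e2
    linarith

variable {s t ls lt : ℝ} {h : ℝ ≃o ℝ} {l : ℝ → ℝ}

theorem Coord.LD_eq (H : Coord s t ls lt h l) (x : ℝ) : LD h x = - Real.log (l x) := by
  unfold LD
  rw [(H.der x).deriv, one_div, Real.log_inv]

theorem Coord.dist_h (H : Coord s t ls lt h l) {x x' : ℝ} (hx : |x' - x| ≤ l x / 2) :
    |h x' - h x| ≤ 2 * |x' - x| / l x := by
  have hp := H.pos x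
  have := Convex.norm_image_sub_le_of_norm_hasDerivWithin_le (f := h) (f' := fun z => 1 / l z)
    (s := uIcc x x') (C := 2 / l x) (x := x) (y := x') (fun z _ => (H.der z).hasDerivWithinAt)
    (fun z hz => ?_) (convex_uIcc _ _) left_mem_uIcc right_mem_uIcc
  · rw [Real.norm_eq_abs, Real.norm_eq_abs] at this
    refine this.trans (le_of_eq ?_)
    ring
  · have hz1 : |z - x| ≤ |x' - x| := abs_sub_left_of_mem_uIcc hz
    have h1 := (abs_le.1 (H.lip z x)).1
    have hz2 : l x / 2 ≤ l z := by linarith
    rw [Real.norm_eq_abs, abs_of_pos (one_div_pos.2 (H.pos z))]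
    rw [div_le_div_iff₀ (H.pos z) hp]
    linarith

theorem Coord.dist_log (H : Coord s t ls lt h l) {x x' : ℝ} (hx : |x' - x| ≤ l x / 2) :
    |Real.log (l x') - Real.log (l x)| ≤ 2 * |x' - x| / l x := by
  have hp := H.pos x
  have hp' := H.pos x'
  have h1 := abs_le.1 (H.lip x' x)
  have h2 : l x / 2 ≤ l x' := by linarith [h1.1]
  have h3 : Real.log (l x') - Real.log (l x) ≤ l x' / l x - 1 := by
    rw [← Real.log_div hp'.ne' hp.ne']
    exact Real.log_le_sub_one_of_pos (div_pos hp' hp)
  have h4 : Real.log (l x) - Real.log (l x') ≤ l x / l x' - 1 := by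
    rw [← Real.log_div hp.ne' hp'.ne']
    exact Real.log_le_sub_one_of_pos (div_pos hp hp')
  have h5 : l x' / l x - 1 ≤ 2 * |x' - x| / l x := by
    rw [div_sub_one hp.ne']
    gcongr
    linarith [h1.2, abs_nonneg (x' - x)]
  have h6 : l x / l x' - 1 ≤ 2 * |x' - x| / l x := by
    rw [div_sub_one hp'.ne', div_le_div_iff₀ hp' hp]
    have h7 : l x - l x' ≤ |x' - x| := by linarith [h1.1]
    calc (l x - l x') * l x ≤ |x' - x| * l x := by gcongr
      _ ≤ |x' - x| * (2 * l x') := by gcongr; linarith
      _ = 2 * |x' - x| * l x' := by ring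
  exact abs_le.2 ⟨by linarith, by linarith⟩

theorem Coord.dist_inv (H : Coord s t ls lt h l) {x x' : ℝ} (hx : |h x' - h x| ≤ 1 / 4) :
    |x' - x| ≤ 2 * |h x' - h x| * l x := by
  have hp := H.pos x
  -- the estimate for points at distance at most `l x`
  have key : ∀ y y', |y - x| ≤ l x → |y' - x| ≤ l x → y ≤ y' →
      y' - y ≤ 2 * (h y' - h y) * l x := by
    intro y y' hy hy' hyy
    rcases hyy.eq_or_lt with rfl | hlt
    · simp
    obtain ⟨z, hz, hz'⟩ := exists_hasDerivAt_eq_slope h (fun z => 1 / l z) hlt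
      (fun z _ => (H.der z).continuousAt.continuousWithinAt) (fun z _ => H.der z)
    have h1 : |z - x| ≤ l x := by
      rw [abs_le] at hy hy' ⊢
      exact ⟨by linarith [hz.1], by linarith [hz.2]⟩
    have h2 : l z ≤ 2 * l x := by linarith [(abs_le.1 (H.lip z x)).2]
    have h3 : h y' - h y = (y' - y) / l z := by
      rw [eq_div_iff (sub_pos.2 hlt).ne'] at hz'
      rw [← hz']; ring
    rw [h3]
    have h4 : 0 < y' - y := sub_pos.2 hlt
    calc y' - y = 2 * ((y' - y) / (2 * l x)) * l x := by field_simp
      _ ≤ 2 * ((y' - y) / l z) * l x := by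
        have := H.pos z
        gcongr
  have hclose : |x' - x| ≤ l x := by
    by_contra hc
    push Not at hc
    rcases le_total x x' with hxx | hxx
    · rw [abs_of_nonneg (by linarith)] at hc
      have h1 := key x (x + l x) (by simp [hp.le]) (by simp [abs_of_pos hp]) (by linarith)
      have h2 : h (x + l x) ≤ h x' := h.monotone (by linarith)
      have h3 := (abs_le.1 hx).2
      nlinarith
    · rw [abs_of_nonpos (by linarith)] at hc
      have h1 := key (x - l x) x (by simp [abs_of_pos hp]) (by simp [hp.le]) (by linarith)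
      have h2 : h x' ≤ h (x - l x) := h.monotone (by linarith)
      have h3 := (abs_le.1 hx).1
      nlinarith
  rcases le_total x x' with hxx | hxx
  · have h1 := key x x' (by simp [hp.le]) hclose hxx
    rw [abs_of_nonneg (by linarith : 0 ≤ x' - x),
      abs_of_nonneg (by linarith [h.monotone hxx] : 0 ≤ h x' - h x)]
    exact h1
  · have h1 := key x' x hclose (by simp [hp.le]) hxx
    rw [abs_sub_comm, abs_sub_comm (h x')]
    rw [abs_of_nonneg (by linarith : 0 ≤ x - x'),
      abs_of_nonneg (by linarith [h.monotone hxx] : 0 ≤ h x - h x')]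
    exact h1

end Pool.Agent.helper32.FolG
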